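import Pool.Agent.Lib_helper97.SepDefs

/-!
General facts about the lazy simple random walk on a finite regular graph.
-/

namespace Pool.Agent.LazyWalk

open Filter Topology Finset
open scoped Classical

section General

variable {V : Type} [Fintype V] (G : SimpleGraph V)

lemma stepProb_zero (x y : V) : stepProb G 0 x y = if x = y then 1 else 0 := by
  unfold stepProb
  rw [pow_zero, Matrix.one_apply]

lemma stepProb_succ (t : ℕ) (x y : V) :
    stepProb G (t + 1) x y = ∑ z, stepProb G t x z * lazyWalk G z y := by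
  unfold stepProb
  rw [pow_succ, Matrix.mul_apply]

lemma stepProb_succ' (t : ℕ) (x y : V) :
    stepProb G (t + 1) x y = ∑ z, lazyWalk G x z * stepProb G t z y := by
  unfold stepProb
  rw [pow_succ', Matrix.mul_apply]

lemma stepProb_add (s t : ℕ) (x y : V) :
    stepProb G (s + t) x y = ∑ z, stepProb G s x z * stepProb G t z y := by
  unfold stepProb
  rw [pow_add, Matrix.mul_apply]

lemma lazyWalk_nonneg (x y : V) : 0 ≤ lazyWalk G x y := by
  unfold lazyWalk
  simp only [Matrix.of_apply]
  split_ifs <;> positivity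

/-- All vertices have degree `D`, and `D` is positive. -/
def Reg {V : Type} [Fintype V] (G : SimpleGraph V) (D : ℕ) : Prop :=
  0 < D ∧ ∀ x : V, (univ.filter fun y => G.Adj x y).card = D

lemma degree_eq_card_filter (x : V) : G.degree x = (univ.filter fun y => G.Adj x y).card := by
  rw [← SimpleGraph.card_neighborFinset_eq_degree]
  congr 1
  ext y
  simp

variable {G}

lemma Reg.degree {D : ℕ} (h : Reg G D) (x : V) : G.degree x = D := by
  rw [degree_eq_card_filter, ← h.2 x]

lemma lazyWalk_apply {D : ℕ} (h : Reg G D) (x y : V) :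
    lazyWalk G x y = (if x = y then (1 / 2 : ℝ) else 0) + (if G.Adj x y then 1 / (2 * (D : ℝ)) else 0) := by
  unfold lazyWalk
  simp only [Matrix.of_apply]
  rw [h.degree x]

lemma lazyWalk_symm {D : ℕ} (h : Reg G D) (x y : V) : lazyWalk G x y = lazyWalk G y x := by
  rw [lazyWalk_apply h, lazyWalk_apply h]
  simp only [eq_comm (a := x) (b := y), G.adj_comm x y]

lemma lazyWalk_row_sum {D : ℕ} (h : Reg G D) (x : V) : ∑ y, lazyWalk G x y = 1 := by
  have hD : (0 : ℝ) < D := by exact_mod_cast h.1
  simp only [lazyWalk_apply h]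
  rw [Finset.sum_add_distrib, Finset.sum_ite_eq, if_pos (Finset.mem_univ x), ← Finset.sum_filter,
    Finset.sum_const, ]
  have : (univ.filter fun y => G.Adj x y).card = D := by
    rw [← h.2 x]
  rw [this, nsmul_eq_mul]
  field_simp
  norm_num

lemma stepProb_nonneg (t : ℕ) (x y : V) : 0 ≤ stepProb G t x y := by
  induction t generalizing x y with
  | zero => rw [stepProb_zero]; split_ifs <;> norm_num
  | succ t ih =>
    rw [stepProb_succ]
    exact Finset.sum_nonneg fun z _ => mul_nonneg (ih x z) (lazyWalk_nonneg G z y)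

lemma stepProb_row_sum {D : ℕ} (h : Reg G D) (t : ℕ) (x : V) : ∑ y, stepProb G t x y = 1 := by
  induction t generalizing x with
  | zero =>
    simp only [stepProb_zero]
    rw [Finset.sum_ite_eq, if_pos (Finset.mem_univ x)]
  | succ t ih =>
    simp only [stepProb_succ']
    rw [Finset.sum_comm]
    simp only [← Finset.mul_sum, ih, mul_one]
    exact lazyWalk_row_sum h x

lemma stepProb_symm {D : ℕ} (h : Reg G D) (t : ℕ) (x y : V) : stepProb G t x y = stepProb G t y x := by
  induction t generalizing x y with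
  | zero => simp only [stepProb_zero, eq_comm (a := x) (b := y)]
  | succ t ih =>
    rw [stepProb_succ, stepProb_succ']
    refine Finset.sum_congr rfl fun z _ => ?_
    rw [ih x z, lazyWalk_symm h z y, mul_comm]

lemma stepProb_col_sum {D : ℕ} (h : Reg G D) (t : ℕ) (y : V) : ∑ x, stepProb G t x y = 1 := by
  simp only [stepProb_symm h t _ y]
  exact stepProb_row_sum h t y

/-! ### Separation distance -/

lemma sep_bddAbove (t : ℕ) (x : V) :
    BddAbove (Set.range fun y : V => (1 - stepProb G t x y / (1 / (Fintype.card V : ℝ)))) := 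
  (Set.finite_range _).bddAbove

lemma sep_bddAbove' (t : ℕ) :
    BddAbove (Set.range fun x : V => ⨆ y : V, (1 - stepProb G t x y / (1 / (Fintype.card V : ℝ)))) := 
  (Set.finite_range _).bddAbove

lemma le_sepDist (t : ℕ) (x y : V) : 1 - Fintype.card V * stepProb G t x y ≤ sepDist G t := by
  have h1 := le_ciSup (sep_bddAbove (G := G) t x) y
  have h2 := le_ciSup (sep_bddAbove' (G := G) t) x
  have h3 := h1.trans h2
  unfold sepDist
  refine le_trans (le_of_eq ?_) h3
  rw [div_div_eq_mul_div, div_one, mul_comm]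

lemma sepDist_le [Nonempty V] {t : ℕ} {c : ℝ} 
    (h : ∀ x y, 1 - Fintype.card V * stepProb G t x y ≤ c) : sepDist G t ≤ c := by
  unfold sepDist
  refine ciSup_le fun x => ciSup_le fun y => ?_
  refine le_trans (le_of_eq ?_) (h x y)
  rw [div_div_eq_mul_div, div_one, mul_comm]

lemma sepDist_succ_le [Nonempty V] {D : ℕ} (h : Reg G D) (t : ℕ) :
    sepDist G (t + 1) ≤ sepDist G t := by
  refine sepDist_le fun x y => ?_
  have : 1 - Fintype.card V * stepProb G (t + 1) x y
      = ∑ z, lazyWalk G x z * (1 - Fintype.card V * stepProb G t z y) := by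
    rw [stepProb_succ']
    simp only [mul_sub, mul_one, Finset.sum_sub_distrib, lazyWalk_row_sum h]
    rw [Finset.mul_sum]
    congr 1
    refine Finset.sum_congr rfl fun z _ => ?_
    ring
  rw [this]
  calc ∑ z, lazyWalk G x z * (1 - Fintype.card V * stepProb G t z y)
      ≤ ∑ z, lazyWalk G x z * sepDist G t := 
        Finset.sum_le_sum fun z _ => mul_le_mul_of_nonneg_left (le_sepDist t z y) (lazyWalk_nonneg G x z)
    _ = sepDist G t := by rw [← Finset.sum_mul, lazyWalk_row_sum h, one_mul]

lemma sepDist_antitone [Nonempty V] {D : ℕ} (h : Reg G D) : Antitone (sepDist G) :=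
  antitone_nat_of_succ_le (sepDist_succ_le h)

/-! ### Total variation distance -/

lemma le_tvDist (t : ℕ) (x : V) :
    (1 / 2) * ∑ y : V, |stepProb G t x y - 1 / (Fintype.card V : ℝ)| ≤ tvDist G t := 
  le_ciSup (f := fun x : V => (1 / 2) * ∑ y : V, |stepProb G t x y - 1 / (Fintype.card V : ℝ)|)
    (Set.finite_range _).bddAbove x

lemma tvDist_le [Nonempty V] {t : ℕ} {c : ℝ} 
    (h : ∀ x, (1 / 2) * ∑ y : V, |stepProb G t x y - 1 / (Fintype.card V : ℝ)| ≤ c) :
    tvDist G t ≤ c := 
  ciSup_le h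

lemma tvDist_add_le [Nonempty V] {D : ℕ} (h : Reg G D) (s t : ℕ) :
    tvDist G (s + t) ≤ 2 * tvDist G s * tvDist G t := by
  refine tvDist_le fun x => ?_
  have hcard : (Fintype.card V : ℝ) ≠ 0 := by
    have := Fintype.card_pos (α := V)
    positivity
  have key : ∀ y, stepProb G (s + t) x y - 1 / (Fintype.card V : ℝ) =
      ∑ z, (stepProb G s x z - 1 / (Fintype.card V : ℝ)) * (stepProb G t z y - 1 / (Fintype.card V : ℝ)) := by
    intro y
    simp only [sub_mul, mul_sub, Finset.sum_sub_distrib]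
    rw [← stepProb_add, ← Finset.sum_mul, stepProb_row_sum h, ← Finset.mul_sum, stepProb_col_sum h,
      Finset.sum_const, Finset.card_univ, nsmul_eq_mul]
    field_simp
    ring
  have h1 : ∑ y : V, |stepProb G (s + t) x y - 1 / (Fintype.card V : ℝ)| ≤
      ∑ z, |stepProb G s x z - 1 / (Fintype.card V : ℝ)| * 
        ∑ y, |stepProb G t z y - 1 / (Fintype.card V : ℝ)| := by
    calc ∑ y : V, |stepProb G (s + t) x y - 1 / (Fintype.card V : ℝ)|
        ≤ ∑ y : V, ∑ z, |stepProb G s x z - 1 / (Fintype.card V : ℝ)| *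
            |stepProb G t z y - 1 / (Fintype.card V : ℝ)| := by
          refine Finset.sum_le_sum fun y _ => ?_
          rw [key y]
          refine (Finset.abs_sum_le_sum_abs _ _).trans (le_of_eq ?_)
          exact Finset.sum_congr rfl fun z _ => abs_mul _ _
      _ = _ := by
          rw [Finset.sum_comm]
          exact Finset.sum_congr rfl fun z _ => (Finset.mul_sum _ _ _).symm
  have h2 : ∑ z, |stepProb G s x z - 1 / (Fintype.card V : ℝ)| * 
        ∑ y, |stepProb G t z y - 1 / (Fintype.card V : ℝ)| ≤ 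
        ∑ z, |stepProb G s x z - 1 / (Fintype.card V : ℝ)| * (2 * tvDist G t) := by
    refine Finset.sum_le_sum fun z _ => mul_le_mul_of_nonneg_left ?_ (abs_nonneg _)
    have := le_tvDist (G := G) t z
    linarith
  have h3 := le_tvDist (G := G) s x
  have h4 : 0 ≤ tvDist G t := by
    refine le_trans ?_ (le_tvDist (G := G) t x)
    positivity
  rw [← Finset.sum_mul] at h2
  nlinarith [h1, h2, h3, h4]

lemma tvDist_nonneg [Nonempty V] (t : ℕ) : 0 ≤ tvDist G t := by
  obtain ⟨x⟩ := ‹Nonempty V›
  refine le_trans ?_ (le_tvDist (G := G) t x)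
  positivity

/-- Separation at time `2t` is controlled by total variation at time `t`. -/
lemma sepDist_two_mul_le [Nonempty V] {D : ℕ} (h : Reg G D) (t : ℕ) (ht : 2 * tvDist G t ≤ 1) :
    sepDist G (2 * t) ≤ 1 - (1 - 2 * tvDist G t) ^ 2 := by
  refine sepDist_le fun x y => ?_
  have hsum : ∑ z, min (stepProb G t x z) (stepProb G t y z) ≥ 1 - 2 * tvDist G t := by
    have e : ∀ z, min (stepProb G t x z) (stepProb G t y z) ≥
        (stepProb G t x z + stepProb G t y z) / 2 - 
        (|stepProb G t x z - 1 / (Fintype.card V : ℝ)| + |stepProb G t y z - 1 / (Fintype.card V : ℝ)|) / 2 := by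
      intro z
      have h1 := abs_sub_abs_le_abs_sub (stepProb G t x z - 1 / (Fintype.card V : ℝ)) (stepProb G t y z - 1 / (Fintype.card V : ℝ))
      rcases le_total (stepProb G t x z) (stepProb G t y z) with h' | h'
      · rw [min_eq_left h']
        have := neg_abs_le (stepProb G t x z - 1 / (Fintype.card V : ℝ))
        have := le_abs_self (stepProb G t y z - 1 / (Fintype.card V : ℝ))
        linarith
      · rw [min_eq_right h']
        have := neg_abs_le (stepProb G t y z - 1 / (Fintype.card V : ℝ))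
        have := le_abs_self (stepProb G t x z - 1 / (Fintype.card V : ℝ))
        linarith
    have e2 : ∑ z, ((stepProb G t x z + stepProb G t y z) / 2 - 
        (|stepProb G t x z - 1 / (Fintype.card V : ℝ)| + |stepProb G t y z - 1 / (Fintype.card V : ℝ)|) / 2) ≤
        ∑ z, min (stepProb G t x z) (stepProb G t y z) := Finset.sum_le_sum fun z _ => e z
    rw [Finset.sum_sub_distrib, ← Finset.sum_div, ← Finset.sum_div, Finset.sum_add_distrib,
      Finset.sum_add_distrib, stepProb_row_sum h, stepProb_row_sum h] at e2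
    have e3 := le_tvDist (G := G) t x
    have e4 := le_tvDist (G := G) t y
    linarith
  have hmul : stepProb G (2 * t) x y = ∑ z, stepProb G t x z * stepProb G t y z := by
    rw [two_mul, stepProb_add]
    exact Finset.sum_congr rfl fun z _ => by rw [stepProb_symm h t z y]
  have hge : ∑ z, stepProb G t x z * stepProb G t y z ≥ 
      ∑ z, (min (stepProb G t x z) (stepProb G t y z)) ^ 2 := by
    refine Finset.sum_le_sum fun z _ => ?_
    have h0 : 0 ≤ min (stepProb G t x z) (stepProb G t y z) := 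
      le_min (stepProb_nonneg t x z) (stepProb_nonneg t y z)
    rw [sq]
    exact mul_le_mul (min_le_left _ _) (min_le_right _ _) h0 (stepProb_nonneg t x z)
  have hCS : (∑ z, min (stepProb G t x z) (stepProb G t y z)) ^ 2 ≤ 
      Fintype.card V * ∑ z, (min (stepProb G t x z) (stepProb G t y z)) ^ 2 := by
    have := sq_sum_le_card_mul_sum_sq (s := (Finset.univ : Finset V)) (f := fun z => min (stepProb G t x z) (stepProb G t y z))
    rwa [Finset.card_univ] at this
  have hc : (0 : ℝ) ≤ Fintype.card V := by positivity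
  have h5 : (1 - 2 * tvDist G t) ^ 2 ≤ (∑ z, min (stepProb G t x z) (stepProb G t y z)) ^ 2 := by
    apply pow_le_pow_left₀ (by linarith) hsum
  have h6 := mul_le_mul_of_nonneg_left hge hc
  rw [hmul]
  linarith

/-- General comparison: `T_sep(1/40) ≤ 14 T_mix(1/4)` on a regular graph. -/
lemma sepDist_le_of_tvDist [Nonempty V] {D : ℕ} (h : Reg G D) (T : ℕ) (hT : tvDist G T ≤ 1 / 4) :
    sepDist G (14 * T) ≤ 1 / 64 := by
  have h0 := tvDist_nonneg (G := G) T
  have h2 : tvDist G (T + T) ≤ 1 / 8 := by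
    have := tvDist_add_le h T T
    nlinarith
  have h3 : tvDist G (T + T + T) ≤ 1 / 16 := by
    have := tvDist_add_le h (T + T) T
    have := tvDist_nonneg (G := G) (T + T)
    nlinarith
  have h6 : tvDist G ((T + T + T) + (T + T + T)) ≤ 1 / 128 := by
    have := tvDist_add_le h (T + T + T) (T + T + T)
    have := tvDist_nonneg (G := G) (T + T + T)
    nlinarith
  have h7 : tvDist G ((T + T + T) + (T + T + T) + T) ≤ 1 / 256 := by
    have := tvDist_add_le h ((T + T + T) + (T + T + T)) T
    have := tvDist_nonneg (G := G) ((T + T + T) + (T + T + T))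
    nlinarith
  have h8 := sepDist_two_mul_le h ((T + T + T) + (T + T + T) + T) (by linarith)
  have h9 := tvDist_nonneg (G := G) ((T + T + T) + (T + T + T) + T)
  have e : 2 * ((T + T + T) + (T + T + T) + T) = 14 * T := by ring
  rw [e] at h8
  nlinarith

/-! ### Consequences of uniform exponential convergence -/

/-- Uniform exponential convergence to the uniform law at rate `ρ`. -/
def ExpConv (G : SimpleGraph V) (ρ : ℝ) : Prop :=
  0 ≤ ρ ∧ ρ < 1 ∧ ∃ C : ℝ, ∀ t x y, |Fintype.card V * stepProb G t x y - 1| ≤ C * ρ ^ t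

lemma ExpConv.tendsto {ρ : ℝ} (h : ExpConv G ρ) {ε : ℝ} (hε : 0 < ε) :
    ∃ t₀ : ℕ, ∀ t ≥ t₀, ∀ x y, |Fintype.card V * stepProb G t x y - 1| ≤ ε := by
  obtain ⟨h0, h1, C, hC⟩ := h
  have : Tendsto (fun t : ℕ => C * ρ ^ t) atTop (𝓝 (C * 0)) := 
    (tendsto_pow_atTop_nhds_zero_of_lt_one h0 h1).const_mul C
  rw [mul_zero] at this
  have h2 := this.eventually (ge_mem_nhds hε)
  obtain ⟨t₀, ht₀⟩ := eventually_atTop.1 h2
  exact ⟨t₀, fun t ht x y => (hC t x y).trans (ht₀ t ht)⟩

lemma reachable_of_stepProb_pos (t : ℕ) (x y : V) (h : 0 < stepProb G t x y) : G.Reachable x y := by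
  induction t generalizing y with
  | zero =>
    rw [stepProb_zero] at h
    split_ifs at h with h1
    · rw [h1]
    · exact absurd h (lt_irrefl _)
  | succ t ih =>
    rw [stepProb_succ] at h
    obtain ⟨z, _, hz⟩ := Finset.exists_lt_of_sum_lt (s := (Finset.univ : Finset V)) (f := fun _ => (0 : ℝ))
      (g := fun z => stepProb G t x z * lazyWalk G z y) (by simpa using h)
    have h1 : 0 < stepProb G t x z := by
      rcases (stepProb_nonneg t x z).eq_or_lt with h' | h'
      · exfalso
        have hz' : 0 < stepProb G t x z * lazyWalk G z y := hz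
        rw [← h', zero_mul] at hz'
        exact lt_irrefl _ hz'
      · exact h'
    have h2 := ih z h1
    have h3 : lazyWalk G z y ≠ 0 := by
      intro h'
      have hz' : 0 < stepProb G t x z * lazyWalk G z y := hz
      rw [h', mul_zero] at hz'
      exact lt_irrefl _ hz'
    unfold lazyWalk at h3
    simp only [Matrix.of_apply] at h3
    split_ifs at h3 with h4 h5 h5
    · rw [← h4]; exact h2
    · rw [← h4]; exact h2
    · exact h2.trans h5.reachable
    · simp at h3

lemma ExpConv.connected [Nonempty V] {ρ : ℝ} (h : ExpConv G ρ) : G.Connected := by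
  refine { preconnected := ?_, nonempty := ‹_› }
  intro x y
  obtain ⟨t₀, ht₀⟩ := h.tendsto (ε := 1 / 2) (by norm_num)
  have h1 := ht₀ t₀ le_rfl x y
  rw [abs_le] at h1
  have h2 : 0 < stepProb G t₀ x y := by
    rcases (stepProb_nonneg (G := G) t₀ x y).eq_or_lt with h' | h'
    · rw [← h'] at h1
      linarith [h1.1]
    · exact h'
  exact reachable_of_stepProb_pos t₀ x y h2

lemma ExpConv.lambdaTwo_le {ρ : ℝ} (h : ExpConv G ρ) :
    lambdaTwo G ≤ ρ := by
  unfold lambdaTwo
  refine Real.sSup_le ?_ h.1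
  rintro μ ⟨f, hf0, hfs, hf⟩
  obtain ⟨h0, h1, C, hC⟩ := h
  by_contra hμ
  push Not at hμ
  -- powers
  have hpow : ∀ t : ℕ, ∀ x, ∑ y, stepProb G t x y * f y = μ ^ t * f x := by
    intro t
    induction t with
    | zero =>
      intro x
      simp only [stepProb_zero, ite_mul, one_mul, zero_mul, pow_zero]
      rw [Finset.sum_ite_eq, if_pos (Finset.mem_univ x)]
    | succ t ih =>
      intro x
      have e1 : ∀ z, ∑ y, lazyWalk G z y * f y = μ * f z := by
        intro z
        have := congrFun hf z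
        simpa [Matrix.mulVec, dotProduct] using this
      calc ∑ y, stepProb G (t + 1) x y * f y 
          = ∑ y, ∑ z, stepProb G t x z * lazyWalk G z y * f y := by
            refine Finset.sum_congr rfl fun y _ => ?_
            rw [stepProb_succ, Finset.sum_mul]
        _ = ∑ z, stepProb G t x z * ∑ y, lazyWalk G z y * f y := by
            rw [Finset.sum_comm]
            refine Finset.sum_congr rfl fun z _ => ?_
            rw [Finset.mul_sum]
            exact Finset.sum_congr rfl fun y _ => by ring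
        _ = ∑ z, stepProb G t x z * (μ * f z) := by simp only [e1]
        _ = μ * ∑ z, stepProb G t x z * f z := by
            rw [Finset.mul_sum]
            exact Finset.sum_congr rfl fun y _ => by ring
        _ = μ ^ (t + 1) * f x := by rw [ih x]; ring
  obtain ⟨x, hx⟩ := Function.ne_iff.1 hf0
  simp only [Pi.zero_apply] at hx
  have hcard : (0 : ℝ) < Fintype.card V := by
    have : Nonempty V := ⟨x⟩
    have := Fintype.card_pos (α := V)
    positivity
  -- bound
  have hb : ∀ t : ℕ, Fintype.card V * (μ ^ t * |f x|) ≤ (C * ρ ^ t) * ∑ y, |f y| := by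
    intro t
    have e1 : Fintype.card V * (μ ^ t * f x) = ∑ y, (Fintype.card V * stepProb G t x y - 1) * f y := by
      rw [← hpow t x]
      simp only [sub_mul, one_mul, Finset.sum_sub_distrib, hfs, sub_zero, Finset.mul_sum, mul_assoc]
    have hμ0 : 0 < μ := lt_of_le_of_lt h0 hμ
    have e2 : Fintype.card V * (μ ^ t * |f x|) = |Fintype.card V * (μ ^ t * f x)| := by
      rw [abs_mul, abs_mul, abs_of_pos hcard, abs_of_pos (pow_pos hμ0 t)]
    rw [e2, e1, Finset.mul_sum]
    refine (Finset.abs_sum_le_sum_abs _ _).trans ?_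
    refine Finset.sum_le_sum fun y _ => ?_
    rw [abs_mul]
    exact mul_le_mul_of_nonneg_right (hC t x y) (abs_nonneg _)
  have hμ0 : 0 < μ := lt_of_le_of_lt h0 hμ
  have hr : Tendsto (fun t : ℕ => (C * ∑ y, |f y|) * (ρ / μ) ^ t) atTop (𝓝 ((C * ∑ y, |f y|) * 0)) := by
    refine (tendsto_pow_atTop_nhds_zero_of_lt_one (div_nonneg h0 hμ0.le) ?_).const_mul _
    rw [div_lt_one hμ0]
    exact hμ
  rw [mul_zero] at hr
  have hpos : 0 < Fintype.card V * |f x| := mul_pos hcard (abs_pos.2 hx)
  obtain ⟨t, ht⟩ := (hr.eventually (gt_mem_nhds hpos)).exists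
  have h5 := hb t
  have hμt : 0 < μ ^ t := pow_pos hμ0 t
  have h6 : (C * ∑ y, |f y|) * (ρ / μ) ^ t * μ ^ t = (C * ρ ^ t) * ∑ y, |f y| := by
    rw [div_pow]
    field_simp
  have h7 := mul_lt_mul_of_pos_right ht hμt
  rw [h6] at h7
  have h8 : Fintype.card V * |f x| * μ ^ t = Fintype.card V * (μ ^ t * |f x|) := by ring
  rw [h8] at h7
  exact absurd (lt_of_le_of_lt h5 h7) (lt_irrefl _)

lemma ExpConv.one_sub_le {ρ : ℝ} (h : ExpConv G ρ) : 1 - ρ ≤ 1 - lambdaTwo G := by
  have := h.lambdaTwo_le
  linarith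

lemma ExpConv.exists_tvDist_le [Nonempty V] {ρ : ℝ} (h : ExpConv G ρ) {ε : ℝ} (hε : 0 < ε) :
    ∃ t, tvDist G t ≤ ε := by
  obtain ⟨t₀, ht₀⟩ := h.tendsto hε
  refine ⟨t₀, tvDist_le fun x => ?_⟩
  have hcard : (0 : ℝ) < Fintype.card V := by
    have := Fintype.card_pos (α := V)
    positivity
  have h1 : ∀ y, |stepProb G t₀ x y - 1 / (Fintype.card V : ℝ)| ≤ ε / Fintype.card V := by
    intro y
    have h2 := ht₀ t₀ le_rfl x y
    have h3 : stepProb G t₀ x y - 1 / (Fintype.card V : ℝ) = (Fintype.card V * stepProb G t₀ x y - 1) / Fintype.card V := by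
      field_simp
    rw [h3, abs_div, abs_of_pos hcard]
    exact div_le_div_of_nonneg_right h2 hcard.le
  calc (1 / 2) * ∑ y : V, |stepProb G t₀ x y - 1 / (Fintype.card V : ℝ)| 
      ≤ (1 / 2) * ∑ y : V, ε / Fintype.card V := by
        refine mul_le_mul_of_nonneg_left (Finset.sum_le_sum fun y _ => h1 y) (by norm_num)
    _ = (1 / 2) * ε := by
        rw [Finset.sum_const, Finset.card_univ, nsmul_eq_mul]
        field_simp
    _ ≤ ε := by linarith

lemma ExpConv.exists_sepDist_le [Nonempty V] {ρ : ℝ} (h : ExpConv G ρ) {ε : ℝ} (hε : 0 < ε) :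
    ∃ t, sepDist G t ≤ ε := by
  obtain ⟨t₀, ht₀⟩ := h.tendsto hε
  refine ⟨t₀, sepDist_le fun x y => ?_⟩
  have h2 := ht₀ t₀ le_rfl x y
  rw [abs_le] at h2
  linarith [h2.1]

/-- A lower bound for `T_sep`. -/
lemma lt_Tsep [Nonempty V] {D : ℕ} (h : Reg G D) {ρ : ℝ} (he : ExpConv G ρ) {ε : ℝ} (hε : 0 < ε) 
    {T : ℕ} (hT : ε < sepDist G T) : T < Tsep G ε := by
  have h1 : sepDist G (Tsep G ε) ≤ ε := Nat.sInf_mem (s := {t : ℕ | sepDist G t ≤ ε}) (he.exists_sepDist_le hε)
  by_contra hlt
  push Not at hlt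
  have := sepDist_antitone h hlt
  linarith

lemma Tsep_le {ε : ℝ} {T : ℕ} (hT : sepDist G T ≤ ε) : Tsep G ε ≤ T := Nat.sInf_le hT

lemma Tmix_spec [Nonempty V] {ρ : ℝ} (he : ExpConv G ρ) {ε : ℝ} (hε : 0 < ε) : 
    tvDist G (Tmix G ε) ≤ ε := 
  Nat.sInf_mem (s := {t : ℕ | tvDist G t ≤ ε}) (he.exists_tvDist_le hε)

lemma lt_Tmix [Nonempty V] {D : ℕ} (h : Reg G D) {ρ : ℝ} (he : ExpConv G ρ)
    {T : ℕ} (hT : 1 / 40 < sepDist G T) : T < 14 * Tmix G (1 / 4) := by
  have h1 := Tmix_spec he (ε := 1 / 4) (by norm_num)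
  have h2 := sepDist_le_of_tvDist h _ h1
  by_contra hlt
  push Not at hlt
  have := sepDist_antitone h hlt
  linarith

end General

end Pool.Agent.LazyWalk
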