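import Mathlib

set_option autoImplicit false

/-!
# Formal infinite products of power series
-/

open PowerSeries Finset

namespace Pool.Agent.Lib97

variable {R : Type*} [CommRing R]

/-- The formal infinite product `∏ g i`, meaningful if `g i ≡ 1` modulo `X ^ (i + 1)`. -/
noncomputable def IP (g : ℕ → R⟦X⟧) : R⟦X⟧ :=
  PowerSeries.mk (fun n => coeff n (∏ i ∈ range (n + 1), g i))

/-- Admissible families of factors. -/
def Adm (g : ℕ → R⟦X⟧) : Prop := ∀ i, (X : R⟦X⟧) ^ (i + 1) ∣ g i - 1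

lemma X_pow_dvd_sub_iff {m : ℕ} {y z : R⟦X⟧} :
    (X : R⟦X⟧) ^ m ∣ y - z ↔ ∀ n < m, coeff n y = coeff n z := by
  rw [X_pow_dvd_iff]
  simp only [map_sub, sub_eq_zero]

lemma dvd_mul_sub_mul {d x y z w : R⟦X⟧} (h1 : d ∣ x - y) (h2 : d ∣ z - w) :
    d ∣ x * z - y * w := by
  have : x * z - y * w = x * (z - w) + (x - y) * w := by ring
  rw [this]
  exact dvd_add (Dvd.dvd.mul_left h2 x) (Dvd.dvd.mul_right h1 w)

lemma dvd_prod_sub_one {ι : Type*} (s : Finset ι) (d : R⟦X⟧) (g : ι → R⟦X⟧)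
    (h : ∀ i ∈ s, d ∣ g i - 1) : d ∣ ∏ i ∈ s, g i - 1 := by
  classical
  induction s using Finset.induction_on with
  | empty => simp
  | insert i s his ih =>
    rw [prod_insert his]
    have h1 := h i (mem_insert_self i s)
    have h2 := ih (fun j hj => h j (mem_insert_of_mem hj))
    have := dvd_mul_sub_mul h1 h2
    simpa using this

lemma prod_range_sub_dvd {g : ℕ → R⟦X⟧} (hg : Adm g) {m k : ℕ} (h : m ≤ k) :
    (X : R⟦X⟧) ^ m ∣ ∏ i ∈ range k, g i - ∏ i ∈ range m, g i := by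
  rw [← prod_range_mul_prod_Ico g h]
  have h1 : (X : R⟦X⟧) ^ m ∣ ∏ i ∈ Ico m k, g i - 1 := by
    apply dvd_prod_sub_one
    intro i hi
    rw [mem_Ico] at hi
    exact (pow_dvd_pow _ (by omega)).trans (hg i)
  have : (∏ i ∈ range m, g i) * ∏ i ∈ Ico m k, g i - ∏ i ∈ range m, g i
      = (∏ i ∈ range m, g i) * (∏ i ∈ Ico m k, g i - 1) := by ring
  rw [this]
  exact Dvd.dvd.mul_left h1 _

lemma IP_sub_dvd {g : ℕ → R⟦X⟧} (hg : Adm g) (m : ℕ) :
    (X : R⟦X⟧) ^ m ∣ IP g - ∏ i ∈ range m, g i := by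
  rw [X_pow_dvd_sub_iff]
  intro n hn
  rw [IP, coeff_mk]
  have := prod_range_sub_dvd hg (m := n + 1) (k := m) (by omega)
  rw [X_pow_dvd_sub_iff] at this
  exact (this n (by omega)).symm

lemma IP_sub_dvd' {g : ℕ → R⟦X⟧} (hg : Adm g) {m k : ℕ} (h : m ≤ k) :
    (X : R⟦X⟧) ^ m ∣ IP g - ∏ i ∈ range k, g i :=
  (pow_dvd_pow _ h).trans (IP_sub_dvd hg k)

lemma eq_IP {g : ℕ → R⟦X⟧} {y : R⟦X⟧}
    (h : ∀ m, (X : R⟦X⟧) ^ m ∣ y - ∏ i ∈ range m, g i) : y = IP g := by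
  ext n
  have := h (n + 1)
  rw [X_pow_dvd_sub_iff] at this
  rw [this n (by omega), IP, coeff_mk]

lemma eq_of_forall_dvd {y z : R⟦X⟧} (h : ∀ m, (X : R⟦X⟧) ^ m ∣ y - z) : y = z := by
  ext n
  have := h (n + 1)
  rw [X_pow_dvd_sub_iff] at this
  exact this n (by omega)

lemma Adm.mul {g h : ℕ → R⟦X⟧} (hg : Adm g) (hh : Adm h) : Adm (fun i => g i * h i) := by
  intro i
  simpa using dvd_mul_sub_mul (hg i) (hh i)

lemma IP_mul {g h : ℕ → R⟦X⟧} (hg : Adm g) (hh : Adm h) :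
    IP g * IP h = IP (fun i => g i * h i) := by
  apply eq_IP
  intro m
  rw [prod_mul_distrib]
  exact dvd_mul_sub_mul (IP_sub_dvd hg m) (IP_sub_dvd hh m)

lemma map_IP {R' : Type*} [CommRing R'] (τ : R⟦X⟧ →+* R'⟦X⟧) (hτ : (X : R'⟦X⟧) ∣ τ X)
    {g : ℕ → R⟦X⟧} (hg : Adm g) : τ (IP g) = IP (fun i => τ (g i)) := by
  apply eq_IP
  intro m
  rw [← map_prod, ← map_sub]
  have h1 := map_dvd τ (IP_sub_dvd hg m)
  rw [map_pow] at h1
  exact (pow_dvd_pow_of_dvd hτ m).trans h1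

lemma IP_group {g : ℕ → R⟦X⟧} (hg : Adm g) (k : ℕ) (hk : 1 ≤ k) :
    IP g = IP (fun i => ∏ j ∈ range k, g (k * i + j)) := by
  apply eq_IP
  intro m
  have : ∏ i ∈ range m, ∏ j ∈ range k, g (k * i + j) = ∏ i ∈ range (k * m), g i := by
    induction m with
    | zero => simp
    | succ m ih =>
      rw [prod_range_succ, ih, Nat.mul_succ, prod_range_add]
  rw [this]
  exact IP_sub_dvd' hg (Nat.le_mul_of_pos_left m hk)

lemma constantCoeff_IP {g : ℕ → R⟦X⟧} (hg : Adm g) : constantCoeff (IP g) = 1 := by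
  have h1 := IP_sub_dvd hg 1
  rw [X_pow_dvd_sub_iff] at h1
  have h2 := h1 0 (by omega)
  have h3 := hg 0
  rw [X_pow_dvd_sub_iff] at h3
  have h4 := h3 0 (by omega)
  simp only [prod_range_one] at h2
  rw [← coeff_zero_eq_constantCoeff_apply, h2, h4]
  simp

lemma adm_one_sub {R : Type*} [CommRing R] {g : ℕ → R⟦X⟧} (hg : ∀ i, (X : R⟦X⟧) ^ (i + 1) ∣ g i) :
    Adm (fun i => 1 - g i) := by
  intro i
  have : 1 - g i - 1 = - g i := by ring
  rw [this]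
  exact (dvd_neg).2 (hg i)

lemma adm_one_add {R : Type*} [CommRing R] {g : ℕ → R⟦X⟧} (hg : ∀ i, (X : R⟦X⟧) ^ (i + 1) ∣ g i) :
    Adm (fun i => 1 + g i) := by
  intro i
  have : 1 + g i - 1 = g i := by ring
  rw [this]
  exact hg i

lemma isUnit_of_constantCoeff_one {y : R⟦X⟧} (h : constantCoeff y = 1) : IsUnit y := by
  rw [PowerSeries.isUnit_iff_constantCoeff, h]
  exact isUnit_one

end Pool.Agent.Lib97
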