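import Mathlib
import Pool.Agent.Lib_helper97.IP

set_option autoImplicit false

/-!
# The Jacobi triple product identity for formal power series
-/

open PowerSeries Finset

namespace Pool.Agent.Lib97

/-! ## Gaussian binomials -/

section Gauss

variable {S : Type*} [CommRing S]

/-- Gaussian binomial coefficients. -/
def gb (p : S) : ℕ → ℕ → S
  | _, 0 => 1
  | 0, _ + 1 => 0
  | N + 1, r + 1 => gb p N r + p ^ (r + 1) * gb p N (r + 1)

lemma gb_zero_right (p : S) (N : ℕ) : gb p N 0 = 1 := by cases N <;> rfl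

lemma gb_succ_succ (p : S) (N r : ℕ) :
    gb p (N + 1) (r + 1) = gb p N r + p ^ (r + 1) * gb p N (r + 1) := rfl

lemma gb_eq_zero (p : S) : ∀ (N r : ℕ), N < r → gb p N r = 0
  | 0, 0, h => absurd h (lt_irrefl 0)
  | 0, _ + 1, _ => rfl
  | N + 1, 0, h => absurd h (by omega)
  | N + 1, r + 1, h => by
    rw [gb_succ_succ, gb_eq_zero p N r (by omega), gb_eq_zero p N (r + 1) (by omega)]
    ring

lemma gb_self (p : S) : ∀ N : ℕ, gb p N N = 1
  | 0 => rfl
  | N + 1 => by
    rw [gb_succ_succ, gb_self p N, gb_eq_zero p N (N + 1) (by omega)]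
    ring

/-- Absorption. -/
lemma gb_absorb (p : S) : ∀ (N r d : ℕ), N = r + d →
    (1 - p ^ d) * gb p N r = (1 - p ^ (r + 1)) * gb p N (r + 1)
  | N, r, 0, h => by
    rw [gb_eq_zero p N (r + 1) (by omega)]
    ring
  | 0, _, d + 1, h => by omega
  | N + 1, 0, d + 1, h => by
    have h0 : N = d := by omega
    subst h0
    rw [gb_succ_succ, gb_zero_right, gb_zero_right]
    have h1 := gb_absorb p N 0 N (by omega)
    rw [gb_zero_right] at h1
    linear_combination (p ^ 1) * h1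
  | N + 1, r + 1, d + 1, h => by
    rw [gb_succ_succ, gb_succ_succ]
    have h1 := gb_absorb p N r (d + 1) (by omega)
    have h2 := gb_absorb p N (r + 1) d (by omega)
    linear_combination h1 + p ^ (r + 2) * h2

/-- The second Pascal rule. -/
lemma gb_pascal' (p : S) (N r d : ℕ) (h : N = r + d) :
    gb p (N + 1) (r + 1) = p ^ d * gb p N r + gb p N (r + 1) := by
  rw [gb_succ_succ]
  have := gb_absorb p N r d h
  linear_combination this

/-- The product `(1 - p) ⋯ (1 - p ^ n)`. -/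
def qf (p : S) (n : ℕ) : S := ∏ i ∈ range n, (1 - p ^ (i + 1))

lemma qf_succ (p : S) (n : ℕ) : qf p (n + 1) = qf p n * (1 - p ^ (n + 1)) := by
  rw [qf, prod_range_succ, ← qf]

lemma qf_mul_gb (p : S) : ∀ (N r d : ℕ), N = r + d → qf p r * qf p d * gb p N r = qf p N
  | N, 0, d, h => by
    have : N = d := by omega
    subst this
    rw [gb_zero_right]
    simp [qf]
  | N, r + 1, 0, h => by
    have : N = r + 1 := by omega
    subst this
    rw [gb_self]
    simp [qf]
  | 0, r + 1, d + 1, h => by omega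
  | N + 1, r + 1, d + 1, h => by
    rw [gb_succ_succ]
    have h1 := qf_mul_gb p N r (d + 1) (by omega)
    have h2 := qf_mul_gb p N (r + 1) d (by omega)
    have e1 := qf_succ p r
    have e2 := qf_succ p d
    have e3 := qf_succ p N
    have e4 : N + 1 = (r + 1) + (d + 1) := h
    have e5 : p ^ (N + 1) = p ^ (r + 1) * p ^ (d + 1) := by rw [e4, pow_add]
    rw [e2] at h1 ⊢
    rw [e1] at h2 ⊢
    rw [e3, e5]
    linear_combination (1 - p ^ (r + 1)) * h1 + p ^ (r + 1) * (1 - p ^ (d + 1)) * h2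

end Gauss

/-! ## The finite triple product -/

section Finite

variable {S : Type*} [CommRing S]

/-- Triangular numbers, for all integers. -/
def tri (k : ℤ) : ℕ := (k * (k + 1) / 2).toNat

lemma two_tri (k : ℤ) : 2 * (tri k : ℤ) = k * (k + 1) := by
  have h1 : 0 ≤ k * (k + 1) := by
    rcases le_or_gt 0 k with h | h
    · positivity
    · nlinarith
  have h2 : (2 : ℤ) ∣ k * (k + 1) := (Int.even_mul_succ_self k).two_dvd
  unfold tri
  rw [Int.toNat_of_nonneg (Int.ediv_nonneg h1 (by norm_num))]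
  omega

lemma tri_succ (k : ℤ) : (tri (k + 1) : ℤ) = tri k + (k + 1) := by
  have h1 := two_tri k
  have h2 := two_tri (k + 1)
  nlinarith

/-- The terms of the theta series. -/
def th (a b : S) (k : ℤ) : S := a ^ tri k * b ^ tri (-k)

lemma th_step_a (a b : S) (m : ℕ) (k : ℤ) (e : ℕ) (he : (e : ℤ) = m - k) :
    a * (a * b) ^ m * th a b k = (a * b) ^ e * th a b (k + 1) := by
  have h1 := tri_succ k
  have h2 := tri_succ (-(k + 1))
  have h3 : -(k + 1) + 1 = -k := by ring
  rw [h3] at h2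
  have e1 : 1 + m + tri k = e + tri (k + 1) := by omega
  have e2 : m + tri (-k) = e + tri (-(k + 1)) := by omega
  unfold th
  calc a * (a * b) ^ m * (a ^ tri k * b ^ tri (-k))
      = a ^ (1 + m + tri k) * b ^ (m + tri (-k)) := by ring
    _ = a ^ (e + tri (k + 1)) * b ^ (e + tri (-(k + 1))) := by rw [e1, e2]
    _ = _ := by ring

lemma th_step_b (a b : S) (m : ℕ) (k : ℤ) (e : ℕ) (he : (e : ℤ) = m + k) :
    b * (a * b) ^ m * th a b k = (a * b) ^ e * th a b (k - 1) := by
  have h1 := tri_succ (k - 1)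
  have h2 := tri_succ (-k)
  have h3 : k - 1 + 1 = k := by ring
  have h4 : -(k - 1) = -k + 1 := by ring
  rw [h3] at h1
  rw [← h4] at h2
  have e1 : m + tri k = e + tri (k - 1) := by omega
  have e2 : 1 + m + tri (-k) = e + tri (-(k - 1)) := by omega
  unfold th
  calc b * (a * b) ^ m * (a ^ tri k * b ^ tri (-k))
      = a ^ (m + tri k) * b ^ (1 + m + tri (-k)) := by ring
    _ = a ^ (e + tri (k - 1)) * b ^ (e + tri (-(k - 1))) := by rw [e1, e2]
    _ = _ := by ring

lemma gb_two_step (p : S) (m t : ℕ) (ht : t ≤ 2 * m) :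
    gb p (2 * m + 2) (t + 2) =
      gb p (2 * m) (t + 2) * p ^ (t + 2) + (1 + p ^ (2 * m + 1)) * gb p (2 * m) (t + 1)
        + p ^ (2 * m - t) * gb p (2 * m) t := by
  have h1 := gb_succ_succ p (2 * m + 1) (t + 1)
  have h2 := gb_pascal' p (2 * m) t (2 * m - t) (by omega)
  rcases Nat.lt_or_ge t (2 * m) with h | h
  · have h3 := gb_pascal' p (2 * m) (t + 1) (2 * m - (t + 1)) (by omega)
    have e : p ^ (t + 2) * p ^ (2 * m - (t + 1)) = p ^ (2 * m + 1) := by
      rw [← pow_add]; congr 1; omega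
    rw [h1, h2, h3]
    linear_combination gb p (2 * m) (t + 1) * e
  · have h4 : t = 2 * m := by omega
    subst h4
    rw [h1, h2]
    rw [gb_eq_zero p (2 * m + 1) (2 * m + 1 + 1) (by omega),
      gb_eq_zero p (2 * m) (2 * m + 1) (by omega), gb_eq_zero p (2 * m) (2 * m + 2) (by omega)]
    ring

/-- The finite form of the Jacobi triple product identity. -/
lemma finite_jtp (a b : S) (m : ℕ) :
    ∏ i ∈ range m, ((1 + a * (a * b) ^ i) * (1 + b * (a * b) ^ i)) =
      ∑ r ∈ range (2 * m + 1), gb (a * b) (2 * m) r * th a b ((r : ℤ) - m) := by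
  induction m with
  | zero => simp [gb_zero_right, th, tri]
  | succ m ih =>
    rw [prod_range_succ, ih]
    set p := a * b with hp
    have hfac : (1 + a * p ^ m) * (1 + b * p ^ m) = 1 + p ^ (2 * m + 1) + a * p ^ m
        + b * p ^ m := by
      rw [hp]; ring
    rw [hfac, sum_mul]
    have hterm : ∀ r ∈ range (2 * m + 1),
        gb p (2 * m) r * th a b ((r : ℤ) - m) * (1 + p ^ (2 * m + 1) + a * p ^ m + b * p ^ m) =
        (1 + p ^ (2 * m + 1)) * gb p (2 * m) r * th a b ((r : ℤ) - m)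
        + p ^ (2 * m - r) * gb p (2 * m) r * th a b ((r : ℤ) + 1 - m)
        + gb p (2 * m) r * p ^ r * th a b ((r : ℤ) - 1 - m) := by
      intro r hr
      have hr' := mem_range.1 hr
      have s1 := th_step_a a b m ((r : ℤ) - m) (2 * m - r) (by omega)
      have s2 := th_step_b a b m ((r : ℤ) - m) r (by omega)
      have c1 : (r : ℤ) - m + 1 = (r : ℤ) + 1 - m := by ring
      have c2 : (r : ℤ) - m - 1 = (r : ℤ) - 1 - m := by ring
      rw [c1, ← hp] at s1
      rw [c2, ← hp] at s2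
      linear_combination gb p (2 * m) r * s1 + gb p (2 * m) r * s2
    rw [sum_congr rfl hterm, sum_add_distrib, sum_add_distrib]
    -- rewrite the right-hand side
    have hR : 2 * (m + 1) + 1 = (2 * m + 1) + 1 + 1 := by ring
    have hR' : 2 * (m + 1) = 2 * m + 2 := by ring
    rw [hR, hR']
    conv_rhs => rw [sum_range_succ', sum_range_succ']
    -- third sum : split off the first two terms
    have h3 : ∑ r ∈ range (2 * m + 1), gb p (2 * m) r * p ^ r * th a b ((r : ℤ) - 1 - m) =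
        ∑ r ∈ range (2 * m + 1), gb p (2 * m) (r + 2) * p ^ (r + 2) *
          th a b (((r + 2 : ℕ) : ℤ) - 1 - m) +
        gb p (2 * m) 1 * p ^ 1 * th a b (((1 : ℕ) : ℤ) - 1 - m) +
        gb p (2 * m) 0 * p ^ 0 * th a b (((0 : ℕ) : ℤ) - 1 - m) := by
      have e1 : ∑ r ∈ range (2 * m + 1 + 1 + 1), gb p (2 * m) r * p ^ r *
          th a b ((r : ℤ) - 1 - m)
          = ∑ r ∈ range (2 * m + 1), gb p (2 * m) r * p ^ r * th a b ((r : ℤ) - 1 - m) := by
        rw [sum_range_succ, sum_range_succ, gb_eq_zero p (2 * m) (2 * m + 1) (by omega),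
          gb_eq_zero p (2 * m) (2 * m + 1 + 1) (by omega)]
        ring
      rw [← e1, sum_range_succ', sum_range_succ']
    have h1 : ∑ r ∈ range (2 * m + 1), (1 + p ^ (2 * m + 1)) * gb p (2 * m) r *
          th a b ((r : ℤ) - m) =
        ∑ r ∈ range (2 * m + 1), (1 + p ^ (2 * m + 1)) * gb p (2 * m) (r + 1) *
          th a b (((r + 1 : ℕ) : ℤ) - m) +
        (1 + p ^ (2 * m + 1)) * gb p (2 * m) 0 * th a b (((0 : ℕ) : ℤ) - m) := by
      have e1 : ∑ r ∈ range (2 * m + 1 + 1), (1 + p ^ (2 * m + 1)) * gb p (2 * m) r *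
          th a b ((r : ℤ) - m)
          = ∑ r ∈ range (2 * m + 1), (1 + p ^ (2 * m + 1)) * gb p (2 * m) r *
          th a b ((r : ℤ) - m) := by
        rw [sum_range_succ, gb_eq_zero p (2 * m) (2 * m + 1) (by omega)]
        ring
      rw [← e1, sum_range_succ']
    rw [h3, h1]
    have hmain : ∑ r ∈ range (2 * m + 1), gb p (2 * m + 2) (r + 1 + 1) *
          th a b (((r + 1 + 1 : ℕ) : ℤ) - ((m + 1 : ℕ) : ℤ)) =
        ∑ r ∈ range (2 * m + 1), (1 + p ^ (2 * m + 1)) * gb p (2 * m) (r + 1) *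
          th a b (((r + 1 : ℕ) : ℤ) - m) +
        ∑ r ∈ range (2 * m + 1), p ^ (2 * m - r) * gb p (2 * m) r * th a b ((r : ℤ) + 1 - m) +
        ∑ r ∈ range (2 * m + 1), gb p (2 * m) (r + 2) * p ^ (r + 2) *
          th a b (((r + 2 : ℕ) : ℤ) - 1 - m) := by
      rw [← sum_add_distrib, ← sum_add_distrib]
      apply sum_congr rfl
      intro r hr
      have hr' := mem_range.1 hr
      have c0 : (((r + 1 + 1 : ℕ) : ℤ) - ((m + 1 : ℕ) : ℤ)) = (r : ℤ) + 1 - m := by
        push_cast; ring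
      have c1 : (((r + 1 : ℕ) : ℤ) - m) = (r : ℤ) + 1 - m := by push_cast; ring
      have c2 : (((r + 2 : ℕ) : ℤ) - 1 - m) = (r : ℤ) + 1 - m := by push_cast; ring
      rw [c0, c1, c2, gb_two_step p m r (by omega)]
      ring
    rw [hmain]
    have g1 : gb p (2 * m + 2) (0 + 1) = gb p (2 * m) 1 * p ^ 1 + (1 + p ^ (2 * m + 1)) := by
      rw [gb_succ_succ, gb_zero_right]
      have h2 := gb_pascal' p (2 * m) 0 (2 * m) (by omega)
      rw [gb_zero_right] at h2
      rw [zero_add] at h2 ⊢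
      rw [h2]
      ring
    have c3 : (((0 + 1 : ℕ) : ℤ) - ((m + 1 : ℕ) : ℤ)) = -m := by push_cast; ring
    have c4 : (((1 : ℕ) : ℤ) - 1 - m) = -m := by push_cast; ring
    have c5 : (((0 : ℕ) : ℤ) - m) = -m := by push_cast; ring
    have c6 : (((0 : ℕ) : ℤ) - ((m + 1 : ℕ) : ℤ)) = -1 - m := by push_cast; ring
    have c7 : (((0 : ℕ) : ℤ) - 1 - m) = -1 - m := by push_cast; ring
    rw [g1, c3, c4, c5, c6, c7, gb_zero_right, gb_zero_right]
    ring

end Finite

/-! ## The limit -/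

section Limit

variable {R : Type*} [CommRing R]

lemma tri_add (k : ℤ) : ((tri k + tri (-k) : ℕ) : ℤ) = k ^ 2 := by
  have h1 := two_tri k
  have h2 := two_tri (-k)
  push_cast
  nlinarith

lemma X_pow_dvd_th {a b : R⟦X⟧} (ha : X ∣ a) (hb : X ∣ b) (k : ℤ) {M : ℕ} (hk : M ≤ k.natAbs) :
    (X : R⟦X⟧) ^ M ∣ th a b k := by
  have h1 : (X : R⟦X⟧) ^ (tri k + tri (-k)) ∣ th a b k := by
    rw [pow_add]
    exact mul_dvd_mul (pow_dvd_pow_of_dvd ha _) (pow_dvd_pow_of_dvd hb _)
  refine (pow_dvd_pow _ ?_).trans h1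
  have h2 := tri_add k
  have h3 : (k.natAbs : ℤ) ^ 2 = k ^ 2 := Int.natAbs_sq k
  have h4 : (M : ℤ) ≤ (k.natAbs : ℤ) := by exact_mod_cast hk
  have h5 : (M : ℤ) ≤ ((tri k + tri (-k) : ℕ) : ℤ) := by
    rw [h2, ← h3]
    nlinarith
  exact_mod_cast h5

lemma X_pow_dvd_qf_sub {p : R⟦X⟧} (hp : X ∣ p) {M n n' : ℕ} (hn : M ≤ n) (hn' : M ≤ n') :
    (X : R⟦X⟧) ^ M ∣ qf p n - qf p n' := by
  have hadm : Adm (fun i => 1 - p ^ (i + 1)) :=
    adm_one_sub (fun i => pow_dvd_pow_of_dvd hp _)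
  have h1 := prod_range_sub_dvd hadm hn
  have h2 := prod_range_sub_dvd hadm hn'
  have : qf p n - qf p n' = (qf p n - qf p M) - (qf p n' - qf p M) := by ring
  rw [this]
  exact dvd_sub h1 h2

lemma isUnit_qf {p : R⟦X⟧} (hp : X ∣ p) (n : ℕ) : IsUnit (qf p n) := by
  apply isUnit_of_constantCoeff_one
  have h0 : constantCoeff p = 0 := X_dvd_iff.1 hp
  unfold qf
  rw [map_prod]
  apply prod_eq_one
  intro i _
  simp [h0]

lemma X_pow_dvd_qf_mul_gb {p : R⟦X⟧} (hp : X ∣ p) (M : ℕ) (r d : ℕ) (hr : M ≤ r) (hd : M ≤ d)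
    (n : ℕ) (hn : M ≤ n) :
    (X : R⟦X⟧) ^ M ∣ qf p n * gb p (r + d) r - 1 := by
  have h1 := qf_mul_gb p (r + d) r d rfl
  have e1 := X_pow_dvd_qf_sub hp (M := M) (n := n) (n' := r) hn hr
  have e2 := X_pow_dvd_qf_sub hp (M := M) (n := n) (n' := d) hn hd
  have e3 := X_pow_dvd_qf_sub hp (M := M) (n := n) (n' := r + d) hn (by omega)
  have h2 : (X : R⟦X⟧) ^ M ∣ qf p n * (qf p n * gb p (r + d) r - 1) := by
    have h3 : qf p n * (qf p n * gb p (r + d) r - 1) =
        (qf p n - qf p r) * (qf p n * gb p (r + d) r) +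
        (qf p n - qf p d) * (qf p r * gb p (r + d) r) - (qf p n - qf p (r + d))
        + (qf p r * qf p d * gb p (r + d) r - qf p (r + d)) := by ring
    rw [h3, h1, sub_self, add_zero]
    exact dvd_sub (dvd_add (Dvd.dvd.mul_right e1 _) (Dvd.dvd.mul_right e2 _)) e3
  exact (IsUnit.dvd_mul_left (isUnit_qf hp n)).1 h2

lemma sum_range_int (m : ℕ) (g : ℤ → R⟦X⟧) :
    ∑ r ∈ range (2 * m + 1), g ((r : ℤ) - m) = ∑ k ∈ Icc (-(m : ℤ)) m, g k := by
  apply sum_bij (fun (r : ℕ) _ => (r : ℤ) - m)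
  · intro r hr
    have := mem_range.1 hr
    rw [mem_Icc]
    constructor <;> omega
  · intro r hr r' hr' h
    omega
  · intro k hk
    rw [mem_Icc] at hk
    refine ⟨(k + m).toNat, ?_, ?_⟩
    · rw [mem_range]; omega
    · omega
  · intro r hr
    rfl

/-- The Jacobi triple product identity, in approximate form. -/
lemma jtp_dvd {a b : R⟦X⟧} (ha : X ∣ a) (hb : X ∣ b) (M : ℕ) :
    (X : R⟦X⟧) ^ M ∣ IP (fun i => 1 - (a * b) ^ (i + 1)) *
      IP (fun i => (1 + a * (a * b) ^ i) * (1 + b * (a * b) ^ i)) -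
      ∑ k ∈ Icc (-(M : ℤ)) M, th a b k := by
  have hp : (X : R⟦X⟧) ∣ a * b := Dvd.dvd.mul_right ha b
  have adm1 : Adm (fun i => 1 - (a * b) ^ (i + 1)) :=
    adm_one_sub (fun i => pow_dvd_pow_of_dvd hp _)
  have adm2 : Adm (fun i => (1 + a * (a * b) ^ i) * (1 + b * (a * b) ^ i)) := by
    apply Adm.mul
    · apply adm_one_add
      intro i
      rw [pow_succ, mul_comm]
      exact mul_dvd_mul ha (pow_dvd_pow_of_dvd hp _)
    · apply adm_one_add
      intro i
      rw [pow_succ, mul_comm]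
      exact mul_dvd_mul hb (pow_dvd_pow_of_dvd hp _)
  set m := 2 * M with hm
  have h1 : (X : R⟦X⟧) ^ M ∣ IP (fun i => 1 - (a * b) ^ (i + 1)) - qf (a * b) m :=
    IP_sub_dvd' adm1 (by omega)
  have h2 : (X : R⟦X⟧) ^ M ∣ IP (fun i => (1 + a * (a * b) ^ i) * (1 + b * (a * b) ^ i)) -
      ∏ i ∈ range m, ((1 + a * (a * b) ^ i) * (1 + b * (a * b) ^ i)) :=
    IP_sub_dvd' adm2 (by omega)
  have h3 := dvd_mul_sub_mul h1 h2
  rw [finite_jtp, mul_sum] at h3
  have h4 : (X : R⟦X⟧) ^ M ∣ ∑ r ∈ range (2 * m + 1), qf (a * b) m *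
      (gb (a * b) (2 * m) r * th a b ((r : ℤ) - m)) - ∑ k ∈ Icc (-(M : ℤ)) M, th a b k := by
    have h5 : ∑ r ∈ range (2 * m + 1), qf (a * b) m *
        (gb (a * b) (2 * m) r * th a b ((r : ℤ) - m)) =
        ∑ k ∈ Icc (-(m : ℤ)) m, qf (a * b) m *
          (gb (a * b) (2 * m) (k + m).toNat * th a b k) := by
      rw [← sum_range_int m (fun k => qf (a * b) m *
          (gb (a * b) (2 * m) (k + m).toNat * th a b k))]
      apply sum_congr rfl
      intro r _
      have : ((r : ℤ) - m + m).toNat = r := by omega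
      rw [this]
    rw [h5]
    have hsub : Icc (-(M : ℤ)) M ⊆ Icc (-(m : ℤ)) m := by
      apply Icc_subset_Icc <;> omega
    rw [← sum_sdiff hsub, add_sub_assoc, ← sum_sub_distrib]
    apply dvd_add
    · apply dvd_sum
      intro k hk
      rw [mem_sdiff, mem_Icc, mem_Icc] at hk
      apply Dvd.dvd.mul_left
      apply Dvd.dvd.mul_left
      apply X_pow_dvd_th ha hb
      omega
    · apply dvd_sum
      intro k hk
      rw [mem_Icc] at hk
      have e1 := X_pow_dvd_qf_mul_gb hp M (k + m).toNat (m - k).toNat (by omega) (by omega)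
        m (by omega)
      have e2 : (k + m).toNat + (m - k).toNat = 2 * m := by omega
      rw [e2] at e1
      have e3 : qf (a * b) m * (gb (a * b) (2 * m) (k + m).toNat * th a b k) - th a b k =
        (qf (a * b) m * gb (a * b) (2 * m) (k + m).toNat - 1) * th a b k := by ring
      rw [e3]
      exact Dvd.dvd.mul_right e1 _
  have := dvd_add h3 h4
  simpa using this

end Limit

end Pool.Agent.Lib97
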