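import Mathlib
import Pool.Agent.Lib_helper97.JTP

set_option autoImplicit false

/-!
# Theta series and eta quotients as formal power series
-/

open PowerSeries Finset

namespace Pool.Agent.Lib97

section Subst

variable {R : Type*} [CommRing R]

/-- The substitution `q ↦ q ^ k`. -/
noncomputable def sg (k : ℕ) [NeZero k] : R⟦X⟧ →+* R⟦X⟧ :=
  (PowerSeries.expand k (NeZero.ne k) : R⟦X⟧ →ₐ[R] R⟦X⟧).toRingHom

lemma coeff_sg (k : ℕ) [NeZero k] (g : R⟦X⟧) (n : ℕ) :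
    coeff n (sg k g) = if k ∣ n then coeff (n / k) g else 0 := by
  have : sg k g = PowerSeries.expand k (NeZero.ne k) g := rfl
  rw [this, PowerSeries.coeff_expand]

lemma coeff_sg_mul (k : ℕ) [NeZero k] (g : R⟦X⟧) (n : ℕ) :
    coeff (k * n) (sg k g) = coeff n g := by
  rw [coeff_sg, if_pos (dvd_mul_right k n), Nat.mul_div_cancel_left n (Nat.pos_of_neZero k)]

lemma sg_X (k : ℕ) [NeZero k] : sg k (X : R⟦X⟧) = X ^ k :=
  PowerSeries.expand_X k (NeZero.ne k)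

lemma X_dvd_sg_X (k : ℕ) [NeZero k] : (X : R⟦X⟧) ∣ sg k (X : R⟦X⟧) := by
  rw [sg_X]
  exact dvd_pow_self X (NeZero.ne k)

lemma sg_sg (k l m : ℕ) [NeZero k] [NeZero l] [NeZero m] (h : k * l = m) (g : R⟦X⟧) :
    sg k (sg l g) = sg m g := by
  ext n
  rw [coeff_sg, coeff_sg]
  subst h
  by_cases hk : k ∣ n
  · rw [if_pos hk, coeff_sg]
    obtain ⟨d, rfl⟩ := hk
    rw [Nat.mul_div_cancel_left d (Nat.pos_of_neZero k)]
    by_cases hl : l ∣ d
    · rw [if_pos hl, if_pos (Nat.mul_dvd_mul_left k hl), Nat.mul_div_mul_left _ _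
        (Nat.pos_of_neZero k)]
    · rw [if_neg hl, if_neg]
      intro hc
      exact hl (Nat.dvd_of_mul_dvd_mul_left (Nat.pos_of_neZero k) hc)
  · rw [if_neg hk, coeff_sg, if_neg]
    intro hc
    exact hk ((dvd_mul_right k l).trans hc)

lemma sg_injective (k : ℕ) [NeZero k] : Function.Injective (sg k : R⟦X⟧ → R⟦X⟧) := by
  intro g h hgh
  ext n
  rw [← coeff_sg_mul k g, ← coeff_sg_mul k h, hgh]

lemma rescale_X' (u : R) : rescale u (X : R⟦X⟧) = C u * X := by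
  ext n
  rw [coeff_rescale, coeff_C_mul, coeff_X]
  split_ifs with h
  · subst h; simp
  · simp

lemma X_dvd_rescale_X (u : R) : (X : R⟦X⟧) ∣ rescale u (X : R⟦X⟧) := by
  rw [rescale_X']
  exact dvd_mul_left X _

end Subst

section Products

variable {R : Type*} [CommRing R]

variable (R) in
/-- `f1 = ∏ (1 - q ^ n)`. -/
noncomputable def f1 : R⟦X⟧ := IP (fun i => 1 - X ^ (i + 1))

variable (R) in
/-- `oo = ∏ (1 - q ^ (2 n + 1))`. -/
noncomputable def oo : R⟦X⟧ := IP (fun i => 1 - X ^ (2 * i + 1))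

variable (R) in
/-- `op = ∏ (1 + q ^ (2 n + 1))`. -/
noncomputable def op : R⟦X⟧ := IP (fun i => 1 + X ^ (2 * i + 1))

variable (R) in
/-- `e1 = ∏ (1 + q ^ n)`. -/
noncomputable def e1 : R⟦X⟧ := IP (fun i => 1 + X ^ (i + 1))

lemma adm_sub_pow (e : ℕ → ℕ) (he : ∀ i, i + 1 ≤ e i) :
    Adm (fun i => (1 : R⟦X⟧) - X ^ (e i)) :=
  adm_one_sub (fun i => pow_dvd_pow _ (he i))

lemma adm_add_pow (e : ℕ → ℕ) (he : ∀ i, i + 1 ≤ e i) :
    Adm (fun i => (1 : R⟦X⟧) + X ^ (e i)) :=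
  adm_one_add (fun i => pow_dvd_pow _ (he i))

lemma adm_f1 : Adm (fun i => (1 : R⟦X⟧) - X ^ (i + 1)) := adm_sub_pow (fun i => i + 1) (fun _ => le_rfl)

lemma adm_e1 : Adm (fun i => (1 : R⟦X⟧) + X ^ (i + 1)) := adm_add_pow (fun i => i + 1) (fun _ => le_rfl)

lemma adm_oo : Adm (fun i => (1 : R⟦X⟧) - X ^ (2 * i + 1)) :=
  adm_sub_pow (fun i => 2 * i + 1) (fun i => by omega)

lemma adm_op : Adm (fun i => (1 : R⟦X⟧) + X ^ (2 * i + 1)) :=
  adm_add_pow (fun i => 2 * i + 1) (fun i => by omega)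

lemma sg_f1 (k : ℕ) [NeZero k] : sg k (f1 R) = IP (fun i => 1 - X ^ (k * (i + 1))) := by
  rw [f1, map_IP _ (X_dvd_sg_X k) adm_f1]
  congr 1
  funext i
  rw [map_sub, map_one, map_pow, sg_X, ← pow_mul]

lemma sg_e1 (k : ℕ) [NeZero k] : sg k (e1 R) = IP (fun i => 1 + X ^ (k * (i + 1))) := by
  rw [e1, map_IP _ (X_dvd_sg_X k) adm_e1]
  congr 1
  funext i
  rw [map_add, map_one, map_pow, sg_X, ← pow_mul]

lemma sg_oo (k : ℕ) [NeZero k] : sg k (oo R) = IP (fun i => 1 - X ^ (k * (2 * i + 1))) := by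
  rw [oo, map_IP _ (X_dvd_sg_X k) adm_oo]
  congr 1
  funext i
  rw [map_sub, map_one, map_pow, sg_X, ← pow_mul]

lemma adm_k (k : ℕ) [NeZero k] : Adm (fun i => (1 : R⟦X⟧) - X ^ (k * (i + 1))) :=
  adm_sub_pow (fun i => k * (i + 1)) (fun _ => Nat.le_mul_of_pos_left _ (Nat.pos_of_neZero k))

lemma f1_eq : f1 R = oo R * sg 2 (f1 R) := by
  rw [sg_f1, oo, IP_mul adm_oo (adm_k 2), f1, IP_group adm_f1 2 (by norm_num)]
  congr 1
  funext i
  rw [prod_range_succ, prod_range_one]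
  ring_nf

lemma oo_mul_op : oo R * op R = sg 2 (oo R) := by
  rw [sg_oo, oo, op, IP_mul adm_oo adm_op]
  congr 1
  funext i
  ring_nf

lemma f1_mul_e1 : f1 R * e1 R = sg 2 (f1 R) := by
  rw [sg_f1, f1, e1, IP_mul adm_f1 adm_e1]
  congr 1
  funext i
  ring_nf

lemma iota_oo : rescale (-1 : R) (oo R) = op R := by
  rw [oo, map_IP _ (X_dvd_rescale_X _) adm_oo, op]
  congr 1
  funext i
  rw [map_sub, map_one, map_pow, rescale_X']
  have : (C (-1 : R) : R⟦X⟧) = -1 := by simp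
  rw [this, mul_pow, Odd.neg_one_pow ⟨i, rfl⟩]
  ring

lemma iota_sg (k : ℕ) [NeZero k] (hk : Even k) (g : R⟦X⟧) :
    rescale (-1 : R) (sg k g) = sg k g := by
  ext n
  rw [coeff_rescale, coeff_sg]
  split_ifs with h
  · obtain ⟨d, rfl⟩ := h
    rw [Even.neg_one_pow (hk.mul_right d), one_mul]
  · simp

lemma iota_sg_odd (k : ℕ) [NeZero k] (hk : Odd k) (g : R⟦X⟧) :
    rescale (-1 : R) (sg k g) = sg k (rescale (-1 : R) g) := by
  ext n
  rw [coeff_rescale, coeff_sg, coeff_sg]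
  split_ifs with h
  · obtain ⟨d, rfl⟩ := h
    rw [coeff_rescale, Nat.mul_div_cancel_left d (Nat.pos_of_neZero k)]
    congr 1
    rcases Nat.even_or_odd d with hd | hd
    · rw [Even.neg_one_pow (hd.mul_left k), Even.neg_one_pow hd]
    · rw [Odd.neg_one_pow (hk.mul hd), Odd.neg_one_pow hd]
  · simp

lemma iota_f1 : rescale (-1 : R) (f1 R) * f1 R * sg 4 (f1 R) = sg 2 (f1 R) ^ 3 := by
  have h1 : rescale (-1 : R) (f1 R) = op R * sg 2 (f1 R) := by
    conv_lhs => rw [f1_eq]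
    rw [map_mul, iota_oo, iota_sg 2 (by decide)]
  have h2 : sg 2 (f1 R) = sg 2 (oo R) * sg 4 (f1 R) := by
    conv_lhs => rw [f1_eq]
    rw [map_mul, sg_sg 2 2 4 (by norm_num)]
  rw [h1]
  calc op R * sg 2 (f1 R) * f1 R * sg 4 (f1 R)
      = op R * sg 2 (f1 R) * (oo R * sg 2 (f1 R)) * sg 4 (f1 R) := by rw [← f1_eq]
    _ = (oo R * op R) * sg 4 (f1 R) * sg 2 (f1 R) ^ 2 := by ring
    _ = (sg 2 (oo R) * sg 4 (f1 R)) * sg 2 (f1 R) ^ 2 := by rw [oo_mul_op]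
    _ = sg 2 (f1 R) ^ 3 := by rw [← h2]; ring

end Products

/-! ## Explicit theta series -/

section Series

/-- `φ(-q) = ∑ (-1)^k q^(k^2)`. -/
noncomputable def ser_c : ℤ⟦X⟧ :=
  PowerSeries.mk (fun n => if n = 0 then 1 else if IsSquare n then 2 * (-1) ^ n else 0)

/-- `ψ(q) = ∑ q^(k(k+1)/2)`. -/
noncomputable def ser_psi : ℤ⟦X⟧ :=
  PowerSeries.mk (fun n => if IsSquare (8 * n + 1) then 1 else 0)

/-- `P(q) = ∑ q^(k(3k+1)/2)`, over all integers `k`. -/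
noncomputable def ser_P : ℤ⟦X⟧ :=
  PowerSeries.mk (fun n => if IsSquare (24 * n + 1) then 1 else 0)

lemma coeff_sum_pow (M : ℕ) (e : ℤ → ℕ) (u : ℤ → ℤ) (n : ℕ) :
    coeff n (∑ k ∈ Icc (-(M : ℤ)) M, (C (u k) : ℤ⟦X⟧) * X ^ (e k)) =
      ∑ k ∈ (Icc (-(M : ℤ)) M).filter (fun k => e k = n), u k := by
  rw [map_sum, sum_filter]
  apply sum_congr rfl
  intro k _
  rw [coeff_C_mul, coeff_X_pow]
  split_ifs with h1 h2 h2
  · simp
  · exact absurd h1.symm h2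
  · exact absurd h2.symm h1
  · simp

lemma ser_c_prod : ser_c = sg 2 (f1 ℤ) * oo ℤ ^ 2 := by
  have hX : (X : ℤ⟦X⟧) ∣ -X := by simp
  have hab : (-X : ℤ⟦X⟧) * -X = X ^ 2 := by ring
  have h1 : sg 2 (f1 ℤ) * oo ℤ ^ 2 = IP (fun i => 1 - ((-X : ℤ⟦X⟧) * -X) ^ (i + 1)) *
      IP (fun i => (1 + -X * ((-X : ℤ⟦X⟧) * -X) ^ i) * (1 + -X * ((-X : ℤ⟦X⟧) * -X) ^ i)) := by
    rw [sg_f1, sq, oo, IP_mul adm_oo adm_oo]
    congr 2
    · funext i
      rw [hab, ← pow_mul]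
    · funext i
      rw [hab, ← pow_mul]
      ring
  rw [h1]
  apply eq_of_forall_dvd
  intro M
  have h2 := jtp_dvd hX hX M
  have h3 : (X : ℤ⟦X⟧) ^ M ∣ ser_c - ∑ k ∈ Icc (-(M : ℤ)) M, th (-X : ℤ⟦X⟧) (-X) k := by
    rw [X_pow_dvd_sub_iff]
    intro n hn
    have h4 : ∑ k ∈ Icc (-(M : ℤ)) M, th (-X : ℤ⟦X⟧) (-X) k =
        ∑ k ∈ Icc (-(M : ℤ)) M, (C ((-1) ^ (tri k + tri (-k)) : ℤ) : ℤ⟦X⟧) *
          X ^ (tri k + tri (-k)) := by
      apply sum_congr rfl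
      intro k _
      rw [th, ← pow_add, map_pow, neg_pow]
      congr 1
      simp
    rw [h4, coeff_sum_pow, ser_c, coeff_mk]
    have hfil : ∀ k : ℤ, tri k + tri (-k) = n ↔ k ^ 2 = n := by
      intro k
      rw [← tri_add]
      exact_mod_cast Iff.rfl
    split_ifs with h5 h6
    · subst h5
      have : (Icc (-(M : ℤ)) M).filter (fun k => tri k + tri (-k) = 0) = {0} := by
        ext k
        rw [mem_filter, mem_Icc, mem_singleton, hfil]
        constructor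
        · rintro ⟨_, h⟩
          simpa using h
        · rintro rfl
          exact ⟨by omega, by simp⟩
      rw [this, sum_singleton]
      have : tri 0 + tri (-0) = 0 := (hfil 0).2 (by simp)
      rw [this]
      simp
    · obtain ⟨y, hy⟩ := h6
      have hy0 : y ≠ 0 := by
        rintro rfl
        exact h5 (by simpa using hy)
      have : (Icc (-(M : ℤ)) M).filter (fun k => tri k + tri (-k) = n) = {(y : ℤ), -(y : ℤ)} := by
        ext k
        rw [mem_filter, mem_Icc, mem_insert, mem_singleton, hfil]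
        have hyM : y ≤ M := by nlinarith [Nat.pos_of_ne_zero hy0]
        constructor
        · rintro ⟨_, h⟩
          have h7 : k ^ 2 = (y : ℤ) ^ 2 := by
            rw [h, hy]; push_cast; ring
          exact sq_eq_sq_iff_eq_or_eq_neg.1 h7
        · rintro (rfl | rfl)
          · exact ⟨by omega, by rw [hy]; push_cast; ring⟩
          · exact ⟨by omega, by rw [hy]; push_cast; ring⟩
      rw [this, sum_pair (by omega)]
      have e1 : tri (y : ℤ) + tri (-(y : ℤ)) = n := (hfil _).2 (by rw [hy]; push_cast; ring)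
      have e2 : tri (-(y : ℤ)) + tri (-(-(y : ℤ))) = n :=
        (hfil _).2 (by rw [hy]; push_cast; ring)
      rw [e1, e2]
      ring
    · have : (Icc (-(M : ℤ)) M).filter (fun k => tri k + tri (-k) = n) = ∅ := by
        rw [filter_eq_empty_iff]
        intro k _ hk
        rw [hfil] at hk
        apply h6
        refine ⟨k.natAbs, ?_⟩
        have : (n : ℤ) = (k.natAbs : ℤ) * k.natAbs := by
          rw [← hk, ← Int.natAbs_sq k]; ring
        exact_mod_cast this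
      rw [this, sum_empty]
  have := dvd_sub h3 h2
  simpa using this

/-- `φ(-q) f₂ = f₁²`. -/
lemma ser_c_mul : ser_c * sg 2 (f1 ℤ) = f1 ℤ ^ 2 := by
  rw [ser_c_prod]
  conv_rhs => rw [f1_eq]
  ring

end Series

section Series2

lemma ser_psi_prod : ser_psi = sg 4 (f1 ℤ) * op ℤ := by
  have hX : (X : ℤ⟦X⟧) ∣ X := dvd_rfl
  have hX3 : (X : ℤ⟦X⟧) ∣ X ^ 3 := dvd_pow_self X (by norm_num)
  have hab : (X : ℤ⟦X⟧) * X ^ 3 = X ^ 4 := by ring
  have h1 : sg 4 (f1 ℤ) * op ℤ = IP (fun i => 1 - ((X : ℤ⟦X⟧) * X ^ 3) ^ (i + 1)) *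
      IP (fun i => (1 + X * ((X : ℤ⟦X⟧) * X ^ 3) ^ i) *
        (1 + X ^ 3 * ((X : ℤ⟦X⟧) * X ^ 3) ^ i)) := by
    rw [sg_f1, op, IP_group adm_op 2 (by norm_num)]
    congr 2
    · funext i
      rw [hab, ← pow_mul]
    · funext i
      rw [hab, ← pow_mul, prod_range_succ, prod_range_one]
      ring_nf
  rw [h1]
  apply eq_of_forall_dvd
  intro M
  have h2 := jtp_dvd hX hX3 M
  have h3 : (X : ℤ⟦X⟧) ^ M ∣ ser_psi - ∑ k ∈ Icc (-(M : ℤ)) M, th (X : ℤ⟦X⟧) (X ^ 3) k := by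
    rw [X_pow_dvd_sub_iff]
    intro n hn
    have h4 : ∑ k ∈ Icc (-(M : ℤ)) M, th (X : ℤ⟦X⟧) (X ^ 3) k =
        ∑ k ∈ Icc (-(M : ℤ)) M, (C (1 : ℤ) : ℤ⟦X⟧) * X ^ (tri k + 3 * tri (-k)) := by
      apply sum_congr rfl
      intro k _
      rw [th, ← pow_mul, ← pow_add, map_one, one_mul]
    rw [h4, coeff_sum_pow, ser_psi, coeff_mk]
    have hfil : ∀ k : ℤ, tri k + 3 * tri (-k) = n ↔ (4 * k - 1) ^ 2 = 8 * n + 1 := by
      intro k
      have e1 := two_tri k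
      have e2 := two_tri (-k)
      constructor
      · intro h
        rw [← h]; push_cast; nlinarith
      · intro h
        have : ((tri k + 3 * tri (-k) : ℕ) : ℤ) = n := by push_cast; nlinarith
        exact_mod_cast this
    split_ifs with h6
    · obtain ⟨y, hy⟩ := h6
      have hyZ : (y : ℤ) ^ 2 = 8 * n + 1 := by
        have : ((8 * n + 1 : ℕ) : ℤ) = (y : ℤ) * y := by rw [hy]; push_cast; ring
        push_cast at this
        rw [this]; ring
      have hyM : (y : ℤ) < 4 * M + 1 := by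
        have : (n : ℤ) < M := by exact_mod_cast hn
        nlinarith
      obtain ⟨k₀, hk₀, hk₀'⟩ : ∃ k₀ : ℤ, (4 * k₀ - 1 = y ∨ 4 * k₀ - 1 = -y) ∧
          k₀ ∈ Icc (-(M : ℤ)) M := by
        have hmod : (y : ℤ) % 4 = 1 ∨ (y : ℤ) % 4 = 3 := by
          have h7 : (y : ℤ) % 4 = 0 ∨ (y : ℤ) % 4 = 1 ∨ (y : ℤ) % 4 = 2 ∨ (y : ℤ) % 4 = 3 := by
            omega
          rcases h7 with h | h | h | h
          · exfalso
            obtain ⟨d, hd⟩ : ∃ d : ℤ, (y : ℤ) = 4 * d := ⟨y / 4, by omega⟩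
            rw [hd] at hyZ
            have : 8 * (2 * d ^ 2 - n) = 1 := by linarith
            omega
          · left; exact h
          · exfalso
            obtain ⟨d, hd⟩ : ∃ d : ℤ, (y : ℤ) = 4 * d + 2 := ⟨y / 4, by omega⟩
            rw [hd] at hyZ
            have : 4 * (4 * d ^ 2 + 4 * d + 1 - 2 * n) = 1 := by linarith
            omega
          · right; exact h
        rcases hmod with h | h
        · refine ⟨(1 - y) / 4, Or.inr (by omega), ?_⟩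
          rw [mem_Icc]; constructor <;> omega
        · refine ⟨(1 + y) / 4, Or.inl (by omega), ?_⟩
          rw [mem_Icc]; constructor <;> omega
      have hfin : (Icc (-(M : ℤ)) M).filter (fun k => tri k + 3 * tri (-k) = n) = {k₀} := by
        ext k
        rw [mem_filter, mem_singleton, hfil, ← hyZ]
        constructor
        · rintro ⟨_, h⟩
          rcases sq_eq_sq_iff_eq_or_eq_neg.1 h with h7 | h7 <;> rcases hk₀ with h8 | h8 <;> omega
        · rintro rfl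
          refine ⟨hk₀', ?_⟩
          rcases hk₀ with h8 | h8 <;> rw [h8] <;> ring
      rw [hfin, sum_singleton]
    · have : (Icc (-(M : ℤ)) M).filter (fun k => tri k + 3 * tri (-k) = n) = ∅ := by
        rw [filter_eq_empty_iff]
        intro k _ hk
        rw [hfil] at hk
        apply h6
        refine ⟨(4 * k - 1).natAbs, ?_⟩
        have : ((8 * n + 1 : ℕ) : ℤ) = ((4 * k - 1).natAbs : ℤ) * (4 * k - 1).natAbs := by
          push_cast
          rw [← hk, ← Int.natAbs_sq (4 * k - 1)]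
          push_cast
          ring
        exact_mod_cast this
      rw [this, sum_empty]
  have := dvd_sub h3 h2
  simpa using this

lemma sg2_f1 : sg 2 (f1 ℤ) = sg 2 (oo ℤ) * sg 4 (f1 ℤ) := by
  conv_lhs => rw [f1_eq]
  rw [map_mul, sg_sg 2 2 4 (by norm_num)]

/-- `ψ(q) f₁ = f₂²`. -/
lemma ser_psi_mul : ser_psi * f1 ℤ = sg 2 (f1 ℤ) ^ 2 := by
  rw [ser_psi_prod]
  calc sg 4 (f1 ℤ) * op ℤ * f1 ℤ = sg 4 (f1 ℤ) * op ℤ * (oo ℤ * sg 2 (f1 ℤ)) := by rw [← f1_eq]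
    _ = ((oo ℤ * op ℤ) * sg 4 (f1 ℤ)) * sg 2 (f1 ℤ) := by ring
    _ = (sg 2 (oo ℤ) * sg 4 (f1 ℤ)) * sg 2 (f1 ℤ) := by rw [oo_mul_op]
    _ = sg 2 (f1 ℤ) ^ 2 := by rw [← sg2_f1]; ring

/-- `∏ (1 + q ^ (3n+1)) (1 + q ^ (3n+2))`. -/
noncomputable def hh : ℤ⟦X⟧ :=
  IP (fun i => (1 + X ^ 2 * (X ^ 3) ^ i) * (1 + X * (X ^ 3) ^ i))

lemma adm_hh : Adm (fun i => (1 + (X : ℤ⟦X⟧) ^ 2 * (X ^ 3) ^ i) * (1 + X * (X ^ 3) ^ i)) := by
  have h1 : Adm (fun i => (1 : ℤ⟦X⟧) + X ^ (2 + 3 * i)) :=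
    adm_add_pow (fun i => 2 + 3 * i) (fun i => by omega)
  have h2 : Adm (fun i => (1 : ℤ⟦X⟧) + X ^ (1 + 3 * i)) :=
    adm_add_pow (fun i => 1 + 3 * i) (fun i => by omega)
  have h3 := h1.mul h2
  intro i
  have h4 := h3 i
  have e1 : (X : ℤ⟦X⟧) ^ 2 * (X ^ 3) ^ i = X ^ (2 + 3 * i) := by rw [pow_add, pow_mul]
  have e2 : (X : ℤ⟦X⟧) * (X ^ 3) ^ i = X ^ (1 + 3 * i) := by rw [pow_add, pow_mul, pow_one]
  simp only [e1, e2]
  exact h4

lemma ser_P_prod : ser_P = sg 3 (f1 ℤ) * hh := by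
  have hX : (X : ℤ⟦X⟧) ∣ X := dvd_rfl
  have hX2 : (X : ℤ⟦X⟧) ∣ X ^ 2 := dvd_pow_self X (by norm_num)
  have hab : (X : ℤ⟦X⟧) ^ 2 * X = X ^ 3 := by ring
  have h1 : sg 3 (f1 ℤ) * hh = IP (fun i => 1 - ((X : ℤ⟦X⟧) ^ 2 * X) ^ (i + 1)) *
      IP (fun i => (1 + X ^ 2 * ((X : ℤ⟦X⟧) ^ 2 * X) ^ i) *
        (1 + X * ((X : ℤ⟦X⟧) ^ 2 * X) ^ i)) := by
    rw [sg_f1, hh]
    congr 2
    · funext i
      rw [hab, ← pow_mul]
  rw [h1]
  apply eq_of_forall_dvd
  intro M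
  have h2 := jtp_dvd hX2 hX M
  have h3 : (X : ℤ⟦X⟧) ^ M ∣ ser_P - ∑ k ∈ Icc (-(M : ℤ)) M, th (X ^ 2 : ℤ⟦X⟧) X k := by
    rw [X_pow_dvd_sub_iff]
    intro n hn
    have h4 : ∑ k ∈ Icc (-(M : ℤ)) M, th (X ^ 2 : ℤ⟦X⟧) X k =
        ∑ k ∈ Icc (-(M : ℤ)) M, (C (1 : ℤ) : ℤ⟦X⟧) * X ^ (2 * tri k + tri (-k)) := by
      apply sum_congr rfl
      intro k _
      rw [th, ← pow_mul, ← pow_add, map_one, one_mul]
    rw [h4, coeff_sum_pow, ser_P, coeff_mk]
    have hfil : ∀ k : ℤ, 2 * tri k + tri (-k) = n ↔ (6 * k + 1) ^ 2 = 24 * n + 1 := by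
      intro k
      have e1 := two_tri k
      have e2 := two_tri (-k)
      constructor
      · intro h
        rw [← h]; push_cast; nlinarith
      · intro h
        have : ((2 * tri k + tri (-k) : ℕ) : ℤ) = n := by push_cast; nlinarith
        exact_mod_cast this
    split_ifs with h6
    · obtain ⟨y, hy⟩ := h6
      have hyZ : (y : ℤ) ^ 2 = 24 * n + 1 := by
        have : ((24 * n + 1 : ℕ) : ℤ) = (y : ℤ) * y := by rw [hy]; push_cast; ring
        push_cast at this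
        rw [this]; ring
      have hyM : (y : ℤ) < 6 * M := by
        have : (n : ℤ) < M := by exact_mod_cast hn
        nlinarith
      obtain ⟨k₀, hk₀, hk₀'⟩ : ∃ k₀ : ℤ, (6 * k₀ + 1 = y ∨ 6 * k₀ + 1 = -y) ∧
          k₀ ∈ Icc (-(M : ℤ)) M := by
        have hmod : (y : ℤ) % 6 = 1 ∨ (y : ℤ) % 6 = 5 := by
          have h7 : (y : ℤ) % 6 = 0 ∨ (y : ℤ) % 6 = 1 ∨ (y : ℤ) % 6 = 2 ∨ (y : ℤ) % 6 = 3 ∨
            (y : ℤ) % 6 = 4 ∨ (y : ℤ) % 6 = 5 := by omega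
          have hd := Int.emod_add_mul_ediv (y : ℤ) 6
          set d := (y : ℤ) / 6 with hdd
          rcases h7 with h | h | h | h | h | h
          · exfalso
            rw [h] at hd
            rw [← hd] at hyZ
            have : 2 * (18 * d ^ 2 - 12 * n) = 1 := by linarith
            omega
          · left; exact h
          · exfalso
            rw [h] at hd
            rw [← hd] at hyZ
            have : 2 * (2 + 12 * d + 18 * d ^ 2 - 12 * n) = 1 := by linarith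
            omega
          · exfalso
            rw [h] at hd
            rw [← hd] at hyZ
            have : 3 * (3 + 12 * d + 12 * d ^ 2 - 8 * n) = 1 := by linarith
            omega
          · exfalso
            rw [h] at hd
            rw [← hd] at hyZ
            have : 2 * (8 + 24 * d + 18 * d ^ 2 - 12 * n) = 1 := by linarith
            omega
          · right; exact h
        rcases hmod with h | h
        · refine ⟨(y - 1) / 6, Or.inl (by omega), ?_⟩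
          rw [mem_Icc]; constructor <;> omega
        · refine ⟨(-y - 1) / 6, Or.inr (by omega), ?_⟩
          rw [mem_Icc]; constructor <;> omega
      have hfin : (Icc (-(M : ℤ)) M).filter (fun k => 2 * tri k + tri (-k) = n) = {k₀} := by
        ext k
        rw [mem_filter, mem_singleton, hfil, ← hyZ]
        constructor
        · rintro ⟨_, h⟩
          rcases sq_eq_sq_iff_eq_or_eq_neg.1 h with h7 | h7 <;> rcases hk₀ with h8 | h8 <;> omega
        · rintro rfl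
          refine ⟨hk₀', ?_⟩
          rcases hk₀ with h8 | h8 <;> rw [h8] <;> ring
      rw [hfin, sum_singleton]
    · have : (Icc (-(M : ℤ)) M).filter (fun k => 2 * tri k + tri (-k) = n) = ∅ := by
        rw [filter_eq_empty_iff]
        intro k _ hk
        rw [hfil] at hk
        apply h6
        refine ⟨(6 * k + 1).natAbs, ?_⟩
        have : ((24 * n + 1 : ℕ) : ℤ) = ((6 * k + 1).natAbs : ℤ) * (6 * k + 1).natAbs := by
          push_cast
          rw [← hk, ← Int.natAbs_sq (6 * k + 1)]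
          push_cast
          ring
        exact_mod_cast this
      rw [this, sum_empty]
  have := dvd_sub h3 h2
  simpa using this

lemma e1_eq : e1 ℤ = hh * sg 3 (e1 ℤ) := by
  rw [sg_e1, hh, IP_mul adm_hh (adm_add_pow (fun i => 3 * (i + 1)) (fun i => by omega)), e1,
    IP_group adm_e1 3 (by norm_num)]
  congr 1
  funext i
  rw [prod_range_succ, prod_range_succ, prod_range_one]
  ring_nf

/-- `P(q) f₁ f₆ = f₂ f₃²`. -/
lemma ser_P_mul : ser_P * f1 ℤ * sg 6 (f1 ℤ) = sg 2 (f1 ℤ) * sg 3 (f1 ℤ) ^ 2 := by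
  have h1 : sg 3 (f1 ℤ) * sg 3 (e1 ℤ) = sg 6 (f1 ℤ) := by
    rw [← map_mul, f1_mul_e1, sg_sg 3 2 6 (by norm_num)]
  rw [ser_P_prod, ← h1]
  calc sg 3 (f1 ℤ) * hh * f1 ℤ * (sg 3 (f1 ℤ) * sg 3 (e1 ℤ))
      = f1 ℤ * (hh * sg 3 (e1 ℤ)) * sg 3 (f1 ℤ) ^ 2 := by ring
    _ = f1 ℤ * e1 ℤ * sg 3 (f1 ℤ) ^ 2 := by rw [← e1_eq]
    _ = _ := by rw [f1_mul_e1]

end Series2

/-! ## The cubic norm -/

section Norm

variable {R : Type*} [CommRing R]

lemma rescale_sg_three (w : R) (hw : w ^ 3 = 1) (g : R⟦X⟧) :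
    rescale w (sg 3 g) = sg 3 g := by
  ext n
  rw [coeff_rescale, coeff_sg]
  split_ifs with h
  · obtain ⟨d, rfl⟩ := h
    rw [pow_mul, hw, one_pow, one_mul]
  · simp

/-- `∏ (1 - u q ^ (3n+1))`. -/
noncomputable def r1 (u : R) : R⟦X⟧ := IP (fun i => 1 - C u * X ^ (3 * i + 1))

/-- `∏ (1 - u q ^ (3n+2))`. -/
noncomputable def r2 (u : R) : R⟦X⟧ := IP (fun i => 1 - C u * X ^ (3 * i + 2))

lemma adm_r1 (u : R) : Adm (fun i => 1 - (C u : R⟦X⟧) * X ^ (3 * i + 1)) :=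
  adm_one_sub (fun i => Dvd.dvd.mul_left (pow_dvd_pow _ (by omega)) _)

lemma adm_r2 (u : R) : Adm (fun i => 1 - (C u : R⟦X⟧) * X ^ (3 * i + 2)) :=
  adm_one_sub (fun i => Dvd.dvd.mul_left (pow_dvd_pow _ (by omega)) _)

lemma f1_eq_three : f1 R = r1 1 * r2 1 * sg 3 (f1 R) := by
  rw [sg_f1, r1, r2, IP_mul (adm_r1 1) (adm_r2 1), IP_mul ((adm_r1 1).mul (adm_r2 1)) (adm_k 3),
    f1, IP_group adm_f1 3 (by norm_num)]
  congr 1
  funext i
  rw [prod_range_succ, prod_range_succ, prod_range_one, map_one]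
  ring_nf

lemma rescale_C' (w u : R) : rescale w (C u : R⟦X⟧) = C u := by
  ext n
  rw [coeff_rescale, coeff_C]
  split_ifs with h
  · subst h; simp
  · simp

lemma rescale_r1 (w u : R) (hw : w ^ 3 = 1) : rescale w (r1 u) = r1 (w * u) := by
  rw [r1, map_IP _ (X_dvd_rescale_X _) (adm_r1 u), r1]
  congr 1
  funext i
  rw [map_sub, map_one, map_mul, map_pow, rescale_X', rescale_C', mul_pow, ← map_pow, pow_add w,
    pow_mul, hw]
  simp only [one_pow, pow_one, map_mul, one_mul]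
  ring

lemma rescale_r2 (w u : R) (hw : w ^ 3 = 1) : rescale w (r2 u) = r2 (w ^ 2 * u) := by
  rw [r2, map_IP _ (X_dvd_rescale_X _) (adm_r2 u), r2]
  congr 1
  funext i
  rw [map_sub, map_one, map_mul, map_pow, rescale_X', rescale_C', mul_pow, ← map_pow, pow_add w,
    pow_mul, hw]
  simp only [one_pow, map_mul, one_mul]
  ring

lemma cubic (w : R) (hw : w ^ 2 + w + 1 = 0) (y : R⟦X⟧) :
    (1 - y) * (1 - C w * y) * (1 - C (w ^ 2) * y) = 1 - y ^ 3 := by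
  have h1 : (C w : R⟦X⟧) ^ 2 + C w + 1 = 0 := by
    rw [← map_pow, ← map_add, ← map_one (C (R := R)), ← map_add, hw, map_zero]
  rw [map_pow]
  linear_combination (-y + C w * y ^ 2 - (C w - 1) * y ^ 3) * h1

lemma norm_r1 (w : R) (hw : w ^ 2 + w + 1 = 0) :
    r1 1 * r1 w * r1 (w ^ 2) = sg 3 (r1 1) := by
  have h3 : sg 3 (r1 (1 : R)) = IP (fun i => 1 - X ^ (3 * (3 * i + 1))) := by
    rw [r1, map_IP _ (X_dvd_sg_X 3) (adm_r1 1)]
    congr 1
    funext i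
    rw [map_sub, map_one, map_mul, map_pow, sg_X, map_one, map_one, one_mul, ← pow_mul]
  rw [h3, r1, r1, r1, IP_mul (adm_r1 1) (adm_r1 w), IP_mul ((adm_r1 1).mul (adm_r1 w))
    (adm_r1 (w ^ 2))]
  congr 1
  funext i
  have := cubic w hw (X ^ (3 * i + 1))
  rw [map_one, one_mul, this, ← pow_mul]
  ring_nf

lemma norm_r2 (w : R) (hw : w ^ 2 + w + 1 = 0) :
    r2 1 * r2 w * r2 (w ^ 2) = sg 3 (r2 1) := by
  have h3 : sg 3 (r2 (1 : R)) = IP (fun i => 1 - X ^ (3 * (3 * i + 2))) := by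
    rw [r2, map_IP _ (X_dvd_sg_X 3) (adm_r2 1)]
    congr 1
    funext i
    rw [map_sub, map_one, map_mul, map_pow, sg_X, map_one, map_one, one_mul, ← pow_mul]
  rw [h3, r2, r2, r2, IP_mul (adm_r2 1) (adm_r2 w), IP_mul ((adm_r2 1).mul (adm_r2 w))
    (adm_r2 (w ^ 2))]
  congr 1
  funext i
  have := cubic w hw (X ^ (3 * i + 2))
  rw [map_one, one_mul, this, ← pow_mul]
  ring_nf

/-- The cubic norm of `f₁`. -/
lemma norm_f1 (w : R) (hw : w ^ 2 + w + 1 = 0) :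
    f1 R * rescale w (f1 R) * rescale (w ^ 2) (f1 R) * sg 9 (f1 R) = sg 3 (f1 R) ^ 4 := by
  have hw3 : w ^ 3 = 1 := by linear_combination (w - 1) * hw
  have hw6 : (w ^ 2) ^ 3 = 1 := by
    rw [← pow_mul]
    have : w ^ (2 * 3) = (w ^ 3) ^ 2 := by ring
    rw [this, hw3, one_pow]
  have h1 : rescale w (f1 R) = r1 w * r2 (w ^ 2) * sg 3 (f1 R) := by
    conv_lhs => rw [f1_eq_three]
    rw [map_mul, map_mul, rescale_r1 w 1 hw3, rescale_r2 w 1 hw3, rescale_sg_three w hw3,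
      mul_one, mul_one]
  have h2 : rescale (w ^ 2) (f1 R) = r1 (w ^ 2) * r2 w * sg 3 (f1 R) := by
    conv_lhs => rw [f1_eq_three]
    rw [map_mul, map_mul, rescale_r1 (w ^ 2) 1 hw6, rescale_r2 (w ^ 2) 1 hw6,
      rescale_sg_three (w ^ 2) hw6, mul_one, mul_one]
    have : (w ^ 2) ^ 2 = w := by
      have : (w ^ 2) ^ 2 = w ^ 3 * w := by ring
      rw [this, hw3, one_mul]
    rw [this]
  have h3 : sg 3 (f1 R) = sg 3 (r1 1) * sg 3 (r2 1) * sg 9 (f1 R) := by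
    conv_lhs => rw [f1_eq_three]
    rw [map_mul, map_mul, sg_sg 3 3 9 (by norm_num)]
  rw [h1, h2]
  calc f1 R * (r1 w * r2 (w ^ 2) * sg 3 (f1 R)) * (r1 (w ^ 2) * r2 w * sg 3 (f1 R))
        * sg 9 (f1 R)
      = (r1 1 * r2 1 * sg 3 (f1 R)) * (r1 w * r2 (w ^ 2) * sg 3 (f1 R)) *
        (r1 (w ^ 2) * r2 w * sg 3 (f1 R)) * sg 9 (f1 R) := by rw [← f1_eq_three]
    _ = ((r1 1 * r1 w * r1 (w ^ 2)) * (r2 1 * r2 w * r2 (w ^ 2)) * sg 9 (f1 R)) *
        sg 3 (f1 R) ^ 3 := by ring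
    _ = (sg 3 (r1 1) * sg 3 (r2 1) * sg 9 (f1 R)) * sg 3 (f1 R) ^ 3 := by
        rw [norm_r1 w hw, norm_r2 w hw]
    _ = sg 3 (f1 R) ^ 4 := by rw [← h3]; ring

end Norm

end Pool.Agent.Lib97
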