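import Mathlib
import Pool.Agent.Lib_helper97.Theta

set_option autoImplicit false

/-!
# Congruences for partitions with distinct even parts
-/

open PowerSeries Finset

namespace Pool.Agent.Lib97

/-! ## Components modulo three -/

section Three

variable {R : Type*} [CommRing R]

/-- The series of the coefficients with index `3 n + j`. -/
noncomputable def comp (j : ℕ) (u : R⟦X⟧) : R⟦X⟧ := PowerSeries.mk (fun n => coeff (3 * n + j) u)

lemma coeff_comp (j : ℕ) (u : R⟦X⟧) (n : ℕ) : coeff n (comp j u) = coeff (3 * n + j) u := by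
  rw [comp, coeff_mk]

lemma comp_add (j : ℕ) (u v : R⟦X⟧) : comp j (u + v) = comp j u + comp j v := by
  ext n
  simp [coeff_comp]

lemma comp_zero_sg (u : R⟦X⟧) : comp 0 (sg 3 u) = u := by
  ext n
  rw [coeff_comp, add_zero, coeff_sg_mul]

lemma comp_one_sg (u : R⟦X⟧) : comp 1 (sg 3 u) = 0 := by
  ext n
  rw [coeff_comp, coeff_sg, if_neg (by omega)]
  simp

lemma comp_two_sg (u : R⟦X⟧) : comp 2 (sg 3 u) = 0 := by
  ext n
  rw [coeff_comp, coeff_sg, if_neg (by omega)]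
  simp

lemma comp_zero_X (u : R⟦X⟧) : comp 0 (X * sg 3 u) = 0 := by
  ext n
  rw [coeff_comp]
  rcases n with _ | n
  · simp
  · have : 3 * (n + 1) + 0 = (3 * n + 2) + 1 := by ring
    rw [this, coeff_succ_X_mul, coeff_sg, if_neg (by omega)]
    simp

lemma comp_one_X (u : R⟦X⟧) : comp 1 (X * sg 3 u) = u := by
  ext n
  rw [coeff_comp, coeff_succ_X_mul, coeff_sg_mul]

lemma comp_two_X (u : R⟦X⟧) : comp 2 (X * sg 3 u) = 0 := by
  ext n
  have : 3 * n + 2 = (3 * n + 1) + 1 := by ring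
  rw [coeff_comp, this, coeff_succ_X_mul, coeff_sg, if_neg (by omega)]
  simp

lemma comp_zero_X2 (u : R⟦X⟧) : comp 0 (X ^ 2 * sg 3 u) = 0 := by
  ext n
  have h : (X : R⟦X⟧) ^ 2 * sg 3 u = X * (X * sg 3 u) := by ring
  rw [coeff_comp, h]
  rcases n with _ | n
  · simp
  · have : 3 * (n + 1) + 0 = (3 * n + 1 + 1) + 1 := by ring
    rw [this, coeff_succ_X_mul, coeff_succ_X_mul, coeff_sg, if_neg (by omega)]
    simp

lemma comp_one_X2 (u : R⟦X⟧) : comp 1 (X ^ 2 * sg 3 u) = 0 := by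
  ext n
  have h : (X : R⟦X⟧) ^ 2 * sg 3 u = X * (X * sg 3 u) := by ring
  rw [coeff_comp, h]
  rcases n with _ | n
  · simp
  · have : 3 * (n + 1) + 1 = (3 * n + 2 + 1) + 1 := by ring
    rw [this, coeff_succ_X_mul, coeff_succ_X_mul, coeff_sg, if_neg (by omega)]
    simp

lemma comp_two_X2 (u : R⟦X⟧) : comp 2 (X ^ 2 * sg 3 u) = u := by
  ext n
  have h : (X : R⟦X⟧) ^ 2 * sg 3 u = X * (X * sg 3 u) := by ring
  have : 3 * n + 2 = (3 * n + 1) + 1 := by ring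
  rw [coeff_comp, h, this, coeff_succ_X_mul, coeff_succ_X_mul, coeff_sg_mul]

/-- The series with components `u`, `v`, `w`. -/
noncomputable def tri3 (u v w : R⟦X⟧) : R⟦X⟧ := sg 3 u + X * sg 3 v + X ^ 2 * sg 3 w

lemma tri3_inj {u v w u' v' w' : R⟦X⟧} (h : tri3 u v w = tri3 u' v' w') :
    u = u' ∧ v = v' ∧ w = w' := by
  unfold tri3 at h
  refine ⟨?_, ?_, ?_⟩
  · have := congrArg (comp 0) h
    simpa only [comp_add, comp_zero_sg, comp_zero_X, comp_zero_X2, add_zero] using this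
  · have := congrArg (comp 1) h
    simpa only [comp_add, comp_one_sg, comp_one_X, comp_one_X2, add_zero, zero_add] using this
  · have := congrArg (comp 2) h
    simpa only [comp_add, comp_two_sg, comp_two_X, comp_two_X2, add_zero, zero_add] using this

lemma tri3_comp (u : R⟦X⟧) : tri3 (comp 0 u) (comp 1 u) (comp 2 u) = u := by
  ext n
  have h2 : (X : R⟦X⟧) ^ 2 * sg 3 (comp 2 u) = X * (X * sg 3 (comp 2 u)) := by ring
  rw [tri3, h2, map_add, map_add]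
  have hn : n % 3 = 0 ∨ n % 3 = 1 ∨ n % 3 = 2 := by omega
  rcases hn with h | h | h
  · obtain ⟨m, rfl⟩ : ∃ m, n = 3 * m := ⟨n / 3, by omega⟩
    rw [coeff_sg_mul, coeff_comp]
    rcases m with _ | m
    · simp
    · have : 3 * (m + 1) = (3 * m + 1 + 1) + 1 := by ring
      rw [this, coeff_succ_X_mul, coeff_succ_X_mul, coeff_succ_X_mul, coeff_sg, coeff_sg,
        if_neg (by omega), if_neg (by omega)]
      simp
  · obtain ⟨m, rfl⟩ : ∃ m, n = 3 * m + 1 := ⟨n / 3, by omega⟩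
    rw [coeff_succ_X_mul, coeff_succ_X_mul, coeff_sg_mul, coeff_comp, coeff_sg,
      if_neg (by omega)]
    rcases m with _ | m
    · simp
    · have : 3 * (m + 1) = (3 * m + 2) + 1 := by ring
      rw [this, coeff_succ_X_mul, coeff_sg, if_neg (by omega)]
      simp
  · obtain ⟨m, rfl⟩ : ∃ m, n = 3 * m + 1 + 1 := ⟨n / 3, by omega⟩
    rw [coeff_succ_X_mul, coeff_succ_X_mul, coeff_succ_X_mul, coeff_sg_mul, coeff_comp, coeff_sg,
      coeff_sg, if_neg (by omega), if_neg (by omega)]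
    simp

lemma mul_tri3 (n u v w : R⟦X⟧) : tri3 u v w * sg 3 n = tri3 (u * n) (v * n) (w * n) := by
  unfold tri3
  simp only [map_mul]
  ring

end Three

/-! ## The theta functions -/

section Thetas

/-- `b = ∑ (-1)^k q^(3k^2+2k)`. -/
noncomputable def ser_b : ℤ⟦X⟧ :=
  PowerSeries.mk (fun n => if IsSquare (3 * n + 1) then (-1) ^ n else 0)

lemma not_isSquare_three_mul {m : ℕ} (h : ¬ 3 ∣ m) : ¬ IsSquare (3 * m) := by
  rintro ⟨y, hy⟩
  have h1 : 3 ∣ y := by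
    have : 3 ∣ y * y := ⟨m, hy.symm⟩
    rcases (Nat.Prime.dvd_mul Nat.prime_three).1 this with h | h <;> exact h
  obtain ⟨z, rfl⟩ := h1
  apply h
  exact ⟨z * z, by nlinarith⟩

lemma not_isSquare_three_mul_add_two (m : ℕ) : ¬ IsSquare (3 * m + 2) := by
  rintro ⟨y, hy⟩
  have h1 : (y * y) % 3 = 2 := by omega
  have h2 : y % 3 = 0 ∨ y % 3 = 1 ∨ y % 3 = 2 := by omega
  rcases h2 with h | h | h <;> simp [Nat.mul_mod, h] at h1

lemma isSquare_nine_mul (m : ℕ) : IsSquare (9 * m) ↔ IsSquare m := by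
  constructor
  · rintro ⟨y, hy⟩
    have h1 : 3 ∣ y := by
      have : 3 ∣ y * y := ⟨3 * m, by rw [← hy]; ring⟩
      rcases (Nat.Prime.dvd_mul Nat.prime_three).1 this with h | h <;> exact h
    obtain ⟨z, rfl⟩ := h1
    exact ⟨z, by nlinarith⟩
  · rintro ⟨y, rfl⟩
    exact ⟨3 * y, by ring⟩

lemma comp_zero_c : comp 0 ser_c = sg 3 ser_c := by
  ext n
  rw [coeff_comp, add_zero, coeff_sg, ser_c, coeff_mk]
  by_cases h3 : 3 ∣ n
  · obtain ⟨m, rfl⟩ := h3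
    rw [if_pos (dvd_mul_right 3 m), Nat.mul_div_cancel_left m (by norm_num), coeff_mk]
    have h9 : 3 * (3 * m) = 9 * m := by ring
    rw [h9]
    by_cases hm : m = 0
    · subst hm; simp
    · rw [if_neg (by omega), if_neg hm]
      by_cases h2 : IsSquare m
      · rw [if_pos ((isSquare_nine_mul m).2 h2), if_pos h2, pow_mul]
        norm_num
      · rw [if_neg (fun h => h2 ((isSquare_nine_mul m).1 h)), if_neg h2]
  · rw [if_neg h3, if_neg (by omega), if_neg (not_isSquare_three_mul h3)]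

lemma comp_one_c : comp 1 ser_c = -2 * ser_b := by
  ext n
  have : (-2 : ℤ⟦X⟧) * ser_b = C (-2 : ℤ) * ser_b := by simp
  rw [coeff_comp, this, coeff_C_mul, ser_c, ser_b, coeff_mk, coeff_mk, if_neg (by omega)]
  split_ifs with h
  · rw [pow_succ, pow_mul]
    norm_num
  · simp

lemma comp_two_c : comp 2 ser_c = 0 := by
  ext n
  rw [coeff_comp, ser_c, coeff_mk, if_neg (by omega),
    if_neg (not_isSquare_three_mul_add_two n)]
  simp

/-- The dissection of `φ(-q)`. -/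
lemma c_eq : ser_c = sg 3 (sg 3 ser_c) - 2 * X * sg 3 ser_b := by
  conv_lhs => rw [← tri3_comp ser_c, comp_zero_c, comp_one_c, comp_two_c]
  unfold tri3
  rw [map_mul, map_zero]
  have : (sg 3 (-2 : ℤ⟦X⟧)) = -2 := by
    have : (-2 : ℤ⟦X⟧) = ((-2 : ℤ) : ℤ⟦X⟧) := by norm_num
    rw [this, map_intCast]
  rw [this]
  ring

lemma comp_zero_psi : comp 0 ser_psi = ser_P := by
  ext n
  rw [coeff_comp, ser_psi, ser_P, coeff_mk, coeff_mk]
  have : 8 * (3 * n + 0) + 1 = 24 * n + 1 := by ring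
  rw [this]

lemma comp_one_psi : comp 1 ser_psi = sg 3 ser_psi := by
  ext n
  rw [coeff_comp, coeff_sg, ser_psi, coeff_mk]
  split_ifs with h2 h3 h3
  · obtain ⟨m, rfl⟩ := h3
    have : 8 * (3 * (3 * m) + 1) + 1 = 9 * (8 * m + 1) := by ring
    rw [this, isSquare_nine_mul] at h2
    rw [Nat.mul_div_cancel_left m (by norm_num), coeff_mk, if_pos h2]
  · exfalso
    have : 8 * (3 * n + 1) + 1 = 3 * (8 * n + 3) := by ring
    rw [this] at h2
    exact not_isSquare_three_mul (by omega) h2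
  · obtain ⟨m, rfl⟩ := h3
    have : 8 * (3 * (3 * m) + 1) + 1 = 9 * (8 * m + 1) := by ring
    rw [this, isSquare_nine_mul] at h2
    rw [Nat.mul_div_cancel_left m (by norm_num), coeff_mk, if_neg h2]
  · rfl

lemma comp_two_psi : comp 2 ser_psi = 0 := by
  ext n
  have : 8 * (3 * n + 2) + 1 = 3 * (8 * n + 5) + 2 := by ring
  rw [coeff_comp, ser_psi, coeff_mk, this, if_neg (not_isSquare_three_mul_add_two _)]
  simp

/-- The dissection of `ψ(q)`. -/
lemma psi_eq : ser_psi = sg 3 ser_P + X * sg 3 (sg 3 ser_psi) := by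
  conv_lhs => rw [← tri3_comp ser_psi, comp_zero_psi, comp_one_psi, comp_two_psi]
  unfold tri3
  rw [map_zero]
  ring

/-- `ψ(-q)`. -/
noncomputable def psm : ℤ⟦X⟧ := rescale (-1 : ℤ) ser_psi

/-- `P(-q)`. -/
noncomputable def Th : ℤ⟦X⟧ := rescale (-1 : ℤ) ser_P

lemma psm_eq : psm = sg 3 Th - X * sg 3 (sg 3 psm) := by
  unfold psm Th
  conv_lhs => rw [psi_eq]
  rw [map_add, map_mul, iota_sg_odd 3 (by decide), iota_sg_odd 3 (by decide),
    iota_sg_odd 3 (by decide), rescale_X']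
  simp
  ring

lemma f1_unit : IsUnit (f1 ℤ) := isUnit_of_constantCoeff_one (constantCoeff_IP adm_f1)

lemma sg_unit (k : ℕ) [NeZero k] : IsUnit (sg k (f1 ℤ)) := f1_unit.map (sg k)

lemma psm_prod : psm = sg 4 (f1 ℤ) * oo ℤ := by
  have h1 : rescale (-1 : ℤ) (op ℤ) = oo ℤ := by
    rw [← iota_oo]
    ext n
    rw [coeff_rescale, coeff_rescale, ← mul_assoc, ← mul_pow]
    norm_num
  rw [psm, ser_psi_prod, map_mul, iota_sg 4 (by decide), h1]

lemma psm_mul : psm * sg 2 (f1 ℤ) = f1 ℤ * sg 4 (f1 ℤ) := by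
  have h : sg 4 (f1 ℤ) * oo ℤ * sg 2 (f1 ℤ) = (oo ℤ * sg 2 (f1 ℤ)) * sg 4 (f1 ℤ) := by ring
  rw [psm_prod, h, ← f1_eq]

/-- `ψ(-q)² = φ(-q) ψ(q²)`. -/
lemma psm_sq : psm ^ 2 = ser_c * sg 2 ser_psi := by
  have h1 := psm_mul
  have h2 := ser_c_mul
  have h3 : sg 2 ser_psi * sg 2 (f1 ℤ) = sg 4 (f1 ℤ) ^ 2 := by
    rw [← map_mul, ser_psi_mul, map_pow, sg_sg 2 2 4 (by norm_num)]
  apply (sg_unit 2).mul_right_cancel
  apply (sg_unit 2).mul_right_cancel
  linear_combination (psm * sg 2 (f1 ℤ) + f1 ℤ * sg 4 (f1 ℤ)) * h1 -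
    sg 2 ser_psi * sg 2 (f1 ℤ) * h2 - f1 ℤ ^ 2 * h3

/-- The relations between the components. -/
lemma relations : Th ^ 2 = sg 3 ser_c * sg 2 ser_P - 2 * X * ser_b * sg 6 ser_psi ∧
    Th * sg 3 psm = ser_b * sg 2 ser_P ∧ sg 3 psm ^ 2 = sg 3 ser_c * sg 6 ser_psi := by
  have h := psm_sq
  have h1 : sg 2 ser_psi = sg 3 (sg 2 ser_P) + X ^ 2 * sg 3 (sg 6 ser_psi) := by
    conv_lhs => rw [psi_eq]
    rw [map_add, map_mul, sg_X, sg_sg 2 3 6 (by norm_num), sg_sg 3 3 9 (by norm_num),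
      sg_sg 2 9 18 (by norm_num), sg_sg 3 2 6 (by norm_num), sg_sg 3 6 18 (by norm_num)]
  rw [psm_eq, h1, c_eq] at h
  have two : (sg 3 (2 : ℤ⟦X⟧)) = 2 := by
    have : (2 : ℤ⟦X⟧) = ((2 : ℤ) : ℤ⟦X⟧) := by norm_num
    rw [this, map_intCast]
  have h2 : tri3 (Th ^ 2) (-2 * (Th * sg 3 psm)) (sg 3 psm ^ 2) =
      tri3 (sg 3 ser_c * sg 2 ser_P - 2 * X * ser_b * sg 6 ser_psi)
        (-2 * (ser_b * sg 2 ser_P)) (sg 3 ser_c * sg 6 ser_psi) := by
    unfold tri3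
    simp only [map_mul, map_pow, map_sub, map_neg, two, sg_X]
    linear_combination h
  obtain ⟨a1, a2, a3⟩ := tri3_inj h2
  refine ⟨a1, ?_, a3⟩
  have h4 : (2 : ℤ⟦X⟧) ≠ 0 := by
    intro h
    have h5 := congrArg constantCoeff h
    rw [map_ofNat, map_zero] at h5
    norm_num at h5
  apply mul_left_cancel₀ h4
  linear_combination -a2

end Thetas

/-! ## The cubic relation -/

section Cubic

lemma map_f1 : PowerSeries.map (Int.castRingHom ℂ) (f1 ℤ) = f1 ℂ := by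
  rw [f1, map_IP _ (by rw [PowerSeries.map_X]) adm_f1, f1]
  congr 1
  funext i
  rw [map_sub, map_one, map_pow, PowerSeries.map_X]

lemma map_sg (k : ℕ) [NeZero k] (g : ℤ⟦X⟧) :
    PowerSeries.map (Int.castRingHom ℂ) (sg k g) = sg k (PowerSeries.map (Int.castRingHom ℂ) g) := by
  ext n
  rw [coeff_map, coeff_sg, coeff_sg]
  split_ifs
  · rw [coeff_map]
  · simp

lemma rescale_sg_two (w : ℂ) (g : ℂ⟦X⟧) : rescale w (sg 2 g) = sg 2 (rescale (w ^ 2) g) := by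
  ext n
  rw [coeff_rescale, coeff_sg, coeff_sg]
  split_ifs with h
  · obtain ⟨d, rfl⟩ := h
    rw [coeff_rescale, Nat.mul_div_cancel_left d (by norm_num), pow_mul]
  · simp

lemma exists_omega : ∃ w : ℂ, w ^ 2 + w + 1 = 0 := by
  refine ⟨⟨-1 / 2, Real.sqrt 3 / 2⟩, ?_⟩
  have h3 : Real.sqrt 3 * Real.sqrt 3 = 3 := Real.mul_self_sqrt (by norm_num)
  apply Complex.ext
  · simp [sq]
    nlinarith
  · simp [sq]
    ring

/-- `a⁴ - 8 q a b³ = c⁴` with `a = φ(-q³)`, `c = φ(-q)`. -/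
lemma cubic_rel : (sg 3 ser_c ^ 3 - 8 * X * ser_b ^ 3) * sg 3 ser_c = ser_c ^ 4 := by
  obtain ⟨w, hw⟩ := exists_omega
  have hw3 : w ^ 3 = 1 := by linear_combination (w - 1) * hw
  have hw4 : (w ^ 2) ^ 2 = w := by linear_combination w * (w - 1) * hw
  set τ := PowerSeries.map (Int.castRingHom ℂ) with hτ
  set c := τ ser_c with hc
  set b := τ ser_b with hb
  -- the product formula for `c`
  have hcf : c * sg 2 (f1 ℂ) = f1 ℂ ^ 2 := by
    have := congrArg τ ser_c_mul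
    rwa [map_mul, map_sg, map_pow, map_f1] at this
  have hceq : c = sg 3 (sg 3 c) - 2 * X * sg 3 b := by
    have := congrArg τ c_eq
    rw [map_sub, map_mul, map_mul, map_sg, map_sg, map_sg, PowerSeries.map_X, map_ofNat] at this
    exact this
  have hwc : rescale w c = sg 3 (sg 3 c) - 2 * (C w * X) * sg 3 b := by
    conv_lhs => rw [hceq]
    rw [map_sub, map_mul, map_mul, rescale_sg_three w hw3, rescale_sg_three w hw3, rescale_X',
      map_ofNat]
  have hw6 : (w ^ 2) ^ 3 = 1 := by linear_combination (w ^ 3 + 1) * hw3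
  have hwc2 : rescale (w ^ 2) c = sg 3 (sg 3 c) - 2 * (C (w ^ 2) * X) * sg 3 b := by
    conv_lhs => rw [hceq]
    rw [map_sub, map_mul, map_mul, rescale_sg_three (w ^ 2) hw6, rescale_sg_three (w ^ 2) hw6,
      rescale_X', map_ofNat]
  have hCw : (C w : ℂ⟦X⟧) ^ 2 + C w + 1 = 0 := by
    rw [← map_pow, ← map_add, ← map_one (C (R := ℂ)), ← map_add, hw, map_zero]
  have hnorm : c * rescale w c * rescale (w ^ 2) c = sg 3 (sg 3 c ^ 3 - 8 * X * b ^ 3) := by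
    have e8 : sg 3 (8 : ℂ⟦X⟧) = 8 := map_ofNat _ 8
    rw [hwc, hwc2, map_sub, map_mul, map_mul, map_pow, map_pow, sg_X, e8, map_pow]
    have : c * (sg 3 (sg 3 c) - 2 * (C w * X) * sg 3 b) *
      (sg 3 (sg 3 c) - 2 * (C w ^ 2 * X) * sg 3 b) =
      (sg 3 (sg 3 c) - 2 * X * sg 3 b) * (sg 3 (sg 3 c) - 2 * (C w * X) * sg 3 b) *
      (sg 3 (sg 3 c) - 2 * (C w ^ 2 * X) * sg 3 b) := by rw [← hceq]
    rw [this]
    set A := sg 3 (sg 3 c)
    set B := sg 3 b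
    linear_combination (-2 * A ^ 2 * X * B + 4 * A * X ^ 2 * B ^ 2 * C w
      - 8 * X ^ 3 * B ^ 3 * (C w - 1)) * hCw
  have n1 := norm_f1 w hw
  have n2 : sg 2 (f1 ℂ) * rescale w (sg 2 (f1 ℂ)) * rescale (w ^ 2) (sg 2 (f1 ℂ)) *
      sg 18 (f1 ℂ) = sg 6 (f1 ℂ) ^ 4 := by
    rw [rescale_sg_two, rescale_sg_two, hw4]
    have := congrArg (sg 2) n1
    rw [map_mul, map_mul, map_mul, map_pow, sg_sg 2 9 18 (by norm_num),
      sg_sg 2 3 6 (by norm_num)] at this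
    linear_combination this
  have m1 := congrArg (rescale w) hcf
  have m2 := congrArg (rescale (w ^ 2)) hcf
  rw [map_mul, map_pow] at m1 m2
  have k1 : sg 9 c * sg 18 (f1 ℂ) = sg 9 (f1 ℂ) ^ 2 := by
    have := congrArg (sg 9) hcf
    rwa [map_mul, map_pow, sg_sg 9 2 18 (by norm_num)] at this
  have k2 : sg 3 c * sg 6 (f1 ℂ) = sg 3 (f1 ℂ) ^ 2 := by
    have := congrArg (sg 3) hcf
    rwa [map_mul, map_pow, sg_sg 3 2 6 (by norm_num)] at this
  have hf1u : IsUnit (f1 ℂ) := isUnit_of_constantCoeff_one (constantCoeff_IP adm_f1)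
  have u18 : IsUnit (sg 18 (f1 ℂ)) := hf1u.map (sg 18)
  have u6 : IsUnit (sg 6 (f1 ℂ)) := hf1u.map (sg 6)
  have key : (c * rescale w c * rescale (w ^ 2) c) * sg 9 c = sg 3 c ^ 4 := by
    have u := (u6.pow 4).mul u18
    apply u.mul_right_cancel
    set F := f1 ℂ
    set G := sg 2 F
    set F' := rescale w F
    set F'' := rescale (w ^ 2) F
    set G' := rescale w G
    set G'' := rescale (w ^ 2) G
    calc (c * rescale w c * rescale (w ^ 2) c) * sg 9 c * (sg 6 F ^ 4 * sg 18 F)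
        = (c * rescale w c * rescale (w ^ 2) c) * (sg 9 c * sg 18 F) *
          (G * G' * G'' * sg 18 F) := by rw [n2]; ring
      _ = (c * G) * (rescale w c * G') * (rescale (w ^ 2) c * G'') * sg 9 F ^ 2 * sg 18 F := by
          rw [k1]; ring
      _ = (F * F' * F'' * sg 9 F) ^ 2 * sg 18 F := by rw [hcf, m1, m2]; ring
      _ = (sg 3 F ^ 2) ^ 4 * sg 18 F := by rw [n1]; ring
      _ = sg 3 c ^ 4 * (sg 6 F ^ 4 * sg 18 F) := by rw [← k2]; ring
  rw [hnorm] at key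
  have key2 : (sg 3 c ^ 3 - 8 * X * b ^ 3) * sg 3 c = c ^ 4 := by
    apply sg_injective 3
    rw [map_mul, sg_sg 3 3 9 (by norm_num), key, map_pow]
  have hinj : Function.Injective τ := PowerSeries.map_injective _ Int.cast_injective
  apply hinj
  rw [map_mul, map_sub, map_pow, map_mul, map_mul, map_pow, map_pow, map_sg, PowerSeries.map_X,
    map_ofNat]
  exact key2

end Cubic

/-! ## The generating function of the partitions with distinct even parts -/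

section GF

open scoped PowerSeries.WithPiTopology

/-- The number of partitions of `n` in which each even part occurs at most once. -/
def pedN (n : ℕ) : ℕ :=
  (Finset.univ.filter (fun p : n.Partition => ∀ i ∈ p.parts, Even i → p.parts.count i ≤ 1)).card

/-- The generating function. -/
noncomputable def Dser : ℤ⟦X⟧ := PowerSeries.mk (fun n => (pedN n : ℤ))

/-- The character. -/
def pedf (i c : ℕ) : ℤ := if (Even i → c ≤ 1) then 1 else 0

lemma Dser_eq_genFun : Dser = Nat.Partition.genFun pedf := by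
  ext n
  rw [Dser, coeff_mk, Nat.Partition.coeff_genFun, pedN, Finset.card_filter]
  push_cast
  apply Finset.sum_congr rfl
  intro p _
  unfold pedf
  rw [Finsupp.prod, Finset.prod_ite_zero]
  simp only [Multiset.toFinsupp_support, Multiset.mem_toFinset, Multiset.toFinsupp_apply,
    Finset.prod_const_one]

/-- The factors. -/
noncomputable def gg (i : ℕ) : ℤ⟦X⟧ :=
  1 + ∑' j, pedf (i + 1) (j + 1) • (X : ℤ⟦X⟧) ^ ((i + 1) * (j + 1))

lemma gg_even (i : ℕ) (hi : Even (i + 1)) : gg i = 1 + X ^ (i + 1) := by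
  unfold gg
  congr 1
  rw [tsum_eq_single 0]
  · unfold pedf
    rw [if_pos (fun _ => by norm_num)]
    simp
  · intro j hj
    unfold pedf
    rw [if_neg]
    · simp
    · intro h
      have := h hi
      omega

lemma gg_odd (i : ℕ) (hi : ¬ Even (i + 1)) : gg i * (1 - X ^ (i + 1)) = 1 := by
  have h1 : gg i = ∑' j : ℕ, ((X : ℤ⟦X⟧) ^ (i + 1)) ^ j := by
    unfold gg
    rw [(PowerSeries.WithPiTopology.summable_pow_of_constantCoeff_eq_zero
      (f := (X : ℤ⟦X⟧) ^ (i + 1)) (by simp)).tsum_eq_zero_add]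
    congr 1
    apply tsum_congr
    intro j
    unfold pedf
    rw [if_pos (fun h => absurd h hi), one_smul, pow_mul]
  rw [h1]
  exact PowerSeries.WithPiTopology.tsum_pow_mul_one_sub_of_constantCoeff_eq_zero (by simp)

lemma adm_gg : Adm gg := by
  intro i
  by_cases hi : Even (i + 1)
  · rw [gg_even i hi]
    simp
  · have h := gg_odd i hi
    have : gg i - 1 = gg i * X ^ (i + 1) := by linear_combination h
    rw [this]
    exact dvd_mul_left _ _

lemma Dser_eq_IP : Dser = IP gg := by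
  rw [Dser_eq_genFun]
  ext n
  have h1 := (Nat.Partition.hasProd_genFun pedf).tendsto_prod_nat
  rw [PowerSeries.WithPiTopology.tendsto_iff_coeff_tendsto] at h1
  have h2 := h1 n
  have h3 : Filter.Tendsto (fun m => coeff n (∏ i ∈ range m, gg i)) Filter.atTop
      (nhds (coeff n (IP gg))) := by
    apply tendsto_const_nhds.congr'
    filter_upwards [Filter.eventually_ge_atTop (n + 1)] with m hm
    have := IP_sub_dvd adm_gg m
    rw [X_pow_dvd_sub_iff] at this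
    exact this n (by omega)
  exact tendsto_nhds_unique h2 h3

lemma Dser_mul_oo : Dser * oo ℤ = sg 2 (e1 ℤ) := by
  have h1 : Adm (fun i => ∏ j ∈ range 2, gg (2 * i + j)) := by
    intro i
    show (X : ℤ⟦X⟧) ^ (i + 1) ∣ ∏ j ∈ range 2, gg (2 * i + j) - 1
    rw [prod_range_succ, prod_range_one]
    have a1 := adm_gg (2 * i + 0)
    have a2 := adm_gg (2 * i + 1)
    have := dvd_mul_sub_mul ((pow_dvd_pow X (by omega : i + 1 ≤ 2 * i + 0 + 1)).trans a1)
      ((pow_dvd_pow X (by omega : i + 1 ≤ 2 * i + 1 + 1)).trans a2)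
    simpa using this
  rw [Dser_eq_IP, IP_group adm_gg 2 (by norm_num), oo, IP_mul h1 adm_oo, sg_e1]
  congr 1
  funext i
  rw [prod_range_succ, prod_range_one]
  have e1 := gg_odd (2 * i + 0) (by rw [Nat.not_even_iff_odd]; exact ⟨i, by ring⟩)
  have e2 := gg_even (2 * i + 1) ⟨i + 1, by ring⟩
  rw [add_zero] at e1 ⊢
  rw [e2]
  have e3 : 2 * (i + 1) = 2 * i + 1 + 1 := by ring
  rw [e3]
  linear_combination (1 + X ^ (2 * i + 1 + 1)) * e1

/-- The generating function is `ψ(-q) / φ(-q)`. -/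
lemma Dser_mul_c : Dser * ser_c = psm := by
  have h1 : sg 2 (f1 ℤ) * sg 2 (e1 ℤ) = sg 4 (f1 ℤ) := by
    rw [← map_mul, f1_mul_e1, sg_sg 2 2 4 (by norm_num)]
  rw [ser_c_prod, psm_prod, ← h1]
  linear_combination (sg 2 (f1 ℤ) * oo ℤ) * Dser_mul_oo

end GF

/-! ## The Andrews-Hirschhorn-Sellers identity -/

section AHS

lemma cc_c : constantCoeff ser_c = 1 := by
  rw [← coeff_zero_eq_constantCoeff_apply, ser_c, coeff_mk, if_pos rfl]

lemma cc_sg (k : ℕ) [NeZero k] (g : ℤ⟦X⟧) : constantCoeff (sg k g) = constantCoeff g := by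
  rw [← coeff_zero_eq_constantCoeff_apply, ← coeff_zero_eq_constantCoeff_apply, coeff_sg,
    if_pos (dvd_zero k), Nat.zero_div]

lemma cc_b : constantCoeff ser_b = 1 := by
  rw [← coeff_zero_eq_constantCoeff_apply, ser_b, coeff_mk, if_pos (by simp)]
  simp

lemma cc_Th : constantCoeff Th = 1 := by
  rw [← coeff_zero_eq_constantCoeff_apply, Th, coeff_rescale, ser_P, coeff_mk,
    if_pos (by simp)]
  simp

lemma cc_psm : constantCoeff psm = 1 := by
  rw [← coeff_zero_eq_constantCoeff_apply, psm, coeff_rescale, ser_psi, coeff_mk,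
    if_pos (by simp)]
  simp

lemma ne_zero_of_cc {g : ℤ⟦X⟧} (h : constantCoeff g = 1) : g ≠ 0 := by
  rintro rfl
  simp at h

/-- `a (2 b Θ - a s) = s c²`. -/
lemma rel_one : sg 3 ser_c * (2 * ser_b * Th - sg 3 ser_c * sg 3 psm) =
    sg 3 psm * ser_c ^ 2 := by
  obtain ⟨h1, h2, h3⟩ := relations
  have h4 := cubic_rel
  set a := sg 3 ser_c with ha
  set b := ser_b with hb
  set s := sg 3 psm with hs
  set c := ser_c with hc
  have h5 : a * b * Th ^ 2 = a ^ 2 * Th * s - 2 * X * b ^ 2 * s ^ 2 := by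
    rw [h1, h3]
    linear_combination (-a ^ 2) * h2
  have hsq : (a * (2 * b * Th - a * s)) ^ 2 = (s * c ^ 2) ^ 2 := by
    linear_combination s ^ 2 * h4 + 4 * a * b * h5
  rcases sq_eq_sq_iff_eq_or_eq_neg.1 hsq with h | h
  · exact h
  · exfalso
    have h6 := congrArg constantCoeff h
    simp only [map_mul, map_sub, map_neg, map_pow, map_ofNat] at h6
    rw [ha, hb, hs, hc, cc_sg, cc_sg, cc_c, cc_b, cc_Th, cc_psm] at h6
    norm_num at h6

/-- The first dissection: `∑ ped(3n+1) q^n = a s / c²`. -/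
lemma D1_eq : comp 1 Dser * ser_c ^ 2 = sg 3 (ser_c * psm) := by
  have h1 := Dser_mul_c
  have h4 := cubic_rel
  have h7 := rel_one
  set a := sg 3 ser_c with ha
  set b := ser_b with hb
  set s := sg 3 psm with hs
  set c := ser_c with hc
  have hcq : c = sg 3 a - 2 * X * sg 3 b := c_eq
  have hp : psm = sg 3 Th - X * sg 3 s := psm_eq
  set nn := a ^ 3 - 8 * X * b ^ 3 with hn
  have e8 : sg 3 (8 : ℤ⟦X⟧) = 8 := map_ofNat _ 8
  have e2 : sg 3 (2 : ℤ⟦X⟧) = 2 := map_ofNat _ 2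
  have e4 : sg 3 (4 : ℤ⟦X⟧) = 4 := map_ofNat _ 4
  have hsn : sg 3 nn = c * (sg 3 a ^ 2 + 2 * X * sg 3 a * sg 3 b + 4 * X ^ 2 * sg 3 b ^ 2) := by
    rw [hn, hcq, map_sub, map_mul, map_mul, map_pow, map_pow, sg_X, e8]
    ring
  have h8 : Dser * sg 3 nn = tri3 (Th * a ^ 2 - 4 * X * s * b ^ 2)
      (2 * a * b * Th - s * a ^ 2) (4 * b ^ 2 * Th - 2 * a * b * s) := by
    have : Dser * sg 3 nn = psm * (sg 3 a ^ 2 + 2 * X * sg 3 a * sg 3 b
      + 4 * X ^ 2 * sg 3 b ^ 2) := by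
      rw [hsn, ← h1]; ring
    rw [this, hp]
    unfold tri3
    simp only [map_mul, map_pow, map_sub, sg_X, e2, e4]
    ring
  rw [← tri3_comp Dser, mul_tri3] at h8
  obtain ⟨_, h9, _⟩ := tri3_inj h8
  have hcne : c ^ 2 ≠ 0 := pow_ne_zero _ (ne_zero_of_cc cc_c)
  apply mul_right_cancel₀ hcne
  have h10 : comp 1 Dser * nn = s * c ^ 2 := by
    rw [h9, ← h7]; ring
  rw [map_mul, ← ha, ← hs]
  linear_combination a * h10 - comp 1 Dser * h4

/-- The second dissection. -/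
lemma D2_eq : comp 2 (comp 1 Dser) * ser_c ^ 7 =
    12 * psm * sg 3 ser_c ^ 4 * ser_b ^ 2 := by
  have h1 := D1_eq
  have h4 := cubic_rel
  set a := sg 3 ser_c with ha
  set b := ser_b with hb
  set c := ser_c with hc
  have hcq : c = sg 3 a - 2 * X * sg 3 b := c_eq
  set nn := a ^ 3 - 8 * X * b ^ 3 with hn
  set d := comp 1 Dser with hd
  have e8 : sg 3 (8 : ℤ⟦X⟧) = 8 := map_ofNat _ 8
  have e2 : sg 3 (2 : ℤ⟦X⟧) = 2 := map_ofNat _ 2
  have e4 : sg 3 (4 : ℤ⟦X⟧) = 4 := map_ofNat _ 4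
  have e16 : sg 3 (16 : ℤ⟦X⟧) = 16 := map_ofNat _ 16
  have e12 : sg 3 (12 : ℤ⟦X⟧) = 12 := map_ofNat _ 12
  have hsn : sg 3 nn = c * (sg 3 a ^ 2 + 2 * X * sg 3 a * sg 3 b + 4 * X ^ 2 * sg 3 b ^ 2) := by
    rw [hn, hcq, map_sub, map_mul, map_mul, map_pow, map_pow, sg_X, e8]
    ring
  have h8 : d * sg 3 (nn ^ 2) = tri3 (c * psm * (a ^ 4 + 16 * X * a * b ^ 3))
      (c * psm * (4 * a ^ 3 * b + 16 * X * b ^ 4)) (c * psm * (12 * a ^ 2 * b ^ 2)) := by
    have : d * sg 3 (nn ^ 2) = (d * c ^ 2) * (sg 3 a ^ 2 + 2 * X * sg 3 a * sg 3 b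
      + 4 * X ^ 2 * sg 3 b ^ 2) ^ 2 := by
      rw [map_pow, hsn]; ring
    rw [this, h1]
    unfold tri3
    simp only [map_mul, map_pow, map_add, sg_X, e4, e12, e16]
    ring
  rw [← tri3_comp d, mul_tri3] at h8
  obtain ⟨_, _, h9⟩ := tri3_inj h8
  have hcne : c ≠ 0 := ne_zero_of_cc cc_c
  apply mul_right_cancel₀ hcne
  linear_combination a ^ 2 * h9 - comp 2 d * (nn * a + c ^ 4) * h4

end AHS

/-! ## The product form of the quotient -/

section Quotient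

/-- `Θ f₂² f₃² f₁₂² = f₁ f₄ f₆⁵`. -/
lemma Th_mul : Th * sg 2 (f1 ℤ) ^ 2 * sg 3 (f1 ℤ) ^ 2 * sg 12 (f1 ℤ) ^ 2 =
    f1 ℤ * sg 4 (f1 ℤ) * sg 6 (f1 ℤ) ^ 5 := by
  have h1 := congrArg (rescale (-1 : ℤ)) ser_P_mul
  rw [map_mul, map_mul, map_mul, map_pow, iota_sg 6 (by decide), iota_sg 2 (by decide),
    iota_sg_odd 3 (by decide)] at h1
  have h2 := iota_f1 (R := ℤ)
  have h3 := congrArg (sg 3) h2
  rw [map_mul, map_mul, map_pow, sg_sg 3 4 12 (by norm_num), sg_sg 3 2 6 (by norm_num)] at h3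
  have hT : rescale (-1 : ℤ) ser_P = Th := rfl
  rw [hT] at h1
  set F := f1 ℤ
  set F2 := sg 2 F
  set F3 := sg 3 F
  set F4 := sg 4 F
  set F6 := sg 6 F
  set F12 := sg 12 F
  set i1 := rescale (-1 : ℤ) F
  set i3 := sg 3 i1
  have u : IsUnit (F2 * F6) := (sg_unit 2).mul (sg_unit 6)
  apply u.mul_right_cancel
  linear_combination (-Th * F6 * F3 ^ 2 * F12 ^ 2) * h2 + F3 ^ 2 * F12 ^ 2 * F * F4 * h1
    + F2 * F * F4 * (i3 * F3 * F12 + F6 ^ 3) * h3

/-- `ψ(-q) Θ a = c P(q²)²`. -/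
lemma rel_two : psm * Th * sg 3 ser_c = ser_c * sg 2 ser_P ^ 2 := by
  have h1 := Th_mul
  have h2 := psm_mul
  have h3 := ser_c_mul
  have h4 : sg 3 ser_c * sg 6 (f1 ℤ) = sg 3 (f1 ℤ) ^ 2 := by
    have := congrArg (sg 3) ser_c_mul
    rwa [map_mul, map_pow, sg_sg 3 2 6 (by norm_num)] at this
  have h5 : sg 2 ser_P * sg 2 (f1 ℤ) * sg 12 (f1 ℤ) = sg 4 (f1 ℤ) * sg 6 (f1 ℤ) ^ 2 := by
    have := congrArg (sg 2) ser_P_mul
    rwa [map_mul, map_mul, map_mul, map_pow, sg_sg 2 6 12 (by norm_num),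
      sg_sg 2 2 4 (by norm_num), sg_sg 2 3 6 (by norm_num)] at this
  set F := f1 ℤ
  set F2 := sg 2 F
  set F3 := sg 3 F
  set F4 := sg 4 F
  set F6 := sg 6 F
  set F12 := sg 12 F
  have u : IsUnit (F2 ^ 3 * F12 ^ 2 * F6 * F3 ^ 2) :=
    ((((sg_unit 2).pow 3).mul ((sg_unit 12).pow 2)).mul (sg_unit 6)).mul ((sg_unit 3).pow 2)
  apply u.mul_right_cancel
  linear_combination psm * F2 * sg 3 ser_c * F6 * h1 + sg 3 ser_c * F6 * F * F4 * F6 ^ 5 * h2
    + F * F4 * F * F4 * F6 ^ 5 * h4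
    - F6 * F3 ^ 2 * (sg 2 ser_P * F2 * F12) ^ 2 * h3
    - F6 * F3 ^ 2 * F ^ 2 * (sg 2 ser_P * F2 * F12 + F4 * F6 ^ 2) * h5

/-- `∑ ped(9n+7) q^n · φ(-q)⁶ = 12 Θ(q) ψ(q⁶) φ(-q³)⁴`. -/
lemma D2_eq' : comp 2 (comp 1 Dser) * ser_c ^ 6 =
    12 * (Th * sg 6 ser_psi * sg 3 ser_c ^ 4) := by
  obtain ⟨_, r2, r3⟩ := relations
  have h1 := D2_eq
  have h2 := rel_two
  have hP : sg 2 ser_P ≠ 0 := by
    apply ne_zero_of_cc
    rw [cc_sg, ← coeff_zero_eq_constantCoeff_apply, ser_P, coeff_mk, if_pos (by simp)]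
  have h3 : psm * ser_b ^ 2 = ser_c * Th * sg 6 ser_psi := by
    apply mul_right_cancel₀ (pow_ne_zero 2 hP)
    linear_combination (-psm * (ser_b * sg 2 ser_P + Th * sg 3 psm)) * r2
      + psm * Th ^ 2 * r3 + Th * sg 6 ser_psi * h2
  have hc : ser_c ≠ 0 := ne_zero_of_cc cc_c
  apply mul_right_cancel₀ hc
  linear_combination h1 + 12 * sg 3 ser_c ^ 4 * h3

end Quotient

/-! ## The theta operator -/

section Derivative

/-- The operator `q d/dq`. -/
noncomputable def dd (g : ℤ⟦X⟧) : ℤ⟦X⟧ := X * PowerSeries.derivative ℤ g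

lemma coeff_dd (g : ℤ⟦X⟧) (n : ℕ) : coeff n (dd g) = n * coeff n g := by
  unfold dd
  rcases n with _ | n
  · simp
  · rw [coeff_succ_X_mul, PowerSeries.coeff_derivative]
    push_cast
    ring

lemma dd_mul (g h : ℤ⟦X⟧) : dd (g * h) = dd g * h + g * dd h := by
  unfold dd
  rw [Derivation.leibniz]
  simp only [smul_eq_mul]
  ring

lemma dd_pow_two (g : ℤ⟦X⟧) : dd (g ^ 2) = 2 * g * dd g := by
  rw [sq, dd_mul]; ring

lemma dd_sg (k : ℕ) [NeZero k] (g : ℤ⟦X⟧) : dd (sg k g) = (k : ℤ⟦X⟧) * sg k (dd g) := by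
  ext n
  have : ((k : ℕ) : ℤ⟦X⟧) = C (k : ℤ) := by simp
  rw [coeff_dd, coeff_sg, this, coeff_C_mul, coeff_sg]
  split_ifs with h
  · obtain ⟨d, rfl⟩ := h
    rw [coeff_dd, Nat.mul_div_cancel_left d (Nat.pos_of_neZero k)]
    push_cast
    ring
  · simp

/-- `L = - (q d/dq f₁) / f₁`. -/
noncomputable def LL : ℤ⟦X⟧ := -(dd (f1 ℤ)) * invOfUnit (f1 ℤ) 1

lemma dd_f1 : dd (f1 ℤ) = -(f1 ℤ * LL) := by
  have h : f1 ℤ * invOfUnit (f1 ℤ) 1 = 1 :=
    mul_invOfUnit _ _ (by rw [f1, constantCoeff_IP adm_f1]; rfl)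
  unfold LL
  linear_combination (-dd (f1 ℤ)) * h

lemma dd_sg_f1 (k : ℕ) [NeZero k] : dd (sg k (f1 ℤ)) = -((k : ℤ⟦X⟧) * sg k (f1 ℤ) * sg k LL) := by
  rw [dd_sg, dd_f1, map_neg, map_mul]
  ring

lemma dd_c : dd ser_c = 2 * ser_c * (sg 2 LL - LL) := by
  have h := congrArg dd ser_c_mul
  rw [dd_mul, dd_pow_two, dd_sg_f1, dd_f1] at h
  apply (sg_unit 2).mul_right_cancel
  push_cast at h
  linear_combination h + 2 * LL * ser_c_mul

lemma dd_psi : dd ser_psi = ser_psi * (LL - 4 * sg 2 LL) := by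
  have h := congrArg dd ser_psi_mul
  rw [dd_mul, dd_pow_two, dd_sg_f1, dd_f1] at h
  apply f1_unit.mul_right_cancel
  push_cast at h
  linear_combination h + 4 * sg 2 LL * ser_psi_mul

lemma dd_Th : dd Th = Th * (4 * sg 2 LL + 6 * sg 3 LL + 24 * sg 12 LL - LL - 4 * sg 4 LL
    - 30 * sg 6 LL) := by
  have h := congrArg dd Th_mul
  have e5 : dd (sg 6 (f1 ℤ) ^ 5) = 5 * sg 6 (f1 ℤ) ^ 4 * dd (sg 6 (f1 ℤ)) := by
    have : sg 6 (f1 ℤ) ^ 5 = (sg 6 (f1 ℤ) ^ 2 * sg 6 (f1 ℤ) ^ 2) * sg 6 (f1 ℤ) := by ring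
    rw [this, dd_mul, dd_mul, dd_pow_two]
    ring
  rw [dd_mul, dd_mul, dd_mul, dd_mul, dd_mul, dd_pow_two, dd_pow_two, dd_pow_two, e5,
    dd_sg_f1, dd_sg_f1, dd_sg_f1, dd_sg_f1, dd_sg_f1, dd_f1] at h
  push_cast at h
  have u : IsUnit (sg 2 (f1 ℤ) ^ 2 * sg 3 (f1 ℤ) ^ 2 * sg 12 (f1 ℤ) ^ 2) :=
    (((sg_unit 2).pow 2).mul ((sg_unit 3).pow 2)).mul ((sg_unit 12).pow 2)
  apply u.mul_right_cancel
  linear_combination h + (LL + 4 * sg 4 LL + 30 * sg 6 LL) * Th_mul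

end Derivative

/-! ## The congruence modulo 16 -/

section Mod16

/-- `φ(-q) = 1 + 2 u`. -/
lemma c_eq_one_add : ∃ u : ℤ⟦X⟧, ser_c = 1 + 2 * u := by
  refine ⟨PowerSeries.mk (fun n => if n = 0 then 0 else if IsSquare n then (-1) ^ n else 0), ?_⟩
  ext n
  have : (2 : ℤ⟦X⟧) = C (2 : ℤ) := by simp
  rw [map_add, this, coeff_C_mul, ser_c, coeff_mk, coeff_mk, coeff_one]
  split_ifs <;> simp

/-- `∑ q^(k²)` over the odd positive integers `k`. -/
noncomputable def ser_o : ℤ⟦X⟧ :=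
  PowerSeries.mk (fun n => if IsSquare n ∧ ¬ Even n then 1 else 0)

lemma c_sub_iota : ser_c - rescale (-1 : ℤ) ser_c = -4 * ser_o := by
  ext n
  have : (-4 : ℤ⟦X⟧) = C (-4 : ℤ) := by simp
  rw [map_sub, coeff_rescale, this, coeff_C_mul, ser_c, ser_o, coeff_mk, coeff_mk]
  by_cases h0 : n = 0
  · subst h0; simp
  · rw [if_neg h0]
    rcases Nat.even_or_odd n with he | ho
    · rw [he.neg_one_pow, if_neg (show ¬ (IsSquare n ∧ ¬ Even n) from fun h => h.2 he)]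
      split_ifs <;> ring
    · rw [ho.neg_one_pow]
      have : ¬ Even n := Nat.not_even_iff_odd.2 ho
      by_cases hs : IsSquare n
      · rw [if_pos hs, if_pos ⟨hs, this⟩]; norm_num
      · rw [if_neg hs, if_neg (by tauto)]; norm_num

lemma dd_c_mod : ∃ z : ℤ⟦X⟧, dd ser_c = -2 * ser_o + 8 * z := by
  have h : ∀ n : ℕ, ∃ z : ℤ, coeff n (dd ser_c) = -2 * coeff n ser_o + 8 * z := by
    intro n
    rw [coeff_dd, ser_c, ser_o, coeff_mk, coeff_mk]
    by_cases h0 : n = 0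
    · subst h0; exact ⟨0, by simp⟩
    · rw [if_neg h0]
      by_cases hs : IsSquare n
      · obtain ⟨y, rfl⟩ := hs
        rcases Nat.even_or_odd y with he | ho
        · obtain ⟨d, rfl⟩ := he
          have e1 : Even ((d + d) * (d + d)) := Even.mul_left ⟨d, rfl⟩ _
          rw [if_pos ⟨d + d, rfl⟩, if_neg (by tauto), e1.neg_one_pow]
          exact ⟨d * d, by push_cast; ring⟩
        · obtain ⟨d, rfl⟩ := ho
          have e1 : Odd ((2 * d + 1) * (2 * d + 1)) := (Odd.mul ⟨d, rfl⟩ ⟨d, rfl⟩)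
          have e2 : ¬ Even ((2 * d + 1) * (2 * d + 1)) := Nat.not_even_iff_odd.2 e1
          rw [if_pos ⟨2 * d + 1, rfl⟩, if_pos ⟨⟨2 * d + 1, rfl⟩, e2⟩, e1.neg_one_pow]
          exact ⟨-(d * d + d), by push_cast; ring⟩
      · rw [if_neg hs, if_neg (by tauto)]
        exact ⟨0, by simp⟩
  choose z hz using h
  refine ⟨PowerSeries.mk z, ?_⟩
  ext n
  have e1 : (-2 : ℤ⟦X⟧) = C (-2 : ℤ) := by simp
  have e2 : (8 : ℤ⟦X⟧) = C (8 : ℤ) := by simp
  rw [hz n, map_add, e1, e2, coeff_C_mul, coeff_C_mul, coeff_mk]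

/-- `φ(q) φ(-q) = φ(-q²)²`. -/
lemma c_mul_iota : ser_c * rescale (-1 : ℤ) ser_c = sg 2 ser_c ^ 2 := by
  have h1 := ser_c_mul
  have h2 := congrArg (rescale (-1 : ℤ)) ser_c_mul
  rw [map_mul, iota_sg 2 (by decide), map_pow] at h2
  have h3 := iota_f1 (R := ℤ)
  have h4 : sg 2 ser_c * sg 4 (f1 ℤ) = sg 2 (f1 ℤ) ^ 2 := by
    have := congrArg (sg 2) ser_c_mul
    rwa [map_mul, map_pow, sg_sg 2 2 4 (by norm_num)] at this
  have u : IsUnit (sg 2 (f1 ℤ) ^ 2 * sg 4 (f1 ℤ) ^ 2) :=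
    ((sg_unit 2).pow 2).mul ((sg_unit 4).pow 2)
  apply u.mul_right_cancel
  set F := f1 ℤ
  set F2 := sg 2 F
  set F4 := sg 4 F
  set i1 := rescale (-1 : ℤ) F
  set ic := rescale (-1 : ℤ) ser_c
  linear_combination (ic * F2 * F4 ^ 2) * h1 + F ^ 2 * F4 ^ 2 * h2 +
    (i1 * F * F4 + F2 ^ 3) * h3 - F2 ^ 2 * (sg 2 ser_c * F4 + F2 ^ 2) * h4

lemma exists_of_dvd_coeff (m : ℤ) (g : ℤ⟦X⟧) (h : ∀ n, m ∣ coeff n g) :
    ∃ z : ℤ⟦X⟧, g = C m * z := by
  choose z hz using h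
  refine ⟨PowerSeries.mk z, ?_⟩
  ext n
  rw [coeff_C_mul, coeff_mk, hz n]

/-- `φ(-q)² = 1 - 4 L` modulo 16. -/
lemma c_sq : ∃ z : ℤ⟦X⟧, ser_c ^ 2 = 1 - 4 * LL + 16 * z := by
  obtain ⟨u, hu⟩ := c_eq_one_add
  obtain ⟨z, hz⟩ := dd_c_mod
  have h1 := dd_c
  have h2 := c_sub_iota
  have h3 := c_mul_iota
  set E := ser_c ^ 2 + 4 * LL with hE
  have two_ne : (2 : ℤ⟦X⟧) ≠ 0 := by
    intro h
    have h5 := congrArg constantCoeff h
    rw [map_ofNat, map_zero] at h5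
    norm_num at h5
  have h4 : ser_c * (LL - sg 2 LL) = ser_o - 4 * z := by
    apply mul_left_cancel₀ two_ne
    linear_combination -hz + h1
  have e4 : sg 2 (4 : ℤ⟦X⟧) = 4 := map_ofNat _ 4
  have h5 : ser_c * (E - sg 2 E) = 16 * (-(ser_o * (u + u ^ 2)) - z) := by
    have : sg 2 E = sg 2 ser_c ^ 2 + 4 * sg 2 LL := by
      rw [hE, map_add, map_mul, map_pow, e4]
    rw [this, hE]
    have h6 : ser_c ^ 2 = 1 + 4 * (u + u ^ 2) := by rw [hu]; ring
    linear_combination 4 * h4 + ser_c * h3 + ser_c ^ 2 * h2 - 4 * ser_o * h6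
  have hcu : IsUnit ser_c := isUnit_of_constantCoeff_one cc_c
  have h6 : ∃ y : ℤ⟦X⟧, E - sg 2 E = 16 * y := by
    obtain ⟨v, hv⟩ := hcu.exists_left_inv
    refine ⟨v * (-(ser_o * (u + u ^ 2)) - z), ?_⟩
    linear_combination (-(E - sg 2 E)) * hv + v * h5
  obtain ⟨y, hy⟩ := h6
  have h7 : ∀ n, (16 : ℤ) ∣ coeff n (E - 1) := by
    intro n
    induction n using Nat.strong_induction_on with
    | _ n ih =>
      have e16 : (16 : ℤ⟦X⟧) = C (16 : ℤ) := by simp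
      have h8 := congrArg (coeff n) hy
      rw [map_sub, coeff_sg, e16, coeff_C_mul] at h8
      rw [map_sub, coeff_one]
      by_cases h0 : n = 0
      · subst h0
        have hc1 : coeff 0 E = 1 := by
          rw [hE, map_add, coeff_zero_eq_constantCoeff_apply, map_pow, cc_c]
          have : coeff 0 (4 * LL) = 0 := by
            have e4' : (4 : ℤ⟦X⟧) = C (4 : ℤ) := by simp
            rw [e4', coeff_C_mul]
            have hL : coeff 0 LL = 0 := by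
              have h9 := congrArg (coeff 0) dd_f1
              rw [coeff_dd, map_neg, coeff_zero_eq_constantCoeff_apply (f1 ℤ * LL), map_mul] at h9
              have : constantCoeff (f1 ℤ) = 1 := constantCoeff_IP adm_f1
              rw [this] at h9
              rw [coeff_zero_eq_constantCoeff_apply]
              push_cast at h9
              linarith
            rw [hL]; ring
          rw [this]; norm_num
        rw [hc1, if_pos rfl]
        simp
      · rw [if_neg h0, sub_zero]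
        by_cases hd : 2 ∣ n
        · rw [if_pos hd] at h8
          obtain ⟨d, rfl⟩ := hd
          rw [Nat.mul_div_cancel_left d (by norm_num)] at h8
          have h9 := ih d (by omega)
          rw [map_sub, coeff_one, if_neg (by omega), sub_zero] at h9
          have : coeff (2 * d) E = coeff d E + 16 * coeff (2 * d) y := by linarith
          rw [this]
          exact dvd_add h9 (dvd_mul_right _ _)
        · rw [if_neg hd, sub_zero] at h8
          rw [h8]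
          exact dvd_mul_right _ _
  obtain ⟨z', hz'⟩ := exists_of_dvd_coeff 16 (E - 1) h7
  refine ⟨z', ?_⟩
  have e16 : (C (16 : ℤ) : ℤ⟦X⟧) = 16 := by simp
  rw [e16] at hz'
  linear_combination hz'

/-- The main congruence. -/
lemma main_congr : ∃ z : ℤ⟦X⟧, comp 2 (comp 1 Dser) =
    12 * (Th * sg 6 ser_psi + 4 * dd Th * sg 6 ser_psi + 8 * Th * sg 6 (dd ser_psi)) + 192 * z := by
  obtain ⟨u, hu⟩ := c_eq_one_add
  obtain ⟨z1, h1⟩ := c_sq
  have h2 := congrArg (sg 3) h1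
  have e4 : sg 3 (4 : ℤ⟦X⟧) = 4 := map_ofNat _ 4
  have e4' : sg 6 (4 : ℤ⟦X⟧) = 4 := map_ofNat _ 4
  have e16 : sg 3 (16 : ℤ⟦X⟧) = 16 := map_ofNat _ 16
  rw [map_pow, map_add, map_sub, map_one, map_mul, map_mul, e4, e16] at h2
  have h3 := D2_eq'
  have hcu : IsUnit ser_c := isUnit_of_constantCoeff_one cc_c
  obtain ⟨v, hv⟩ := hcu.exists_left_inv
  -- `G = Θ ψ₆ a⁴ / c⁶`
  set W := Th * sg 6 ser_psi with hW
  set G := W * sg 3 ser_c ^ 4 * v ^ 6 with hG
  have hv6 : v ^ 6 * ser_c ^ 6 = 1 := by rw [← mul_pow, hv, one_pow]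
  have h4 : comp 2 (comp 1 Dser) = 12 * G := by
    rw [hG]
    linear_combination v ^ 6 * h3 - comp 2 (comp 1 Dser) * hv6
  have h8 : ser_c ^ 8 = 1 + 16 * (u + u ^ 2 + 6 * (u + u ^ 2) ^ 2 + 16 * (u + u ^ 2) ^ 3
      + 16 * (u + u ^ 2) ^ 4) := by
    rw [hu]; ring
  have h9 : G * ser_c ^ 6 = W * sg 3 ser_c ^ 4 := by
    rw [hG]
    linear_combination W * sg 3 ser_c ^ 4 * hv6
  have hpsi6 : sg 6 (dd ser_psi) = sg 6 ser_psi * (sg 6 LL - 4 * sg 12 LL) := by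
    rw [dd_psi, map_mul, map_sub, map_mul, e4', sg_sg 6 2 12 (by norm_num)]
  set T := Th * sg 6 ser_psi + 4 * dd Th * sg 6 ser_psi + 8 * Th * sg 6 (dd ser_psi) with hT
  have hTW : T = W * (1 - 4 * LL - 8 * sg 3 LL) + 16 * (W * (sg 2 LL + 2 * sg 3 LL + 6 * sg 12 LL
      - sg 4 LL - 7 * sg 6 LL - 2 * sg 12 LL)) := by
    rw [hT, hpsi6, dd_Th, hW]
    ring
  set Y := u + u ^ 2 + 6 * (u + u ^ 2) ^ 2 + 16 * (u + u ^ 2) ^ 3 + 16 * (u + u ^ 2) ^ 4 with hY
  refine ⟨-(G * Y) + W * (2 * LL * sg 3 LL + z1 * (sg 3 ser_c ^ 2) ^ 2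
    + (1 - 4 * LL) * (sg 3 LL ^ 2 + 2 * (1 - 4 * sg 3 LL) * sg 3 z1 + 16 * sg 3 z1 ^ 2))
    - (W * (sg 2 LL + 2 * sg 3 LL + 6 * sg 12 LL
      - sg 4 LL - 7 * sg 6 LL - 2 * sg 12 LL)), ?_⟩
  rw [h4, hTW]
  linear_combination (-12 * G) * h8 + 12 * ser_c ^ 2 * h9 + 12 * W * (sg 3 ser_c ^ 2) ^ 2 * h1
    + 12 * W * (1 - 4 * LL) * (sg 3 ser_c ^ 2 + (1 - 4 * sg 3 LL + 16 * sg 3 z1)) * h2

end Mod16

/-! ## Supports -/

section Support

lemma coeff_Th_ne {i : ℕ} (h : coeff i Th ≠ 0) : IsSquare (24 * i + 1) := by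
  by_contra hs
  apply h
  rw [Th, coeff_rescale, ser_P, coeff_mk, if_neg hs, mul_zero]

lemma coeff_psi_ne {j : ℕ} (h : coeff j ser_psi ≠ 0) : IsSquare (8 * j + 1) := by
  by_contra hs
  apply h
  rw [ser_psi, coeff_mk, if_neg hs]

lemma coeff_mul_eq_zero {g h : ℤ⟦X⟧} (hg : ∀ i, coeff i g ≠ 0 → IsSquare (24 * i + 1))
    (hh : ∀ j, coeff j h ≠ 0 → IsSquare (8 * j + 1)) (n : ℕ)
    (hn : ¬ ∃ x y : ℕ, x ^ 2 + 18 * y ^ 2 = 24 * n + 19) : coeff n (g * sg 6 h) = 0 := by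
  rw [coeff_mul]
  apply Finset.sum_eq_zero
  rintro ⟨i, j⟩ hij
  rw [Finset.HasAntidiagonal.mem_antidiagonal] at hij
  simp only at hij ⊢
  rw [coeff_sg]
  split_ifs with h6
  · by_contra hne
    obtain ⟨j', rfl⟩ := h6
    rw [Nat.mul_div_cancel_left j' (by norm_num)] at hne
    obtain ⟨x, hx⟩ := hg i (left_ne_zero_of_mul hne)
    obtain ⟨y, hy⟩ := hh j' (right_ne_zero_of_mul hne)
    apply hn
    refine ⟨x, y, ?_⟩
    rw [← hij]
    nlinarith
  · rw [mul_zero]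

lemma dvd_of_no_rep (n : ℕ) (hn : ¬ ∃ x y : ℕ, x ^ 2 + 18 * y ^ 2 = 24 * n + 19) :
    192 ∣ pedN (9 * n + 7) := by
  obtain ⟨z, hz⟩ := main_congr
  have h1 := congrArg (coeff n) hz
  have hTh : ∀ i, coeff i Th ≠ 0 → IsSquare (24 * i + 1) := fun i => coeff_Th_ne
  have hdTh : ∀ i, coeff i (dd Th) ≠ 0 → IsSquare (24 * i + 1) := by
    intro i hi
    rw [coeff_dd] at hi
    exact coeff_Th_ne (right_ne_zero_of_mul hi)
  have hpsi : ∀ j, coeff j ser_psi ≠ 0 → IsSquare (8 * j + 1) := fun j => coeff_psi_ne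
  have hdpsi : ∀ j, coeff j (dd ser_psi) ≠ 0 → IsSquare (8 * j + 1) := by
    intro j hj
    rw [coeff_dd] at hj
    exact coeff_psi_ne (right_ne_zero_of_mul hj)
  have a1 := coeff_mul_eq_zero hTh hpsi n hn
  have a2 := coeff_mul_eq_zero hdTh hpsi n hn
  have a3 := coeff_mul_eq_zero hTh hdpsi n hn
  have e1 : 12 * (Th * sg 6 ser_psi + 4 * dd Th * sg 6 ser_psi + 8 * Th * sg 6 (dd ser_psi))
      + 192 * z = C (12 : ℤ) * (Th * sg 6 ser_psi) + C (48 : ℤ) * (dd Th * sg 6 ser_psi)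
      + C (96 : ℤ) * (Th * sg 6 (dd ser_psi)) + C (192 : ℤ) * z := by
    simp only [map_ofNat]
    ring
  rw [e1, map_add, map_add, map_add, coeff_C_mul, coeff_C_mul, coeff_C_mul, coeff_C_mul, a1, a2,
    a3, coeff_comp, coeff_comp, Dser, coeff_mk] at h1
  have e2 : 3 * (3 * n + 2) + 1 = 9 * n + 7 := by ring
  rw [e2] at h1
  have h2 : (192 : ℤ) ∣ (pedN (9 * n + 7) : ℤ) := ⟨coeff n z, by rw [h1]; ring⟩
  exact_mod_cast h2

end Support

end Pool.Agent.Lib97
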