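import Pool.Agent.Lib_helper97.SepCube

/-!
Bounds for the separation distance of the example.
-/

namespace Pool.Agent.LazyWalk

open Filter Topology Finset

section Bounds

variable {N : ℕ} {J : Type} [AddCommGroup J] [Fintype J] [DecidableEq J]

omit [AddCommGroup J] [DecidableEq J] in
lemma card_cube : (Fintype.card ((Fin N → ZMod 2) × J) : ℝ) = 2 ^ N * (Fintype.card J : ℝ) := by
  rw [Fintype.card_prod, Fintype.card_pi]
  simp [ZMod.card]

omit [DecidableEq J] in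
lemma cube_reg (hN : 2 ≤ N) : Reg (cube N J hN) (cdeg N (Fintype.card J)) := by
  have h := cay_reg (cgen N J) cgen_neg (cgen_ne_zero hN) (cgen_injective hN)
  rw [card_gen] at h
  exact h

/-- The error coming from the auxiliary group. -/
noncomputable def err (N m t : ℕ) : ℝ := (1 / 2 * (1 + eta N m)) ^ t * (2 ^ N * (m : ℝ))

lemma density_sub_le (hN : 2 ≤ N) (t : ℕ) (x y : (Fin N → ZMod 2) × J) :
    |(Fintype.card ((Fin N → ZMod 2) × J) : ℝ) * stepProb (cube N J hN) t x y -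
      Dual.G N (eta N (Fintype.card J)) t (zeros (y - x).1)| ≤ err N (Fintype.card J) t := by
  have h1 := cay_stepProb_eq (cgen N J) cgen_neg (cgen_ne_zero hN) (cgen_injective hN) t x (y - x)
  rw [add_sub_cancel] at h1
  have h2 := deviation_le hN t (y - x).1 (y - x).2
  rw [card_cube]
  unfold cube err
  rw [h1]
  exact h2

lemma cube_expConv (hN : 4 ≤ N) :
    ExpConv (cube N J (by omega)) ((N : ℝ) / (N + 1)) := by
  have hN' : (4 : ℝ) ≤ N := by exact_mod_cast hN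
  have hJ : (1 : ℝ) ≤ Fintype.card J := by
    have : 0 < Fintype.card J := Fintype.card_pos_iff.2 ⟨0⟩
    exact_mod_cast this
  refine ⟨by positivity, ?_, 2 ^ N * (Fintype.card J : ℝ) + 2 ^ N * N, ?_⟩
  · rw [div_lt_one (by positivity)]
    linarith
  intro t x y
  have h1 := density_sub_le (J := J) (by omega : 2 ≤ N) t x y
  have h2 := Dual.G_sub_one_le (eta_nonneg N (Fintype.card J)) (eta_le_one N (Fintype.card J))
    (by omega : 0 < N) (zeros_le (y - x).1) t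
  have hη : eta N (Fintype.card J) ≤ 1 / 5 := by
    unfold eta cdeg
    push_cast
    rw [div_le_div_iff₀ (by positivity) (by norm_num)]
    nlinarith
  have hη0 := eta_nonneg N (Fintype.card J)
  have hρ : (4 : ℝ) / 5 ≤ (N : ℝ) / (N + 1) := by
    rw [div_le_div_iff₀ (by norm_num) (by positivity)]
    linarith
  have h3 : (1 / 2 * (1 + eta N (Fintype.card J))) ^ t ≤ ((N : ℝ) / (N + 1)) ^ t := by
    refine pow_le_pow_left₀ (by positivity) ?_ t
    linarith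
  have h4 : Dual.rho N (eta N (Fintype.card J)) 1 ≤ (N : ℝ) / (N + 1) := by
    unfold Dual.rho eta cdeg
    push_cast
    rw [sub_le_iff_le_add]
    have e : (N : ℝ) / (N + 1) + (1 - 1 / ((N : ℝ) * (Fintype.card J : ℝ) + 1)) * 1 / N - 1 =
      ((Fintype.card J : ℝ) - 1) / (((N : ℝ) + 1) * ((N : ℝ) * (Fintype.card J : ℝ) + 1)) := by
      field_simp
      ring
    have e2 : 0 ≤ ((Fintype.card J : ℝ) - 1) / (((N : ℝ) + 1) * ((N : ℝ) * (Fintype.card J : ℝ) + 1)) := by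
      apply div_nonneg
      · linarith
      · positivity
    linarith
  have h5 : Dual.rho N (eta N (Fintype.card J)) 1 ^ t ≤ ((N : ℝ) / (N + 1)) ^ t :=
    pow_le_pow_left₀ (Dual.rho_nonneg hη0 (eta_le_one _ _) (by omega) (by omega)) h4 t
  have h6 : |(Fintype.card ((Fin N → ZMod 2) × J) : ℝ) * stepProb (cube N J (by omega)) t x y - 1| ≤
      |(Fintype.card ((Fin N → ZMod 2) × J) : ℝ) * stepProb (cube N J (by omega)) t x y -
      Dual.G N (eta N (Fintype.card J)) t (zeros (y - x).1)| +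
      |Dual.G N (eta N (Fintype.card J)) t (zeros (y - x).1) - 1| := abs_sub_le _ _ _
  refine h6.trans ?_
  unfold err at h1
  have p1 : (0 : ℝ) ≤ 2 ^ N * (Fintype.card J : ℝ) := by positivity
  have p2 : (0 : ℝ) ≤ 2 ^ N * (N : ℝ) := by positivity
  have q1 := mul_le_mul_of_nonneg_right h3 p1
  have q2 := mul_le_mul_of_nonneg_left h5 p2
  linarith

lemma sepDist_cube_le {M : ℕ} (hM : 1 ≤ M) (t : ℕ) :
    sepDist (cube (2 * M) J (by omega)) t ≤
      (1 - eta (2 * M) (Fintype.card J)) ^ t +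
      (2 * (M : ℝ)) * (Dual.rho (2 * M) (eta (2 * M) (Fintype.card J)) 2) ^ t +
      (Dual.rho (2 * M) (eta (2 * M) (Fintype.card J)) 1) ^ t + err (2 * M) (Fintype.card J) t := by
  have : Nonempty ((Fin (2 * M) → ZMod 2) × J) := ⟨0⟩
  refine sepDist_le fun x y => ?_
  have h1 := density_sub_le (J := J) (by omega : 2 ≤ 2 * M) t x y
  have h2 := Dual.G_ge (eta_nonneg (2 * M) (Fintype.card J)) (eta_le_one (2 * M) (Fintype.card J))
    hM (zeros_le (y - x).1) t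
  rw [abs_le] at h1
  linarith [h1.1]

lemma exists_zeros_eq {n : ℕ} (hn : n ≤ N) : ∃ h : Fin N → ZMod 2, zeros h = n := by
  classical
  obtain ⟨S, _, hS⟩ := Finset.exists_subset_card_eq (s := (univ : Finset (Fin N))) (n := n) (by simpa using hn)
  refine ⟨fun i => if i ∈ S then 0 else 1, ?_⟩
  unfold zeros
  rw [← hS]
  congr 1
  ext i
  simp only [Finset.mem_filter, Finset.mem_univ, true_and]
  split_ifs with h
  · simp [h]
  · simp [h]

lemma le_sepDist_cube {M l : ℕ} (hM : 1 ≤ M) (hl : l ≤ M) (t : ℕ) :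
    1 - Real.cosh (2 * l * Dual.rho (2 * M) (eta (2 * M) (Fintype.card J)) 1 ^ t) +
      2 * l * ((1 - eta (2 * M) (Fintype.card J)) * (1 - 1 / (2 * M))) ^ t -
      err (2 * M) (Fintype.card J) t ≤ sepDist (cube (2 * M) J (by omega)) t := by
  obtain ⟨h, hh⟩ := exists_zeros_eq (N := 2 * M) (n := M - l) (by omega)
  have h1 := density_sub_le (J := J) (by omega : 2 ≤ 2 * M) t 0 (h, 0)
  have h2 := Dual.G_le (eta_nonneg (2 * M) (Fintype.card J)) (eta_le_one (2 * M) (Fintype.card J))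
    hM hl t
  have h3 := le_sepDist (G := cube (2 * M) J (by omega)) t 0 (h, 0)
  rw [sub_zero, hh, abs_le] at h1
  linarith [h1.2]

end Bounds

/-! ### Numerical estimates -/

section Numeric

lemma exp_neg_one_ge : (36787 / 100000 : ℝ) ≤ Real.exp (-1) := by
  rw [Real.exp_neg, le_inv_comm₀ (by norm_num) (Real.exp_pos _)]
  have := Real.exp_one_lt_d9
  norm_num
  linarith

lemma one_sub_pow_ge {q : ℕ} (hq : 0 < q) : Real.exp (-1) ≤ (1 - 1 / ((q : ℝ) + 1)) ^ q := by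
  have hq' : (0 : ℝ) < q := by positivity
  have h1 : (1 + 1 / (q : ℝ)) ^ q ≤ Real.exp 1 := by
    have h2 : 1 + 1 / (q : ℝ) ≤ Real.exp (1 / q) := by
      have := Real.add_one_le_exp (1 / (q : ℝ))
      linarith
    calc (1 + 1 / (q : ℝ)) ^ q ≤ (Real.exp (1 / q)) ^ q := pow_le_pow_left₀ (by positivity) h2 q
      _ = Real.exp 1 := by
          rw [← Real.exp_nat_mul]
          congr 1
          field_simp
  have h3 : 1 - 1 / ((q : ℝ) + 1) = (1 + 1 / (q : ℝ))⁻¹ := by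
    field_simp
    ring
  rw [h3, inv_pow, Real.exp_neg]
  exact inv_anti₀ (by positivity) h1

lemma one_sub_pow_le {x : ℝ} (hx : x ≤ 1) (t : ℕ) : (1 - x) ^ t ≤ Real.exp (-(x * t)) := by
  have h2 : 1 - x ≤ Real.exp (-x) := by
    have := Real.add_one_le_exp (-x)
    linarith
  calc (1 - x) ^ t ≤ (Real.exp (-x)) ^ t := pow_le_pow_left₀ (by linarith) h2 t
    _ = Real.exp (-(x * t)) := by
        rw [← Real.exp_nat_mul]
        congr 1
        ring

variable {k M : ℕ}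

lemma M_ge (hk : 8 ≤ k) (hM : 2 * M = 32 ^ k) : 1000 * k ≤ 2 * M := by
  rw [hM]
  have h1 : k < 2 ^ k := Nat.lt_two_pow_self
  have h2 : (32 : ℕ) ^ k = 16 ^ k * 2 ^ k := by
    rw [← mul_pow]
    norm_num
  have h3 : (16 : ℕ) ^ 8 ≤ 16 ^ k := Nat.pow_le_pow_right (by norm_num) hk
  have h4 : (1000 : ℕ) ≤ 16 ^ k := le_trans (by norm_num) h3
  rw [h2]
  exact Nat.mul_le_mul h4 h1.le

lemma M_pos (hk : 8 ≤ k) (hM : 2 * M = 32 ^ k) : 1 ≤ M := by
  have := M_ge hk hM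
  omega

lemma eta_eq (k M : ℕ) : eta (2 * M) (3 * k) = 1 / (((3 * (2 * M) * k : ℕ) : ℝ) + 1) := by
  unfold eta cdeg
  push_cast
  congr 1
  ring

lemma eta_small (hk : 8 ≤ k) (hM : 2 * M = 32 ^ k) : eta (2 * M) (3 * k) ≤ 1 / 100 := by
  rw [eta_eq]
  have h1 := M_ge hk hM
  have h2 : 100 ≤ 3 * (2 * M) * k := by nlinarith
  have h3 : (100 : ℝ) ≤ ((3 * (2 * M) * k : ℕ) : ℝ) := by exact_mod_cast h2
  apply one_div_le_one_div_of_le (by norm_num)
  linarith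

lemma boundA (hk : 8 ≤ k) (hM : 2 * M = 32 ^ k) :
    (1 - eta (2 * M) (3 * k)) ^ (2 * (2 * M) * k) ≤ 2 / 3 := by
  have h1 := one_sub_pow_le (eta_le_one (2 * M) (3 * k)) (2 * (2 * M) * k)
  refine h1.trans ?_
  have h2 : (1 : ℝ) / 2 ≤ eta (2 * M) (3 * k) * ((2 * (2 * M) * k : ℕ) : ℝ) := by
    rw [eta_eq, one_div_mul_eq_div, div_le_div_iff₀ (by norm_num) (by positivity)]
    have h3 := M_ge hk hM
    have h4 : 1 ≤ 2 * M * k := by nlinarith
    have h5 : (1 : ℝ) ≤ ((2 * M * k : ℕ) : ℝ) := by exact_mod_cast h4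
    push_cast at h5 ⊢
    linarith
  have h3 : Real.exp (-(eta (2 * M) (3 * k) * ((2 * (2 * M) * k : ℕ) : ℝ))) ≤ Real.exp (-(1 / 2)) :=
    Real.exp_le_exp.2 (by linarith)
  refine h3.trans ?_
  rw [Real.exp_neg, inv_le_comm₀ (Real.exp_pos _) (by norm_num)]
  have := Real.add_one_le_exp (1 / 2 : ℝ)
  linarith

lemma exp_39 : (49 : ℝ) ≤ Real.exp (39 / 10) := by
  have h1 : Real.exp (39 / 10) = Real.exp 1 ^ 4 * Real.exp (-(1 / 10)) := by
    rw [← Real.exp_nat_mul, ← Real.exp_add]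
    congr 1
    norm_num
  have h2 : (27 / 10 : ℝ) ≤ Real.exp 1 := by
    have := Real.exp_one_gt_d9
    linarith
  have h2' : (27182 / 10000 : ℝ) ≤ Real.exp 1 := by
    have := Real.exp_one_gt_d9
    linarith
  have h3 : (9 / 10 : ℝ) ≤ Real.exp (-(1 / 10)) := by
    have := Real.add_one_le_exp (-(1 / 10) : ℝ)
    linarith
  rw [h1]
  have h4 : (27182 / 10000 : ℝ) ^ 4 ≤ Real.exp 1 ^ 4 := pow_le_pow_left₀ (by norm_num) h2' 4
  calc (49 : ℝ) ≤ (27182 / 10000 : ℝ) ^ 4 * (9 / 10) := by norm_num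
    _ ≤ Real.exp 1 ^ 4 * Real.exp (-(1 / 10)) := mul_le_mul h4 h3 (by norm_num) (by positivity)

lemma boundB (hk : 8 ≤ k) (hM : 2 * M = 32 ^ k) :
    (2 * (M : ℝ)) * (Dual.rho (2 * M) (eta (2 * M) (3 * k)) 2) ^ (2 * (2 * M) * k) ≤ 1 / 25 := by
  have hMp : (1 : ℝ) ≤ M := by exact_mod_cast M_pos hk hM
  have hη := eta_small hk hM
  have hη0 := eta_nonneg (2 * M) (3 * k)
  have hx : (1 - eta (2 * M) (3 * k)) * ((2 : ℕ) : ℝ) / ((2 * M : ℕ) : ℝ) ≤ 1 := by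
    rw [div_le_one (by push_cast; linarith)]
    push_cast
    linarith
  have h1 := one_sub_pow_le hx (2 * (2 * M) * k)
  have h2 : (1 - eta (2 * M) (3 * k)) * ((2 : ℕ) : ℝ) / ((2 * M : ℕ) : ℝ) * ((2 * (2 * M) * k : ℕ) : ℝ) =
      4 * (1 - eta (2 * M) (3 * k)) * k := by
    push_cast
    field_simp
    ring
  rw [h2] at h1
  have h3 : Real.exp (-(4 * (1 - eta (2 * M) (3 * k)) * k)) ≤ (1 / 49 : ℝ) ^ k := by
    have h4 : Real.exp (-(4 * (1 - eta (2 * M) (3 * k)) * k)) ≤ Real.exp (-(39 / 10 * k)) := by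
      apply Real.exp_le_exp.2
      have : (0 : ℝ) ≤ k := by positivity
      nlinarith
    refine h4.trans ?_
    have h5 : Real.exp (-(39 / 10 * k)) = (Real.exp (39 / 10))⁻¹ ^ k := by
      rw [Real.exp_neg, inv_pow, ← Real.exp_nat_mul]
      congr 2
      ring
    rw [h5]
    apply pow_le_pow_left₀ (by positivity)
    rw [one_div]
    exact inv_anti₀ (by norm_num) exp_39
  have h6 : Dual.rho (2 * M) (eta (2 * M) (3 * k)) 2 ^ (2 * (2 * M) * k) ≤ (1 / 49 : ℝ) ^ k := h1.trans h3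
  have h7 : 2 * (M : ℝ) = 32 ^ k := by exact_mod_cast hM
  rw [h7]
  calc (32 : ℝ) ^ k * Dual.rho (2 * M) (eta (2 * M) (3 * k)) 2 ^ (2 * (2 * M) * k) ≤ 32 ^ k * (1 / 49 : ℝ) ^ k :=
        mul_le_mul_of_nonneg_left h6 (by positivity)
    _ = (32 / 49 : ℝ) ^ k := by rw [← mul_pow]; norm_num
    _ ≤ (32 / 49 : ℝ) ^ 8 := pow_le_pow_of_le_one (by norm_num) (by norm_num) hk
    _ ≤ 1 / 25 := by norm_num

lemma rho1_pow_le (hk : 8 ≤ k) (hM : 2 * M = 32 ^ k) {t : ℕ} (ht : 2 * (2 * M) * k ≤ t) :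
    (Dual.rho (2 * M) (eta (2 * M) (3 * k)) 1) ^ t ≤ 1 / 256 := by
  have hMp : (1 : ℝ) ≤ M := by exact_mod_cast M_pos hk hM
  have hη := eta_small hk hM
  have hη0 := eta_nonneg (2 * M) (3 * k)
  have hx : (1 - eta (2 * M) (3 * k)) * ((1 : ℕ) : ℝ) / ((2 * M : ℕ) : ℝ) ≤ 1 := by
    rw [div_le_one (by push_cast; linarith)]
    push_cast
    linarith
  have h1 := one_sub_pow_le hx t
  have h2 : (k : ℝ) ≤ (1 - eta (2 * M) (3 * k)) * ((1 : ℕ) : ℝ) / ((2 * M : ℕ) : ℝ) * (t : ℝ) := by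
    have ht' : (2 * (2 * M) * k : ℝ) ≤ t := by exact_mod_cast ht
    have e : (1 - eta (2 * M) (3 * k)) * ((1 : ℕ) : ℝ) / ((2 * M : ℕ) : ℝ) * (t : ℝ) ≥
        (1 - eta (2 * M) (3 * k)) * ((1 : ℕ) : ℝ) / ((2 * M : ℕ) : ℝ) * (2 * (2 * M) * k) := by
      apply mul_le_mul_of_nonneg_left ht'
      apply div_nonneg _ (by positivity)
      push_cast
      linarith
    have e2 : (1 - eta (2 * M) (3 * k)) * ((1 : ℕ) : ℝ) / ((2 * M : ℕ) : ℝ) * (2 * (2 * M) * k) =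
        2 * (1 - eta (2 * M) (3 * k)) * k := by
      push_cast
      field_simp
    have : (0 : ℝ) ≤ k := by positivity
    nlinarith
  have h3 : Real.exp (-((1 - eta (2 * M) (3 * k)) * ((1 : ℕ) : ℝ) / ((2 * M : ℕ) : ℝ) * (t : ℝ))) ≤
      Real.exp (-(k : ℝ)) := Real.exp_le_exp.2 (by linarith)
  have h4 : Real.exp (-(k : ℝ)) ≤ (1 / 2 : ℝ) ^ k := by
    have h5 : Real.exp (-(k : ℝ)) = (Real.exp 1)⁻¹ ^ k := by
      rw [Real.exp_neg, inv_pow, ← Real.exp_nat_mul, mul_one]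
    rw [h5]
    apply pow_le_pow_left₀ (by positivity)
    rw [one_div]
    apply inv_anti₀ (by norm_num)
    have := Real.add_one_le_exp (1 : ℝ)
    linarith
  have h5 : (1 / 2 : ℝ) ^ k ≤ (1 / 2 : ℝ) ^ 8 := pow_le_pow_of_le_one (by norm_num) (by norm_num) hk
  have h6 : (1 / 2 : ℝ) ^ 8 = 1 / 256 := by norm_num
  calc (Dual.rho (2 * M) (eta (2 * M) (3 * k)) 1) ^ t ≤ _ := h1
    _ ≤ _ := h3
    _ ≤ _ := h4
    _ ≤ _ := h5
    _ = _ := h6

lemma err_le (hk : 8 ≤ k) (hM : 2 * M = 32 ^ k) {t : ℕ} (ht : 2 * (2 * M) * k ≤ t) :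
    err (2 * M) (3 * k) t ≤ 1 / 300 := by
  have hη := eta_small hk hM
  have hη0 := eta_nonneg (2 * M) (3 * k)
  unfold err
  have h1 : (1 / 2 * (1 + eta (2 * M) (3 * k))) ^ t ≤ (3 / 4 : ℝ) ^ (16 * (2 * M)) := by
    calc (1 / 2 * (1 + eta (2 * M) (3 * k))) ^ t ≤ (3 / 4 : ℝ) ^ t := by
          apply pow_le_pow_left₀ (by positivity)
          linarith
      _ ≤ (3 / 4 : ℝ) ^ (16 * (2 * M)) := by
          apply pow_le_pow_of_le_one (by norm_num) (by norm_num)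
          nlinarith
  have h2 : (3 / 4 : ℝ) ^ (16 * (2 * M)) * 2 ^ (2 * M) ≤ (1 / 2) ^ (2 * M) := by
    rw [pow_mul, ← mul_pow]
    apply pow_le_pow_left₀ (by positivity)
    norm_num
  have h3 : (1 / 2 : ℝ) ^ (2 * M) * (3 * k) ≤ 1 / 300 := by
    have h4 := M_ge hk hM
    have h5 : (2 * M) < 2 ^ (2 * M) := Nat.lt_two_pow_self
    have h6 : 1000 * k ≤ 2 ^ (2 * M) := by omega
    have h7 : (1000 * k : ℝ) ≤ 2 ^ (2 * M) := by exact_mod_cast h6
    rw [one_div_pow, one_div_mul_eq_div, div_le_div_iff₀ (by positivity) (by norm_num)]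
    have : (0 : ℝ) ≤ k := by positivity
    linarith
  have h4 : (0 : ℝ) ≤ 3 * k := by positivity
  push_cast
  calc (1 / 2 * (1 + eta (2 * M) (3 * k))) ^ t * (2 ^ (2 * M) * (3 * (k : ℝ)))
      = ((1 / 2 * (1 + eta (2 * M) (3 * k))) ^ t * 2 ^ (2 * M)) * (3 * (k : ℝ)) := by ring
    _ ≤ ((3 / 4 : ℝ) ^ (16 * (2 * M)) * 2 ^ (2 * M)) * (3 * (k : ℝ)) := by
        apply mul_le_mul_of_nonneg_right _ h4
        exact mul_le_mul_of_nonneg_right h1 (by positivity)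
    _ ≤ ((1 / 2) ^ (2 * M)) * (3 * (k : ℝ)) := mul_le_mul_of_nonneg_right h2 h4
    _ ≤ 1 / 300 := h3

/-- The separation distance has dropped below `39/40` at time `2 N k`. -/
lemma sep_upper (hk : 8 ≤ k) (hM : 2 * M = 32 ^ k) :
    (1 - eta (2 * M) (3 * k)) ^ (2 * (2 * M) * k) +
      (2 * (M : ℝ)) * (Dual.rho (2 * M) (eta (2 * M) (3 * k)) 2) ^ (2 * (2 * M) * k) +
      (Dual.rho (2 * M) (eta (2 * M) (3 * k)) 1) ^ (2 * (2 * M) * k) +
      err (2 * M) (3 * k) (2 * (2 * M) * k) ≤ 39 / 40 := by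
  have a1 := boundA hk hM
  have a2 := boundB hk hM
  have a3 := rho1_pow_le hk hM le_rfl
  have a4 := err_le hk hM le_rfl
  linarith

lemma rho1_pow_ge (hk : 8 ≤ k) (hM : 2 * M = 32 ^ k) :
    (1 / 24 : ℝ) ^ k ≤ (Dual.rho (2 * M) (eta (2 * M) (3 * k)) 1) ^ (3 * (2 * M) * k) := by
  have hη0 := eta_nonneg (2 * M) (3 * k)
  have hM1 := M_ge hk hM
  have hMr : (8000 : ℝ) ≤ 2 * M := by
    have : 8000 ≤ 2 * M := by omega
    exact_mod_cast this
  have h1 : 1 - 1 / (2 * (M : ℝ)) ≤ Dual.rho (2 * M) (eta (2 * M) (3 * k)) 1 := by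
    unfold Dual.rho
    push_cast
    have : 0 ≤ eta (2 * M) (3 * k) / (2 * M) := by positivity
    rw [mul_one, sub_div]
    linarith
  have h0 : 0 ≤ 1 - 1 / (2 * (M : ℝ)) := by
    rw [sub_nonneg, div_le_one (by linarith)]
    linarith
  have h2 := pow_le_pow_left₀ h0 h1 (3 * (2 * M) * k)
  refine le_trans ?_ h2
  have h3 : (36 / 100 : ℝ) ≤ (1 - 1 / (2 * (M : ℝ))) ^ (2 * M) := by
    have h4 := one_sub_pow_ge (q := 2 * M - 1) (by omega)
    have h5 : (((2 * M - 1 : ℕ)) : ℝ) + 1 = 2 * M := by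
      rw [Nat.cast_sub (by omega)]
      push_cast
      ring
    rw [h5] at h4
    have h6 : (1 - 1 / (2 * (M : ℝ))) ^ (2 * M) = (1 - 1 / (2 * (M : ℝ))) ^ (2 * M - 1) * (1 - 1 / (2 * (M : ℝ))) := by
      rw [← pow_succ]
      congr 1
      omega
    have h7 : (99 / 100 : ℝ) ≤ 1 - 1 / (2 * (M : ℝ)) := by
      have : 1 / (2 * (M : ℝ)) ≤ 1 / 8000 := one_div_le_one_div_of_le (by norm_num) hMr
      linarith
    have h8 := exp_neg_one_ge
    rw [h6]
    have h9 := mul_le_mul (h8.trans h4) h7 (by norm_num) (pow_nonneg h0 _)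
    linarith
  have e : 3 * (2 * M) * k = (2 * M) * (3 * k) := by ring
  rw [e, pow_mul, pow_mul]
  have h4 : (1 / 24 : ℝ) ≤ ((1 - 1 / (2 * (M : ℝ))) ^ (2 * M)) ^ 3 := by
    calc (1 / 24 : ℝ) ≤ (36 / 100) ^ 3 := by norm_num
      _ ≤ _ := pow_le_pow_left₀ (by norm_num) h3 3
  exact pow_le_pow_left₀ (by norm_num) h4 k

lemma second_ge (hk : 8 ≤ k) (hM : 2 * M = 32 ^ k) :
    36 / 100 * (Dual.rho (2 * M) (eta (2 * M) (3 * k)) 1) ^ (3 * (2 * M) * k) ≤
      ((1 - eta (2 * M) (3 * k)) * (1 - 1 / (2 * M))) ^ (3 * (2 * M) * k) := by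
  have hη := eta_small hk hM
  have hη0 := eta_nonneg (2 * M) (3 * k)
  have hM1 := M_ge hk hM
  have hMr : (8000 : ℝ) ≤ 2 * M := by
    have : 8000 ≤ 2 * M := by omega
    exact_mod_cast this
  have h0 : 0 ≤ 1 - 1 / (2 * (M : ℝ)) := by
    rw [sub_nonneg, div_le_one (by linarith)]
    linarith
  rw [mul_pow]
  have h1 : Real.exp (-1) ≤ (1 - eta (2 * M) (3 * k)) ^ (3 * (2 * M) * k) := by
    rw [eta_eq]
    apply one_sub_pow_ge
    have : 0 < 3 * (2 * M) := by omega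
    exact Nat.mul_pos this (by omega)
  obtain ⟨η, hηdef⟩ : ∃ η, η = eta (2 * M) (3 * k) := ⟨_, rfl⟩
  obtain ⟨N, hNdef⟩ : ∃ N : ℝ, N = 2 * (M : ℝ) := ⟨_, rfl⟩
  obtain ⟨ρ, hρdef⟩ : ∃ ρ, ρ = Dual.rho (2 * M) (eta (2 * M) (3 * k)) 1 := ⟨_, rfl⟩
  have hρ : ρ = 1 - 1 / N + η / N := by
    rw [hρdef, hηdef, hNdef]
    unfold Dual.rho
    push_cast
    ring
  rw [← hNdef] at hMr h0
  rw [← hηdef] at hη hη0
  have hN0 : (0 : ℝ) < N := by linarith
  have hηN : 0 ≤ η / N := by positivity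
  have hηN' : η / N ≤ 1 := by
    rw [div_le_one hN0]
    linarith
  have hρ0 : 1 / 2 ≤ ρ := by
    have : 1 / N ≤ 1 / 8000 := one_div_le_one_div_of_le (by norm_num) hMr
    rw [hρ]
    linarith
  have h2 : (1 - 2 * (η / N)) * ρ ≤ 1 - 1 / N := by
    have h3 : (1 - 2 * (η / N)) * ρ = ρ - 2 * (η / N) * ρ := by ring
    have h4 : (η / N) ≤ 2 * (η / N) * ρ := by nlinarith
    rw [h3]
    have h5 : ρ = (1 - 1 / N) + η / N := hρ
    linarith
  have h12 : 0 ≤ 1 - 2 * (η / N) := by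
    have : η / N ≤ 1 / 100 := by
      rw [div_le_iff₀ hN0]
      linarith
    linarith
  have h3 : ((1 - 2 * (η / N)) * ρ) ^ (3 * (2 * M) * k) ≤ (1 - 1 / N) ^ (3 * (2 * M) * k) :=
    pow_le_pow_left₀ (mul_nonneg h12 (by linarith)) h2 _
  rw [mul_pow] at h3
  have h4 : 99 / 100 ≤ (1 - 2 * (η / N)) ^ (3 * (2 * M) * k) := by
    have h5 := one_add_mul_le_pow (by linarith : (-2 : ℝ) ≤ -(2 * (η / N))) (3 * (2 * M) * k)
    rw [← sub_eq_add_neg] at h5
    refine le_trans ?_ h5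
    have h6 : η * ((3 * (2 * M) * k : ℕ) : ℝ) ≤ 1 := by
      rw [hηdef, eta_eq, one_div_mul_eq_div, div_le_one (by positivity)]
      linarith
    have h7 : ((3 * (2 * M) * k : ℕ) : ℝ) * -(2 * (η / N)) = -(2 * ((η * ((3 * (2 * M) * k : ℕ) : ℝ)) / N)) := by ring
    rw [h7]
    have h8 : (η * ((3 * (2 * M) * k : ℕ) : ℝ)) / N ≤ 1 / 8000 := by
      rw [div_le_div_iff₀ hN0 (by norm_num)]
      linarith
    linarith
  have hρp : 0 ≤ ρ ^ (3 * (2 * M) * k) := pow_nonneg (by linarith) _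
  have h5 : 99 / 100 * ρ ^ (3 * (2 * M) * k) ≤ (1 - 1 / N) ^ (3 * (2 * M) * k) :=
    (mul_le_mul_of_nonneg_right h4 hρp).trans h3
  rw [← hρdef, ← hηdef, ← hNdef]
  rw [← hηdef] at h1
  have h6 := exp_neg_one_ge.trans h1
  have h7 := mul_le_mul h6 h5 (by positivity) (by linarith)
  linarith

/-- The separation distance is still above `1/40` at time `3 N k`. -/
lemma sep_lower (hk : 8 ≤ k) (hM : 2 * M = 32 ^ k) :
    ∃ l ≤ M, 1 / 40 < 1 - Real.cosh (2 * l * Dual.rho (2 * M) (eta (2 * M) (3 * k)) 1 ^ (3 * (2 * M) * k)) +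
      2 * l * ((1 - eta (2 * M) (3 * k)) * (1 - 1 / (2 * M))) ^ (3 * (2 * M) * k) -
      err (2 * M) (3 * k) (3 * (2 * M) * k) := by
  have g1 := rho1_pow_ge hk hM
  have g2 := rho1_pow_le hk hM (t := 3 * (2 * M) * k) (by nlinarith)
  have g3 := second_ge hk hM
  have g4 := err_le hk hM (t := 3 * (2 * M) * k) (by nlinarith)
  obtain ⟨R, hR⟩ : ∃ R, R = Dual.rho (2 * M) (eta (2 * M) (3 * k)) 1 ^ (3 * (2 * M) * k) := ⟨_, rfl⟩
  rw [← hR] at g1 g2 g3 ⊢
  have hRpos : 0 < R := lt_of_lt_of_le (by positivity) g1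
  refine ⟨⌈1 / (10 * R)⌉₊, ?_, ?_⟩
  · -- l ≤ M
    have h1 : 1 / (10 * R) ≤ M := by
      have h2 : 1 / R ≤ (24 : ℝ) ^ k := by
        rw [div_le_iff₀ hRpos]
        have h3 : (24 : ℝ) ^ k * (1 / 24) ^ k = 1 := by
          rw [← mul_pow]
          norm_num
        rw [← h3]
        exact mul_le_mul_of_nonneg_left g1 (by positivity)
      have h4 : (24 : ℝ) ^ k ≤ 2 * M := by
        have : 2 * (M : ℝ) = 32 ^ k := by exact_mod_cast hM
        rw [this]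
        exact pow_le_pow_left₀ (by norm_num) (by norm_num) k
      have h5 : 1 / (10 * R) = (1 / R) / 10 := by
        field_simp
      rw [h5]
      have hM0 : (0 : ℝ) ≤ M := by positivity
      linarith
    exact Nat.ceil_le.2 h1
  · obtain ⟨l, hl⟩ : ∃ l : ℕ, l = ⌈1 / (10 * R)⌉₊ := ⟨_, rfl⟩
    rw [← hl]
    have l1 : 1 / (10 * R) ≤ l := by rw [hl]; exact Nat.le_ceil _
    have l2 : (l : ℝ) < 1 / (10 * R) + 1 := by rw [hl]; exact Nat.ceil_lt_add_one (by positivity)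
    have a1 : 1 / 5 ≤ 2 * l * R := by
      have := mul_le_mul_of_nonneg_right l1 (by positivity : 0 ≤ 2 * R)
      have e : 1 / (10 * R) * (2 * R) = 1 / 5 := by field_simp; norm_num
      rw [e] at this
      linarith
    have a2 : 2 * l * R ≤ 3 / 10 := by
      have := mul_le_mul_of_nonneg_right l2.le (by positivity : 0 ≤ 2 * R)
      have e : (1 / (10 * R) + 1) * (2 * R) = 1 / 5 + 2 * R := by field_simp; ring
      rw [e] at this
      linarith
    obtain ⟨a, ha⟩ : ∃ a : ℝ, a = 2 * l * R := ⟨_, rfl⟩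
    rw [← ha] at a1 a2 ⊢
    have hl0 : (0 : ℝ) ≤ l := by positivity
    have b1 : 36 / 100 * a ≤ 2 * l * ((1 - eta (2 * M) (3 * k)) * (1 - 1 / (2 * M))) ^ (3 * (2 * M) * k) := by
      have := mul_le_mul_of_nonneg_left g3 (by positivity : (0 : ℝ) ≤ 2 * l)
      rw [ha]
      linarith
    have b2 : Real.cosh a ≤ 1 / (1 - a ^ 2 / 2) := by
      refine (Real.cosh_le_exp_half_sq a).trans ?_
      have h1 : a ^ 2 / 2 < 1 := by nlinarith
      exact Real.exp_bound_div_one_sub_of_interval (by positivity) h1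
    have b3 : 1 / (1 - a ^ 2 / 2) ≤ 1 + 11 / 20 * a ^ 2 := by
      have h1 : 0 < 1 - a ^ 2 / 2 := by nlinarith
      rw [div_le_iff₀ h1]
      have hs : a ^ 2 ≤ 9 / 100 := by nlinarith
      have hs0 : 0 ≤ a ^ 2 := sq_nonneg a
      nlinarith [mul_nonneg hs0 (sub_nonneg.2 hs)]
    nlinarith

end Numeric

end Pool.Agent.LazyWalk
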