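import Mathlib

/-!
The dual chain of the weight process of the hypercube walk with a rare antipodal move.
-/

namespace Pool.Agent.LazyWalk.Dual

open Finset

/-- One step of the dual chain, acting on functions of (number of coordinates not refreshed,
whether a rare refresh of the antipodal map has occurred). -/
noncomputable def Lm (N : ℕ) (η : ℝ) : (ℕ → Bool → ℝ) →ₗ[ℝ] (ℕ → Bool → ℝ) where
  toFun ψ := fun U g =>
    (1 - η) * ((1 - (U : ℝ) / N) * ψ U g + ((U : ℝ) / N) * ψ (U - 1) g) + η * ψ U true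
  map_add' ψ χ := by
    funext U g
    simp only [Pi.add_apply]
    ring
  map_smul' c ψ := by
    funext U g
    simp only [Pi.smul_apply, smul_eq_mul, RingHom.id_apply]
    ring

lemma Lm_apply (N : ℕ) (η : ℝ) (ψ : ℕ → Bool → ℝ) (U : ℕ) (g : Bool) : Lm N η ψ U g =
    (1 - η) * ((1 - (U : ℝ) / N) * ψ U g + ((U : ℝ) / N) * ψ (U - 1) g) + η * ψ U true := rfl

lemma Lm_pow_succ (N : ℕ) (η : ℝ) (t : ℕ) (ψ : ℕ → Bool → ℝ) :
    ((Lm N η) ^ (t + 1)) ψ = ((Lm N η) ^ t) (Lm N η ψ) := by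
  rw [pow_succ]
  rfl

lemma Lm_pow_succ' (N : ℕ) (η : ℝ) (t : ℕ) (ψ : ℕ → Bool → ℝ) :
    ((Lm N η) ^ (t + 1)) ψ = Lm N η (((Lm N η) ^ t) ψ) := by
  rw [pow_succ']
  rfl

lemma Lm_pow_eigen {N : ℕ} {η c : ℝ} {ψ : ℕ → Bool → ℝ} (h : Lm N η ψ = c • ψ) (t : ℕ) :
    ((Lm N η) ^ t) ψ = (c ^ t) • ψ := by
  induction t with
  | zero => simp
  | succ t ih => rw [Lm_pow_succ, h, map_smul, ih, smul_smul, pow_succ, mul_comm]

lemma Lm_mono {N : ℕ} {η : ℝ} (h0 : 0 ≤ η) (h1 : η ≤ 1) {ψ χ : ℕ → Bool → ℝ}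
    (h : ∀ U ≤ N, ∀ g, ψ U g ≤ χ U g) : ∀ U ≤ N, ∀ g, Lm N η ψ U g ≤ Lm N η χ U g := by
  intro U hU g
  rw [Lm_apply, Lm_apply]
  have hN : (0 : ℝ) ≤ N := by positivity
  have a1 : 0 ≤ (U : ℝ) / N := by positivity
  have a2 : (U : ℝ) / N ≤ 1 := by
    apply div_le_one_of_le₀ _ hN
    exact_mod_cast hU
  have b1 := h U hU g
  have b2 := h (U - 1) (by omega) g
  have b3 := h U hU true
  have c1 : (1 - (U : ℝ) / N) * ψ U g ≤ (1 - (U : ℝ) / N) * χ U g :=
    mul_le_mul_of_nonneg_left b1 (by linarith)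
  have c2 : ((U : ℝ) / N) * ψ (U - 1) g ≤ ((U : ℝ) / N) * χ (U - 1) g :=
    mul_le_mul_of_nonneg_left b2 a1
  have c3 : η * ψ U true ≤ η * χ U true := mul_le_mul_of_nonneg_left b3 h0
  have c4 := mul_le_mul_of_nonneg_left (add_le_add c1 c2) (by linarith : (0 : ℝ) ≤ 1 - η)
  linarith

lemma Lm_pow_mono {N : ℕ} {η : ℝ} (h0 : 0 ≤ η) (h1 : η ≤ 1) {ψ χ : ℕ → Bool → ℝ}
    (h : ∀ U ≤ N, ∀ g, ψ U g ≤ χ U g) (t : ℕ) :
    ∀ U ≤ N, ∀ g, ((Lm N η) ^ t) ψ U g ≤ ((Lm N η) ^ t) χ U g := by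
  induction t with
  | zero => simpa using h
  | succ t ih =>
    rw [Lm_pow_succ', Lm_pow_succ']
    exact Lm_mono h0 h1 ih

lemma Lm_pow_congr {N : ℕ} {η : ℝ} (h0 : 0 ≤ η) (h1 : η ≤ 1) {ψ χ : ℕ → Bool → ℝ}
    (h : ∀ U ≤ N, ∀ g, ψ U g = χ U g) (t : ℕ) :
    ∀ U ≤ N, ∀ g, ((Lm N η) ^ t) ψ U g = ((Lm N η) ^ t) χ U g := by
  intro U hU g
  exact le_antisymm (Lm_pow_mono h0 h1 (fun U hU g => (h U hU g).le) t U hU g)
    (Lm_pow_mono h0 h1 (fun U hU g => (h U hU g).ge) t U hU g)

/-! ### Eigenfunctions -/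

/-- `U ↦ C(U,r)`. -/
noncomputable def ch (r : ℕ) : ℕ → Bool → ℝ := fun U _ => (U.choose r : ℝ)

lemma Lm_ch {N : ℕ} (hN : 0 < N) (η : ℝ) (r : ℕ) :
    Lm N η (ch r) = (1 - (1 - η) * r / N) • ch r := by
  funext U g
  have hN' : (N : ℝ) ≠ 0 := by positivity
  simp only [Lm_apply, ch, Pi.smul_apply, smul_eq_mul]
  have key : (U : ℝ) * ((U - 1).choose r : ℝ) = ((U : ℝ) - r) * (U.choose r : ℝ) := by
    rcases U with _ | U
    · rcases r with _ | r
      · simp
      · simp
    · rw [Nat.add_sub_cancel]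
      have := Nat.choose_mul_succ_eq U r
      rcases le_or_gt r (U + 1) with h | h
      · have h2 : ((U.choose r : ℕ) : ℝ) * ((U : ℝ) + 1) = ((U + 1).choose r : ℝ) * (((U : ℝ) + 1) - r) := by
          have h3 : (((U + 1 - r : ℕ)) : ℝ) = ((U : ℝ) + 1) - r := by
            rw [Nat.cast_sub h]; push_cast; ring
          rw [← h3]
          exact_mod_cast this
        push_cast
        linarith
      · rw [Nat.choose_eq_zero_of_lt h, Nat.choose_eq_zero_of_lt (by omega)]
        simp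
  have e : (1 - η) * ((1 - (U : ℝ) / N) * (U.choose r : ℝ) + ((U : ℝ) / N) * ((U - 1).choose r : ℝ)) =
      (1 - η) * ((1 - (U : ℝ) / N) * (U.choose r : ℝ) + (((U : ℝ) - r) * (U.choose r : ℝ)) / N) := by
    rw [← key]; ring
  rw [e]
  field_simp
  ring

/-- Indicator that no rare event has occurred, times `C(U,r)`. -/
noncomputable def ch0 (r : ℕ) : ℕ → Bool → ℝ := fun U g => if g = true then 0 else (U.choose r : ℝ)

lemma Lm_ch0 {N : ℕ} (hN : 0 < N) (η : ℝ) (r : ℕ) :
    Lm N η (ch0 r) = ((1 - η) * (1 - r / N)) • ch0 r := by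
  funext U g
  have hN' : (N : ℝ) ≠ 0 := by positivity
  cases g with
  | true => simp [Lm_apply, ch0]
  | false =>
    have h1 := congrFun (congrFun (Lm_ch hN η r) U) false
    simp only [Lm_apply, ch, Pi.smul_apply, smul_eq_mul] at h1
    simp only [Lm_apply, ch0, Pi.smul_apply, smul_eq_mul, if_true, Bool.false_eq_true, if_false]
    have h2 : (1 - (1 - η) * (r : ℝ) / N) * (U.choose r : ℝ) - η * (U.choose r : ℝ) =
      (1 - η) * (1 - r / N) * (U.choose r : ℝ) := by
      field_simp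
      ring
    rw [← h2, ← h1]
    ring

lemma Lm_pow_ch {N : ℕ} (hN : 0 < N) (η : ℝ) (r t : ℕ) (g : Bool) :
    ((Lm N η) ^ t) (ch r) N g = (1 - (1 - η) * r / N) ^ t * (N.choose r : ℝ) := by
  rw [Lm_pow_eigen (Lm_ch hN η r)]
  rfl

lemma Lm_pow_ch0 {N : ℕ} (hN : 0 < N) (η : ℝ) (r t : ℕ) :
    ((Lm N η) ^ t) (ch0 r) N false = ((1 - η) * (1 - r / N)) ^ t * (N.choose r : ℝ) := by
  rw [Lm_pow_eigen (Lm_ch0 hN η r)]
  rfl

/-! ### The kernel functions -/

/-- Density at a configuration with `n` zero coordinates given that a uniformly random set of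
`U` coordinates has not been refreshed. -/
noncomputable def phi (N U n : ℕ) : ℝ := 2 ^ U * (n.choose U : ℝ) / (N.choose U : ℝ)

/-- Joint version with the rare antipodal refresh. -/
noncomputable def Phi (N n : ℕ) : ℕ → Bool → ℝ := fun U g =>
  if g = true then (phi N U n + phi N U (N - n)) / 2 else phi N U n

lemma phi_nonneg (N U n : ℕ) : 0 ≤ phi N U n := by
  unfold phi
  positivity

lemma phi_le {N U n : ℕ} (hU : U ≤ N) (hn : n ≤ N) : phi N U n ≤ 2 ^ U := by
  unfold phi
  have h1 : (0 : ℝ) < (N.choose U : ℝ) := by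
    exact_mod_cast Nat.choose_pos hU
  rw [div_le_iff₀ h1]
  refine mul_le_mul_of_nonneg_left ?_ (by positivity)
  exact_mod_cast Nat.choose_le_choose U hn

lemma phi_zero (N n : ℕ) : phi N 0 n = 1 := by
  unfold phi
  simp

lemma phi_top {N n : ℕ} (hn : n ≤ N) : phi N N n = if n = N then 2 ^ N else 0 := by
  unfold phi
  split_ifs with h
  · rw [h]; simp
  · rw [Nat.choose_eq_zero_of_lt (by omega : n < N)]
    simp

/-- One-step identity for `phi` (expected value after refreshing a random coordinate). -/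
lemma phi_step {N U n : ℕ} (hN : 0 < N) (hU : U ≤ N) :
    (1 / 2) * phi N U n + (1 / (2 * N)) * ((n : ℝ) * phi N U (n - 1) + ((N : ℝ) - n) * phi N U (n + 1)) =
      (1 - (U : ℝ) / N) * phi N U n + ((U : ℝ) / N) * phi N (U - 1) n := by
  have hN' : (N : ℝ) ≠ 0 := by positivity
  have hc : ((N.choose U : ℕ) : ℝ) ≠ 0 := by
    have := Nat.choose_pos hU
    positivity
  -- n * C(n-1,U) = (n-U) * C(n,U)
  have k1 : (n : ℝ) * ((n - 1).choose U : ℝ) = ((n : ℝ) - U) * (n.choose U : ℝ) := by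
    rcases n with _ | n
    · rcases U with _ | U
      · simp
      · simp
    · rw [Nat.add_sub_cancel]
      have := Nat.choose_mul_succ_eq n U
      rcases le_or_gt U (n + 1) with h | h
      · have h2 : ((n.choose U : ℕ) : ℝ) * ((n : ℝ) + 1) = ((n + 1).choose U : ℝ) * (((n : ℝ) + 1) - U) := by
          have h3 : (((n + 1 - U : ℕ)) : ℝ) = ((n : ℝ) + 1) - U := by
            rw [Nat.cast_sub h]; push_cast; ring
          rw [← h3]
          exact_mod_cast this
        push_cast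
        linarith
      · rw [Nat.choose_eq_zero_of_lt h, Nat.choose_eq_zero_of_lt (by omega)]
        simp
  rcases U with _ | U
  · simp only [phi_zero]
    field_simp
    push_cast
    ring
  · rw [Nat.add_sub_cancel]
    -- C(n+1,U+1) = C(n,U) + C(n,U+1)
    have k2 : ((n + 1).choose (U + 1) : ℝ) = (n.choose U : ℝ) + (n.choose (U + 1) : ℝ) := by
      exact_mod_cast Nat.choose_succ_succ n U
    -- (U+1) C(n,U+1) = (n-U) C(n,U)
    have k3 : ∀ k : ℕ, ((U : ℝ) + 1) * (k.choose (U + 1) : ℝ) = ((k : ℝ) - U) * (k.choose U : ℝ) := by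
      intro k
      have := Nat.choose_succ_right_eq k U
      rcases le_or_gt U k with h | h
      · have h3 : (((k - U : ℕ)) : ℝ) = (k : ℝ) - U := by
          rw [Nat.cast_sub h]
        rw [← h3]
        have h4 : (((k.choose (U + 1) * (U + 1) : ℕ)) : ℝ) = ((k.choose U * (k - U) : ℕ) : ℝ) := by
          exact_mod_cast this
        push_cast at h4
        linarith
      · rw [Nat.choose_eq_zero_of_lt h, Nat.choose_eq_zero_of_lt (by omega)]
        simp
    have kN := k3 N
    have kn := k3 n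
    have hcU : ((N.choose U : ℕ) : ℝ) ≠ 0 := by
      have := Nat.choose_pos (by omega : U ≤ N)
      positivity
    have hNU : ((N : ℝ) - U) ≠ 0 := by
      have : (U : ℝ) + 1 ≤ N := by exact_mod_cast hU
      have : (0 : ℝ) < (N : ℝ) - U := by linarith
      exact this.ne'
    unfold phi
    -- express C(N,U+1) through C(N,U)
    have kN' : ((N.choose (U + 1) : ℕ) : ℝ) = ((N : ℝ) - U) * (N.choose U : ℝ) / ((U : ℝ) + 1) := by
      field_simp
      linarith
    have kn' : ((n.choose (U + 1) : ℕ) : ℝ) = ((n : ℝ) - U) * (n.choose U : ℝ) / ((U : ℝ) + 1) := by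
      field_simp
      linarith
    have k1' : (n : ℝ) * (2 ^ (U + 1) * ((n - 1).choose (U + 1) : ℝ) / (N.choose (U + 1) : ℝ)) =
      2 ^ (U + 1) * (((n : ℝ) - (U + 1 : ℕ)) * (n.choose (U + 1) : ℝ)) / (N.choose (U + 1) : ℝ) := by
      rw [← k1]; ring
    rw [mul_add, k1', k2, kN', kn']
    push_cast
    field_simp
    ring

/-- Duality: one step of the walk acting on `n` equals one step of the dual chain. -/
lemma Phi_step {N U n : ℕ} (hN : 0 < N) (hU : U ≤ N) (hn : n ≤ N) (η : ℝ) (g : Bool) :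
    Lm N η (Phi N n) U g =
      (1 / 2) * Phi N n U g + ((1 - η) / (2 * N)) * ((n : ℝ) * Phi N (n - 1) U g +
        ((N : ℝ) - n) * Phi N (n + 1) U g) + (η / 2) * Phi N (N - n) U g := by
  have h1 := phi_step (n := n) hN hU
  have h2 := phi_step (n := N - n) hN hU
  have e0 : ((N - n : ℕ) : ℝ) = (N : ℝ) - n := by rw [Nat.cast_sub hn]
  rw [e0] at h2
  have hsub : N - (N - n) = n := by omega
  have hN' : (N : ℝ) ≠ 0 := by positivity
  cases g with
  | false =>
    simp only [Lm_apply, Phi, Bool.false_eq_true, if_false, if_true]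
    have e : (1 - η) / (2 * (N : ℝ)) * ((n : ℝ) * phi N U (n - 1) + ((N : ℝ) - n) * phi N U (n + 1)) =
      (1 - η) * ((1 / (2 * N)) * ((n : ℝ) * phi N U (n - 1) + ((N : ℝ) - n) * phi N U (n + 1))) := by
      ring
    rw [e]
    linear_combination (-(1 - η)) * h1
  | true =>
    simp only [Lm_apply, Phi, if_true, hsub]
    have e3 : (n : ℝ) * ((phi N U (n - 1) + phi N U (N - (n - 1))) / 2) =
        (n : ℝ) * ((phi N U (n - 1) + phi N U ((N - n) + 1)) / 2) := by
      rcases Nat.eq_zero_or_pos n with h | h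
      · rw [h]; simp
      · rw [show N - (n - 1) = (N - n) + 1 by omega]
    have e4 : ((N : ℝ) - n) * ((phi N U (n + 1) + phi N U (N - (n + 1))) / 2) =
        ((N : ℝ) - n) * ((phi N U (n + 1) + phi N U ((N - n) - 1)) / 2) := by
      rw [show N - (n + 1) = (N - n) - 1 by omega]
    rw [e3, e4]
    linear_combination (-(1 - η) / 2) * h1 + (-(1 - η) / 2) * h2

/-- The density of the weight process at time `t` at a configuration with `n` zeros. -/
noncomputable def G (N : ℕ) (η : ℝ) (t n : ℕ) : ℝ := ((Lm N η) ^ t) (Phi N n) N false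

lemma G_zero {N n : ℕ} (η : ℝ) (hn : n ≤ N) : G N η 0 n = if n = N then 2 ^ N else 0 := by
  unfold G
  simp only [pow_zero, Module.End.one_apply, Phi, Bool.false_eq_true, if_false]
  exact phi_top hn

lemma G_succ {N n : ℕ} {η : ℝ} (h0 : 0 ≤ η) (h1 : η ≤ 1) (hN : 0 < N) (hn : n ≤ N) (t : ℕ) :
    G N η (t + 1) n = (1 / 2) * G N η t n + ((1 - η) / (2 * N)) * ((n : ℝ) * G N η t (n - 1) +
      ((N : ℝ) - n) * G N η t (n + 1)) + (η / 2) * G N η t (N - n) := by
  unfold G
  rw [Lm_pow_succ]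
  have hcongr : ∀ U ≤ N, ∀ g, Lm N η (Phi N n) U g =
      ((1 / 2 : ℝ) • Phi N n + ((1 - η) / (2 * N)) • ((n : ℝ) • Phi N (n - 1) +
        ((N : ℝ) - n) • Phi N (n + 1)) + (η / 2) • Phi N (N - n)) U g := by
    intro U hU g
    rw [Phi_step hN hU hn]
    simp only [Pi.add_apply, Pi.smul_apply, smul_eq_mul]
  rw [Lm_pow_congr h0 h1 hcongr t N le_rfl false]
  simp only [map_add, map_smul, Pi.add_apply, Pi.smul_apply, smul_eq_mul]

/-! ### Uniform convergence -/

lemma Phi_nonneg (N n U : ℕ) (g : Bool) : 0 ≤ Phi N n U g := by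
  unfold Phi
  have h1 := phi_nonneg N U n
  have h2 := phi_nonneg N U (N - n)
  split_ifs <;> linarith

lemma Phi_le {N n U : ℕ} (hU : U ≤ N) (hn : n ≤ N) (g : Bool) : Phi N n U g ≤ 2 ^ U := by
  unfold Phi
  have h1 := phi_le hU hn
  have h2 := phi_le hU (by omega : N - n ≤ N)
  split_ifs <;> linarith

lemma Phi_zero (N n : ℕ) (g : Bool) : Phi N n 0 g = 1 := by
  unfold Phi
  simp only [phi_zero]
  split_ifs <;> norm_num

lemma one_eq_ch : (fun _ _ => (1 : ℝ) : ℕ → Bool → ℝ) = ch 0 := by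
  funext U g
  simp [ch]

lemma id_eq_ch : (fun U _ => (U : ℝ) : ℕ → Bool → ℝ) = ch 1 := by
  funext U g
  simp [ch]

/-- The top nontrivial eigenvalue of the dual chain. -/
noncomputable def rho (N : ℕ) (η : ℝ) (r : ℕ) : ℝ := 1 - (1 - η) * r / N

lemma G_sub_one_le {N n : ℕ} {η : ℝ} (h0 : 0 ≤ η) (h1 : η ≤ 1) (hN : 0 < N) (hn : n ≤ N) (t : ℕ) :
    |G N η t n - 1| ≤ 2 ^ N * N * (rho N η 1) ^ t := by
  have hup : ∀ U ≤ N, ∀ g, Phi N n U g ≤ (ch 0 + (2 ^ N : ℝ) • ch 1) U g := by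
    intro U hU g
    simp only [Pi.add_apply, Pi.smul_apply, smul_eq_mul, ch, Nat.choose_zero_right, Nat.cast_one,
      Nat.choose_one_right]
    rcases Nat.eq_zero_or_pos U with h | h
    · rw [h, Phi_zero]; simp
    · have h2 := Phi_le hU hn g
      have h3 : (2 : ℝ) ^ U ≤ 2 ^ N := pow_le_pow_right₀ (by norm_num) hU
      have h4 : (1 : ℝ) ≤ U := by exact_mod_cast h
      have h5 : (0 : ℝ) < 2 ^ N := by positivity
      nlinarith
  have hdn : ∀ U ≤ N, ∀ g, (ch 0 - (2 ^ N : ℝ) • ch 1) U g ≤ Phi N n U g := by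
    intro U hU g
    simp only [Pi.sub_apply, Pi.smul_apply, smul_eq_mul, ch, Nat.choose_zero_right, Nat.cast_one,
      Nat.choose_one_right]
    rcases Nat.eq_zero_or_pos U with h | h
    · rw [h, Phi_zero]; simp
    · have h2 := Phi_nonneg N n U g
      have h4 : (1 : ℝ) ≤ U := by exact_mod_cast h
      have h5 : (1 : ℝ) ≤ 2 ^ N := one_le_pow₀ (by norm_num)
      nlinarith
  have e1 := Lm_pow_mono h0 h1 hup t N le_rfl false
  have e2 := Lm_pow_mono h0 h1 hdn t N le_rfl false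
  simp only [map_add, map_sub, map_smul, Pi.add_apply, Pi.sub_apply, Pi.smul_apply, smul_eq_mul,
    Lm_pow_ch hN] at e1 e2
  simp only [Nat.cast_zero, mul_zero, zero_div, sub_zero, one_pow, Nat.choose_zero_right,
    Nat.choose_one_right, Nat.cast_one, mul_one] at e1 e2
  have e3 : rho N η 1 = 1 - (1 - η) / N := by
    unfold rho
    simp
  rw [abs_le, e3]
  unfold G
  constructor
  · linarith
  · linarith

/-! ### Lower bound for the density -/

lemma choose_convex (U M l : ℕ) (hl : l ≤ M) : 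
    2 * M.choose U ≤ (M + l).choose U + (M - l).choose U := by
  rcases U with _ | U
  · simp
  induction l with
  | zero => simp; omega
  | succ l ih =>
    have ih' := ih (by omega)
    have e1 : (M + (l + 1)).choose (U + 1) = (M + l).choose U + (M + l).choose (U + 1) := by
      rw [show M + (l + 1) = (M + l) + 1 by ring, Nat.choose_succ_succ]
    have e2 : (M - l).choose (U + 1) = (M - (l + 1)).choose U + (M - (l + 1)).choose (U + 1) := by
      rw [show M - l = (M - (l + 1)) + 1 by omega, Nat.choose_succ_succ]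
    have e3 : (M - (l + 1)).choose U ≤ (M + l).choose U := Nat.choose_le_choose U (by omega)
    omega

lemma phi_half_ge (M U : ℕ) (hM : 0 < M) (hU : U ≤ 2 * M) :
    1 - (U : ℝ) ^ 2 / (2 * M) ≤ phi (2 * M) U M := by
  induction U with
  | zero => rw [phi_zero]; simp
  | succ U ih =>
    have ih' := ih (by omega)
    have hM' : (0 : ℝ) < M := by positivity
    have h2M : (0 : ℝ) < 2 * M - U := by
      have : (U : ℝ) + 1 ≤ 2 * M := by exact_mod_cast hU
      linarith
    have hstep : phi (2 * M) (U + 1) M * (2 * M - U) = phi (2 * M) U M * (2 * ((M : ℝ) - U)) := by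
      have k3 : ∀ k : ℕ, ((U : ℝ) + 1) * (k.choose (U + 1) : ℝ) = ((k : ℝ) - U) * (k.choose U : ℝ) := by
        intro k
        have := Nat.choose_succ_right_eq k U
        rcases le_or_gt U k with h | h
        · have h3 : (((k - U : ℕ)) : ℝ) = (k : ℝ) - U := by
            rw [Nat.cast_sub h]
          rw [← h3]
          have h4 : (((k.choose (U + 1) * (U + 1) : ℕ)) : ℝ) = ((k.choose U * (k - U) : ℕ) : ℝ) := by
            exact_mod_cast this
          push_cast at h4
          linarith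
        · rw [Nat.choose_eq_zero_of_lt h, Nat.choose_eq_zero_of_lt (by omega)]
          simp
      have c1 : (((2 * M).choose U : ℕ) : ℝ) ≠ 0 := by
        have := Nat.choose_pos (by omega : U ≤ 2 * M)
        positivity
      have kN' : (((2 * M).choose (U + 1) : ℕ) : ℝ) = (2 * (M : ℝ) - U) * ((2 * M).choose U : ℝ) / ((U : ℝ) + 1) := by
        have := k3 (2 * M)
        push_cast at this
        field_simp
        linarith
      have kn' : ((M.choose (U + 1) : ℕ) : ℝ) = ((M : ℝ) - U) * (M.choose U : ℝ) / ((U : ℝ) + 1) := by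
        have := k3 M
        field_simp
        linarith
      have h2M' := h2M.ne'
      unfold phi
      rw [kN', kn']
      obtain ⟨c, hc⟩ : ∃ c : ℝ, c = 2 * (M : ℝ) - U := ⟨_, rfl⟩
      rw [← hc] at h2M' ⊢
      field_simp
      ring
    have hn := phi_nonneg (2 * M) (U + 1) M
    rcases le_or_gt U M with hUM | hUM
    · -- U ≤ M
      have hUM' : (U : ℝ) ≤ M := by exact_mod_cast hUM
      by_cases hneg : 1 - ((U + 1 : ℕ) : ℝ) ^ 2 / (2 * M) ≤ 0
      · linarith
      push Not at hneg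
      push_cast at hneg ⊢
      have hpos : ((U : ℝ) + 1) ^ 2 < 2 * M := by
        have : ((U : ℝ) + 1) ^ 2 / (2 * M) < 1 := by linarith
        rwa [div_lt_one (by positivity)] at this
      have hU0 : (0 : ℝ) ≤ U := by positivity
      -- phi(U+1) = phi(U) * 2(M-U)/(2M-U)
      have e : phi (2 * M) (U + 1) M = phi (2 * M) U M * (2 * ((M : ℝ) - U)) / (2 * M - U) := by
        rw [← hstep]; field_simp
      rw [e, le_div_iff₀ h2M]
      have q : (1 - (U : ℝ) ^ 2 / (2 * M)) * (2 * ((M : ℝ) - U)) ≤ phi (2 * M) U M * (2 * ((M : ℝ) - U)) :=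
        mul_le_mul_of_nonneg_right ih' (by linarith)
      refine le_trans ?_ q
      have e5 : (1 - ((U : ℝ) + 1) ^ 2 / (2 * M)) * (2 * M - U) =
        ((2 * M - ((U : ℝ) + 1) ^ 2) * (2 * M - U)) / (2 * M) := by field_simp
      have e6 : (1 - (U : ℝ) ^ 2 / (2 * M)) * (2 * ((M : ℝ) - U)) = 
        ((2 * M - (U : ℝ) ^ 2) * (2 * ((M : ℝ) - U))) / (2 * M) := by field_simp
      rw [e5, e6]
      refine div_le_div_of_nonneg_right ?_ (by positivity)
      nlinarith [mul_nonneg hU0 hU0, mul_nonneg (mul_nonneg hU0 hU0) hU0, mul_nonneg hU0 (sub_nonneg.2 hUM')]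
    · have hUM' : (M : ℝ) + 1 ≤ U := by exact_mod_cast hUM
      have : 1 - ((U + 1 : ℕ) : ℝ) ^ 2 / (2 * M) ≤ 0 := by
        rw [sub_nonpos, le_div_iff₀ (by positivity)]
        push_cast
        nlinarith
      linarith

lemma Phi_true_ge {M n U : ℕ} (hM : 0 < M) (hU : U ≤ 2 * M) (hn : n ≤ 2 * M) :
    1 - (U : ℝ) ^ 2 / (2 * M) ≤ Phi (2 * M) n U true := by
  refine (phi_half_ge M U hM hU).trans ?_
  unfold Phi
  simp only [if_true]
  have hc : (0 : ℝ) < ((2 * M).choose U : ℝ) := by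
    exact_mod_cast Nat.choose_pos hU
  have key : 2 * M.choose U ≤ n.choose U + (2 * M - n).choose U := by
    rcases le_total n M with h | h
    · have := choose_convex U M (M - n) (by omega)
      rw [show M + (M - n) = 2 * M - n by omega, show M - (M - n) = n by omega] at this
      omega
    · have := choose_convex U M (n - M) (by omega)
      rw [show M + (n - M) = n by omega, show M - (n - M) = 2 * M - n by omega] at this
      omega
  have key' : 2 * (M.choose U : ℝ) ≤ (n.choose U : ℝ) + ((2 * M - n).choose U : ℝ) := by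
    exact_mod_cast key
  unfold phi
  rw [le_div_iff₀ (by norm_num), ← add_div, div_mul_eq_mul_div]
  refine div_le_div_of_nonneg_right ?_ hc.le
  have : (0 : ℝ) < 2 ^ U := by positivity
  nlinarith

/-- Lower bound for the density. -/
lemma G_ge {M n : ℕ} {η : ℝ} (h0 : 0 ≤ η) (h1 : η ≤ 1) (hM : 0 < M) (hn : n ≤ 2 * M) (t : ℕ) :
    1 - (1 - η) ^ t - (2 * (M : ℝ)) * (rho (2 * M) η 2) ^ t - (rho (2 * M) η 1) ^ t ≤ 
      G (2 * M) η t n := by
  have hM' : (0 : ℝ) < M := by positivity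
  have hdn : ∀ U ≤ 2 * M, ∀ g, (ch 0 - ch0 0 - (1 / (2 * (M : ℝ))) • ((2 : ℝ) • ch 2 + ch 1)) U g ≤ 
      Phi (2 * M) n U g := by
    intro U hU g
    have e : (2 : ℝ) * (U.choose 2 : ℝ) + U = (U : ℝ) ^ 2 := by
      rw [Nat.cast_choose_two]
      ring
    simp only [Pi.sub_apply, Pi.add_apply, Pi.smul_apply, smul_eq_mul, ch, ch0, 
      Nat.choose_zero_right, Nat.choose_one_right, Nat.cast_one]
    rw [e]
    cases g with
    | true =>
      simp only [if_true]
      have := Phi_true_ge hM hU hn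
      rw [one_div, inv_mul_eq_div]
      linarith
    | false =>
      simp only [Bool.false_eq_true, if_false]
      have := Phi_nonneg (2 * M) n U false
      have : 0 ≤ 1 / (2 * (M : ℝ)) * (U : ℝ) ^ 2 := by positivity
      linarith
  have e2 := Lm_pow_mono h0 h1 hdn t (2 * M) le_rfl false
  have h2M : 0 < 2 * M := by omega
  simp only [map_add, map_sub, map_smul, Pi.add_apply, Pi.sub_apply, Pi.smul_apply, smul_eq_mul,
    Lm_pow_ch h2M, Lm_pow_ch0 h2M] at e2
  simp only [Nat.cast_zero, mul_zero, zero_div, sub_zero, one_pow, Nat.choose_zero_right,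
    Nat.choose_one_right, Nat.cast_one, mul_one] at e2
  rw [Nat.cast_choose_two] at e2
  have r2 : rho (2 * M) η 2 = 1 - (1 - η) * 2 / (2 * M) := by
    unfold rho
    push_cast
    rfl
  have r1 : rho (2 * M) η 1 = 1 - (1 - η) / (2 * M) := by
    unfold rho
    push_cast
    rw [mul_one]
  push_cast at e2
  have hr2 : 0 ≤ rho (2 * M) η 2 := by
    rw [r2, sub_nonneg, div_le_one (by positivity)]
    have : (1 : ℝ) ≤ M := by exact_mod_cast hM
    nlinarith
  rw [← r2, ← r1] at e2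
  have hp := pow_nonneg hr2 t
  have e3 : 1 / (2 * (M : ℝ)) * (2 * (rho (2 * M) η 2 ^ t * (2 * (M : ℝ) * (2 * M - 1) / 2)) +
      rho (2 * M) η 1 ^ t * (2 * M)) = (2 * M - 1) * rho (2 * M) η 2 ^ t + rho (2 * M) η 1 ^ t := by
    field_simp
  rw [e3] at e2
  unfold G
  linarith

/-! ### Upper bound for the density at a well chosen configuration -/

lemma phi_le_pow {N U n : ℕ} (hN : 0 < N) (hU : U ≤ N) (hn : n ≤ N) :
    phi N U n ≤ (2 * (n : ℝ) / N) ^ U := by
  induction U with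
  | zero => rw [phi_zero]; simp
  | succ U ih =>
    have ih' := ih (by omega)
    have hN' : (0 : ℝ) < N := by positivity
    rcases le_or_gt n U with hnU | hnU
    · unfold phi
      rw [Nat.choose_eq_zero_of_lt (by omega : n < U + 1)]
      simp only [Nat.cast_zero, mul_zero, zero_div]
      positivity
    · have k3 : ∀ k : ℕ, U ≤ k → ((U : ℝ) + 1) * (k.choose (U + 1) : ℝ) = ((k : ℝ) - U) * (k.choose U : ℝ) := by
        intro k h
        have := Nat.choose_succ_right_eq k U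
        have h3 : (((k - U : ℕ)) : ℝ) = (k : ℝ) - U := by
          rw [Nat.cast_sub h]
        rw [← h3]
        have h4 : (((k.choose (U + 1) * (U + 1) : ℕ)) : ℝ) = ((k.choose U * (k - U) : ℕ) : ℝ) := by
          exact_mod_cast this
        push_cast at h4
        linarith
      have kN := k3 N (by omega)
      have kn := k3 n (by omega)
      have c1 : ((N.choose U : ℕ) : ℝ) ≠ 0 := by
        have := Nat.choose_pos (by omega : U ≤ N)
        positivity
      have hNU : (0 : ℝ) < (N : ℝ) - U := by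
        have : (U : ℝ) + 1 ≤ N := by exact_mod_cast hU
        linarith
      have kN' : ((N.choose (U + 1) : ℕ) : ℝ) = ((N : ℝ) - U) * (N.choose U : ℝ) / ((U : ℝ) + 1) := by
        field_simp
        linarith
      have kn' : ((n.choose (U + 1) : ℕ) : ℝ) = ((n : ℝ) - U) * (n.choose U : ℝ) / ((U : ℝ) + 1) := by
        field_simp
        linarith
      have e : phi N (U + 1) n = phi N U n * (2 * ((n : ℝ) - U) / (N - U)) := by
        unfold phi
        rw [kN', kn']
        obtain ⟨c, hc⟩ : ∃ c : ℝ, c = (N : ℝ) - U := ⟨_, rfl⟩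
        rw [← hc] at hNU ⊢
        field_simp
        ring
      rw [e, pow_succ]
      have hnU' : (U : ℝ) < n := by exact_mod_cast hnU
      have hnN' : (n : ℝ) ≤ N := by exact_mod_cast hn
      refine mul_le_mul ih' ?_ ?_ (by positivity)
      · rw [div_le_div_iff₀ hNU hN']
        have : (0 : ℝ) ≤ U := by positivity
        nlinarith
      · apply div_nonneg _ hNU.le
        linarith

lemma Phi_false_le {M l U : ℕ} (hM : 0 < M) (hl : l ≤ M) (hU : U ≤ 2 * M) :
    Phi (2 * M) (M - l) U false ≤ (1 - (l : ℝ) / M) ^ U := by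
  have h := phi_le_pow (n := M - l) (by omega : 0 < 2 * M) hU (by omega)
  have hM' : (0 : ℝ) < M := by positivity
  have e : 2 * ((M - l : ℕ) : ℝ) / ((2 * M : ℕ) : ℝ) = 1 - (l : ℝ) / M := by
    rw [Nat.cast_sub hl]
    push_cast
    field_simp
  rw [e] at h
  unfold Phi
  simpa using h

lemma Phi_true_le {M l U : ℕ} (hM : 0 < M) (hl : l ≤ M) (hU : U ≤ 2 * M) :
    Phi (2 * M) (M - l) U true ≤ ((1 + (l : ℝ) / M) ^ U + (1 - (l : ℝ) / M) ^ U) / 2 := by
  have h1 := phi_le_pow (n := M - l) (by omega : 0 < 2 * M) hU (by omega)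
  have h2 := phi_le_pow (n := 2 * M - (M - l)) (by omega : 0 < 2 * M) hU (by omega)
  have hM' : (0 : ℝ) < M := by positivity
  have e : 2 * ((M - l : ℕ) : ℝ) / ((2 * M : ℕ) : ℝ) = 1 - (l : ℝ) / M := by
    rw [Nat.cast_sub hl]
    push_cast
    field_simp
  have e2 : 2 * ((2 * M - (M - l) : ℕ) : ℝ) / ((2 * M : ℕ) : ℝ) = 1 + (l : ℝ) / M := by
    rw [show 2 * M - (M - l) = M + l by omega]
    push_cast
    field_simp
  rw [e] at h1
  rw [e2] at h2
  unfold Phi
  simp only [if_true]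
  linarith

lemma two_mul_le_pow_sub (b : ℝ) (hb : 0 ≤ b) (hb1 : b ≤ 1) (U : ℕ) :
    2 * (b * U) ≤ (1 + b) ^ U - (1 - b) ^ U := by
  induction U with
  | zero => simp
  | succ U ih =>
    have h1 : 1 ≤ (1 + b) ^ U := one_le_pow₀ (by linarith)
    have h2 : 0 ≤ (1 - b) ^ U := pow_nonneg (by linarith) U
    rw [pow_succ, pow_succ]
    push_cast
    have h3 := one_add_mul_le_pow (by linarith : (-2 : ℝ) ≤ b) U
    have h4 : (1 + b) ^ U + (1 - b) ^ U ≥ 2 := by
      have h5 := one_add_mul_le_pow (by linarith : (-2 : ℝ) ≤ -b) U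
      have h6 : (1 + -b) = 1 - b := by ring
      rw [h6] at h5
      linarith
    nlinarith

lemma pow_eq_sum_ch {N : ℕ} (x : ℝ) : ∀ U ≤ N, ∀ g : Bool,
    (∑ r ∈ range (N + 1), x ^ r • ch r) U g = (1 + x) ^ U := by
  intro U hU g
  rw [Finset.sum_apply, Finset.sum_apply]
  simp only [Pi.smul_apply, smul_eq_mul, ch]
  rw [add_comm 1 x, add_pow]
  have hsub : range (U + 1) ⊆ range (N + 1) := Finset.range_subset_range.2 (by omega)
  rw [← Finset.sum_subset hsub]
  · refine Finset.sum_congr rfl fun r _ => ?_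
    simp
  · intro r _ hr
    rw [Finset.mem_range, not_lt] at hr
    rw [Nat.choose_eq_zero_of_lt (by omega)]
    simp

lemma rho_nonneg {N r : ℕ} {η : ℝ} (h0 : 0 ≤ η) (h1 : η ≤ 1) (hN : 0 < N) (hr : r ≤ N) :
    0 ≤ rho N η r := by
  unfold rho
  rw [sub_nonneg, div_le_one (by positivity)]
  have h2 : (r : ℝ) ≤ N := by exact_mod_cast hr
  have h3 : (0 : ℝ) ≤ r := by positivity
  nlinarith

lemma rho_le_pow {N r : ℕ} {η : ℝ} (h0 : 0 ≤ η) (h1 : η ≤ 1) (hN : 0 < N) :
    rho N η r ≤ rho N η 1 ^ r := by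
  have h2 : (-2 : ℝ) ≤ -((1 - η) / N) := by
    have : (1 : ℝ) ≤ N := by exact_mod_cast hN
    have h3 : (1 - η) / N ≤ 1 := by
      rw [div_le_one (by positivity)]
      linarith
    linarith
  have h3 := one_add_mul_le_pow h2 r
  have e1 : rho N η 1 = 1 + -((1 - η) / N) := by unfold rho; push_cast; ring
  have e2 : rho N η r = 1 + r * -((1 - η) / N) := by unfold rho; ring
  rw [e1, e2]
  exact h3

lemma Lm_pow_cosh_le {N : ℕ} {η : ℝ} (h0 : 0 ≤ η) (h1 : η ≤ 1) (hN : 0 < N) (b : ℝ) (hb : 0 ≤ b)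
    (hb1 : b ≤ 1) (t : ℕ) :
    ((Lm N η) ^ t) (∑ r ∈ range (N + 1), ((b ^ r + (-b) ^ r) / 2) • ch r) N false ≤ 
      Real.cosh (N * (b * rho N η 1 ^ t)) := by
  simp only [map_sum, map_smul, Finset.sum_apply, Pi.smul_apply, smul_eq_mul, Lm_pow_ch hN]
  have hr1 := rho_nonneg h0 h1 hN (Nat.one_le_iff_ne_zero.2 hN.ne')
  have hr1' : rho N η 1 ≤ 1 := by
    unfold rho
    have : 0 ≤ (1 - η) * (1 : ℕ) / N := by
      apply div_nonneg _ (by positivity)
      push_cast
      linarith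
    linarith
  obtain ⟨β, hβ⟩ : ∃ β : ℝ, β = b * rho N η 1 ^ t := ⟨_, rfl⟩
  have hβ0 : 0 ≤ β := by rw [hβ]; positivity
  have hβ1 : β ≤ 1 := by
    rw [hβ]
    exact mul_le_one₀ hb1 (pow_nonneg hr1 t) (pow_le_one₀ hr1 hr1')
  have hcoef : ∀ r : ℕ, 0 ≤ (b ^ r + (-b) ^ r) / 2 := by
    intro r
    rcases Nat.even_or_odd r with h | h
    · rw [h.neg_pow]
      positivity
    · rw [h.neg_pow]
      simp
  have step1 : ∑ r ∈ range (N + 1), (b ^ r + (-b) ^ r) / 2 * ((1 - (1 - η) * r / N) ^ t * (N.choose r : ℝ)) ≤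
      ∑ r ∈ range (N + 1), (β ^ r + (-β) ^ r) / 2 * (N.choose r : ℝ) := by
    refine Finset.sum_le_sum fun r hr => ?_
    have hr' : r ≤ N := by
      rw [Finset.mem_range] at hr
      omega
    have e1 : (1 - (1 - η) * r / N) ^ t ≤ (rho N η 1 ^ t) ^ r := by
      have h5 := pow_le_pow_left₀ (rho_nonneg h0 h1 hN hr') (rho_le_pow (r := r) h0 h1 hN) t
      rw [← pow_mul, mul_comm r t, pow_mul] at h5
      exact h5
    have e2 : (β ^ r + (-β) ^ r) / 2 = (b ^ r + (-b) ^ r) / 2 * (rho N η 1 ^ t) ^ r := by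
      rw [hβ, neg_mul_eq_neg_mul, mul_pow, mul_pow]
      ring
    rw [e2, mul_assoc]
    refine mul_le_mul_of_nonneg_left ?_ (hcoef r)
    exact mul_le_mul_of_nonneg_right e1 (by positivity)
  have step2 : ∑ r ∈ range (N + 1), (β ^ r + (-β) ^ r) / 2 * (N.choose r : ℝ) = 
      ((1 + β) ^ N + (1 - β) ^ N) / 2 := by
    rw [add_comm 1 β, sub_eq_neg_add, add_pow, add_pow, ← Finset.sum_add_distrib, Finset.sum_div]
    refine Finset.sum_congr rfl fun r _ => ?_
    simp only [one_pow, mul_one]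
    ring
  have step3 : ((1 + β) ^ N + (1 - β) ^ N) / 2 ≤ Real.cosh (N * β) := by
    rw [Real.cosh_eq]
    have a1 : (1 + β) ^ N ≤ Real.exp (N * β) := by
      rw [Real.exp_nat_mul]
      refine pow_le_pow_left₀ (by linarith) ?_ N
      have := Real.add_one_le_exp β
      linarith
    have a2 : (1 - β) ^ N ≤ Real.exp (-(N * β)) := by
      rw [← mul_neg, Real.exp_nat_mul]
      refine pow_le_pow_left₀ (by linarith) ?_ N
      have := Real.add_one_le_exp (-β)
      linarith
    linarith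
  rw [← hβ]
  linarith

/-- Upper bound for the density at a configuration with `M - l` zeros out of `2M`. -/
lemma G_le {M l : ℕ} {η : ℝ} (h0 : 0 ≤ η) (h1 : η ≤ 1) (hM : 0 < M) (hl : l ≤ M) (t : ℕ) :
    G (2 * M) η t (M - l) ≤ Real.cosh (2 * l * rho (2 * M) η 1 ^ t) - 
      2 * l * ((1 - η) * (1 - 1 / (2 * M))) ^ t := by
  have hM' : (0 : ℝ) < M := by positivity
  have h2M : 0 < 2 * M := by omega
  obtain ⟨b, hb⟩ : ∃ b : ℝ, b = (l : ℝ) / M := ⟨_, rfl⟩
  have hb0 : 0 ≤ b := by rw [hb]; positivity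
  have hb1 : b ≤ 1 := by
    rw [hb, div_le_one hM']
    exact_mod_cast hl
  have hup : ∀ U ≤ 2 * M, ∀ g, Phi (2 * M) (M - l) U g ≤ 
      ((∑ r ∈ range (2 * M + 1), ((b ^ r + (-b) ^ r) / 2) • ch r) - b • ch0 1) U g := by
    intro U hU g
    have e1 : (∑ r ∈ range (2 * M + 1), ((b ^ r + (-b) ^ r) / 2) • ch r) U g = 
        ((1 + b) ^ U + (1 - b) ^ U) / 2 := by
      have a1 := pow_eq_sum_ch b U hU g
      have a2 := pow_eq_sum_ch (-b) U hU g
      rw [show (1 + -b) = 1 - b by ring] at a2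
      rw [← a1, ← a2]
      simp only [Finset.sum_apply, Pi.smul_apply, smul_eq_mul]
      rw [← Finset.sum_add_distrib, Finset.sum_div]
      refine Finset.sum_congr rfl fun r _ => ?_
      ring
    rw [Pi.sub_apply, Pi.sub_apply, e1]
    simp only [Pi.smul_apply, smul_eq_mul, ch0, Nat.choose_one_right]
    cases g with
    | true =>
      simp only [if_true, mul_zero, sub_zero]
      have := Phi_true_le hM hl hU
      rw [← hb] at this
      exact this
    | false =>
      simp only [Bool.false_eq_true, if_false]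
      have := Phi_false_le hM hl hU
      rw [← hb] at this
      have h3 := two_mul_le_pow_sub b hb0 hb1 U
      linarith
  have e2 := Lm_pow_mono h0 h1 hup t (2 * M) le_rfl false
  have e3 := Lm_pow_cosh_le h0 h1 h2M b hb0 hb1 t
  rw [map_sub, Pi.sub_apply, Pi.sub_apply, map_smul, Pi.smul_apply, Pi.smul_apply, smul_eq_mul, 
    Lm_pow_ch0 h2M, Nat.choose_one_right] at e2
  have e4 : ((2 * M : ℕ) : ℝ) * (b * rho (2 * M) η 1 ^ t) = 2 * l * rho (2 * M) η 1 ^ t := by
    rw [hb]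
    push_cast
    field_simp
  rw [e4] at e3
  have e5 : b * (((1 - η) * (1 - ((1 : ℕ) : ℝ) / ((2 * M : ℕ) : ℝ))) ^ t * ((2 * M : ℕ) : ℝ)) = 
      2 * l * ((1 - η) * (1 - 1 / (2 * M))) ^ t := by
    rw [hb]
    push_cast
    field_simp
  rw [e5] at e2
  unfold G
  linarith

end Pool.Agent.LazyWalk.Dual
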