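import Pool.Agent.Lib_helper97.SepGeneral
import Pool.Agent.Lib_helper97.SepDual

/-!
The hypercube blown up by a finite abelian group, with one extra antipodal generator.
-/

namespace Pool.Agent.LazyWalk

open Filter Topology Finset

/-! ### Cayley graphs of finite abelian groups -/

section Cayley

variable {V ι : Type} [AddCommGroup V]

/-- Cayley graph of an abelian group with respect to a symmetric family of nonzero generators. -/
def cay (gen : ι → V) (hneg : ∀ a, ∃ b, gen b = -gen a) (h0 : ∀ a, gen a ≠ 0) : SimpleGraph V where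
  Adj u v := ∃ a, v = u + gen a
  symm := ⟨by
    rintro u v ⟨a, rfl⟩
    obtain ⟨b, hb⟩ := hneg a
    exact ⟨b, by rw [hb]; abel⟩⟩
  loopless := ⟨by
    rintro u ⟨a, ha⟩
    exact h0 a (by simpa using ha.symm)⟩

variable (gen : ι → V) (hneg : ∀ a, ∃ b, gen b = -gen a) (h0 : ∀ a, gen a ≠ 0)

lemma cay_adj (u v : V) : (cay gen hneg h0).Adj u v ↔ ∃ a, v = u + gen a := Iff.rfl

lemma cay_transitive : VertexTransitive (cay gen hneg h0) := by
  intro x y
  refine ⟨{ toEquiv := Equiv.addRight (y - x), map_rel_iff' := ?_ }, ?_⟩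
  · intro u v
    simp only [Equiv.coe_addRight, cay_adj]
    constructor
    · rintro ⟨a, ha⟩
      refine ⟨a, ?_⟩
      have : v = v + (y - x) - (y - x) := by abel
      rw [this, ha]
      abel
    · rintro ⟨a, ha⟩
      exact ⟨a, by rw [ha]; abel⟩
  · show x + (y - x) = y
    abel

variable [Fintype V] [Fintype ι]

open scoped Classical in
lemma cay_reg [Nonempty ι] (hinj : Function.Injective gen) : Reg (cay gen hneg h0) (Fintype.card ι) := by
  refine ⟨Fintype.card_pos, fun x => ?_⟩
  have : (univ.filter fun y => (cay gen hneg h0).Adj x y) = univ.image (fun a => x + gen a) := by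
    ext y
    simp only [Finset.mem_filter, Finset.mem_univ, true_and, Finset.mem_image, cay_adj]
    constructor
    · rintro ⟨a, ha⟩; exact ⟨a, ha.symm⟩
    · rintro ⟨a, ha⟩; exact ⟨a, ha.symm⟩
  rw [this, Finset.card_image_of_injective, Finset.card_univ]
  intro a b hab
  exact hinj (by simpa using hab)

open scoped Classical in
lemma cay_stepProb_succ [Nonempty ι] (hinj : Function.Injective gen) (t : ℕ) (x y : V) :
    stepProb (cay gen hneg h0) (t + 1) x y = (1 / 2) * stepProb (cay gen hneg h0) t x y +
      (1 / (2 * (Fintype.card ι : ℝ))) * ∑ a, stepProb (cay gen hneg h0) t x (y - gen a) := by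
  rw [stepProb_succ]
  simp only [lazyWalk_apply (cay_reg gen hneg h0 hinj), mul_add, Finset.sum_add_distrib, mul_ite,
    mul_zero]
  congr 1
  · rw [Finset.sum_ite_eq' Finset.univ y, if_pos (Finset.mem_univ y)]
    ring
  · rw [← Finset.sum_filter]
    have : (univ.filter fun z => (cay gen hneg h0).Adj z y) = univ.image (fun a => y - gen a) := by
      ext z
      simp only [Finset.mem_filter, Finset.mem_univ, true_and, Finset.mem_image, cay_adj]
      constructor
      · rintro ⟨a, ha⟩; exact ⟨a, by rw [ha]; abel⟩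
      · rintro ⟨a, ha⟩; exact ⟨a, by rw [← ha]; abel⟩
    rw [this, Finset.sum_image, Finset.mul_sum]
    · exact Finset.sum_congr rfl fun a _ => by ring
    · intro a _ b _ hab
      exact hinj (by simpa using hab)

/-- The law of the walk on a Cayley graph as a function on the group. -/
noncomputable def pt (gen : ι → V) [DecidableEq V] : ℕ → V → ℝ
  | 0, v => if v = 0 then 1 else 0
  | t + 1, v => (1 / 2) * pt gen t v + (1 / (2 * (Fintype.card ι : ℝ))) * ∑ a, pt gen t (v - gen a)

lemma cay_stepProb_eq [DecidableEq V] [Nonempty ι] (hinj : Function.Injective gen) (t : ℕ) (x v : V) :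
    stepProb (cay gen hneg h0) t x (x + v) = pt gen t v := by
  induction t generalizing v with
  | zero =>
    rw [stepProb_zero, pt]
    by_cases hv : v = 0
    · rw [if_pos hv, if_pos (by rw [hv, add_zero])]
    · rw [if_neg hv, if_neg]
      intro h
      exact hv (by simpa using h.symm)
  | succ t ih =>
    rw [cay_stepProb_succ gen hneg h0 hinj, pt, ih]
    congr 2
    refine Finset.sum_congr rfl fun a _ => ?_
    rw [← ih, add_sub_assoc]

end Cayley

/-! ### The example -/

section Cube

variable {N : ℕ} {J : Type} [AddCommGroup J]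

/-- Generators: flip one coordinate and refresh the `J`-part, or apply the antipodal map. -/
def cgen (N : ℕ) (J : Type) [AddCommGroup J] : (Fin N × J) ⊕ Unit → (Fin N → ZMod 2) × J
  | Sum.inl (i, j) => (Pi.single i 1, j)
  | Sum.inr _ => (1, 0)

lemma zmod2_neg (x : ZMod 2) : -x = x := by
  revert x
  decide

lemma zmod2_cases (x : ZMod 2) : x = 0 ∨ x = 1 := by
  revert x
  decide

lemma cgen_neg (a : (Fin N × J) ⊕ Unit) : ∃ b, cgen N J b = -cgen N J a := by
  rcases a with ⟨i, j⟩ | u
  · refine ⟨Sum.inl (i, -j), ?_⟩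
    simp only [cgen, Prod.neg_mk, Prod.mk.injEq, and_true]
    funext l
    simp only [Pi.neg_apply, zmod2_neg]
  · refine ⟨Sum.inr u, ?_⟩
    simp only [cgen, Prod.neg_mk, neg_zero, Prod.mk.injEq, and_true]
    funext l
    simp only [Pi.neg_apply, zmod2_neg]

lemma cgen_ne_zero (hN : 2 ≤ N) (a : (Fin N × J) ⊕ Unit) : cgen N J a ≠ 0 := by
  rcases a with ⟨i, j⟩ | u
  · intro h
    have h1 := congrArg Prod.fst h
    have h2 := congrFun h1 i
    simp [cgen] at h2
  · intro h
    have h1 := congrArg Prod.fst h
    have h2 := congrFun h1 ⟨0, by omega⟩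
    simp [cgen] at h2

lemma cgen_injective (hN : 2 ≤ N) : Function.Injective (cgen N J) := by
  have key : ∀ i : Fin N, (Pi.single i 1 : Fin N → ZMod 2) ≠ 1 := by
    intro i h
    obtain ⟨j, hj⟩ : ∃ j : Fin N, j ≠ i := by
      by_cases hi : (i : ℕ) = 0
      · exact ⟨⟨1, by omega⟩, fun h => by rw [← h] at hi; simp at hi⟩
      · exact ⟨⟨0, by omega⟩, fun h => by rw [← h] at hi; simp at hi⟩
    have h2 := congrFun h j
    rw [Pi.single_eq_of_ne hj] at h2
    simp at h2
  rintro (⟨i, j⟩ | u) (⟨i', j'⟩ | u') h
  · simp only [cgen, Prod.mk.injEq] at h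
    obtain ⟨h1, h2⟩ := h
    have h3 : i = i' := by
      by_contra hne
      have h4 := congrFun h1 i
      rw [Pi.single_eq_same, Pi.single_eq_of_ne hne] at h4
      exact one_ne_zero h4
    rw [h3, h2]
  · exfalso
    simp only [cgen, Prod.mk.injEq] at h
    exact key i h.1
  · exfalso
    simp only [cgen, Prod.mk.injEq] at h
    exact key i' h.1.symm
  · rfl

/-- The graph. -/
def cube (N : ℕ) (J : Type) [AddCommGroup J] (hN : 2 ≤ N) : SimpleGraph ((Fin N → ZMod 2) × J) :=
  cay (cgen N J) cgen_neg (cgen_ne_zero hN)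

/-- Number of zero coordinates. -/
def zeros {N : ℕ} (h : Fin N → ZMod 2) : ℕ := (univ.filter fun i => h i = 0).card

lemma zeros_le (h : Fin N → ZMod 2) : zeros h ≤ N := by
  unfold zeros
  refine (Finset.card_filter_le _ _).trans ?_
  simp

lemma zeros_eq_top (h : Fin N → ZMod 2) : zeros h = N ↔ h = 0 := by
  unfold zeros
  constructor
  · intro hh
    have h1 : (univ.filter fun i => h i = 0) = univ := by
      apply Finset.eq_univ_of_card
      rw [hh, Fintype.card_fin]
    funext i
    have : i ∈ (univ.filter fun i => h i = 0) := by rw [h1]; exact Finset.mem_univ i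
    exact (Finset.mem_filter.1 this).2
  · rintro rfl
    simp

lemma zeros_sub_one (h : Fin N → ZMod 2) : zeros (h - 1) = N - zeros h := by
  unfold zeros
  have h1 : (univ.filter fun i => (h - 1) i = 0) = (univ.filter fun i => h i = 0)ᶜ := by
    ext i
    simp only [Finset.mem_filter, Finset.mem_univ, true_and, Finset.mem_compl, Pi.sub_apply,
      Pi.one_apply]
    rcases zmod2_cases (h i) with h' | h' <;> rw [h'] <;> decide
  rw [h1, Finset.card_compl, Fintype.card_fin]

lemma zeros_sub_single (h : Fin N → ZMod 2) (i : Fin N) :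
    zeros (h - Pi.single i 1) = if h i = 0 then zeros h - 1 else zeros h + 1 := by
  unfold zeros
  split_ifs with hi
  · have h1 : (univ.filter fun j => (h - Pi.single i 1 : Fin N → ZMod 2) j = 0) = (univ.filter fun j => h j = 0).erase i := by
      ext j
      simp only [Finset.mem_filter, Finset.mem_univ, true_and, Finset.mem_erase, Pi.sub_apply]
      by_cases hj : j = i
      · subst hj
        rw [Pi.single_eq_same, hi]
        simp
      · rw [Pi.single_eq_of_ne hj, sub_zero]
        simp [hj]
    rw [h1, Finset.card_erase_of_mem]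
    simp [hi]
  · have h1 : (univ.filter fun j => (h - Pi.single i 1 : Fin N → ZMod 2) j = 0) = insert i (univ.filter fun j => h j = 0) := by
      ext j
      simp only [Finset.mem_filter, Finset.mem_univ, true_and, Finset.mem_insert, Pi.sub_apply]
      by_cases hj : j = i
      · subst hj
        rcases zmod2_cases (h j) with h' | h'
        · exact absurd h' hi
        · rw [Pi.single_eq_same, h']
          simp
      · rw [Pi.single_eq_of_ne hj, sub_zero]
        simp [hj]
    rw [h1, Finset.card_insert_of_notMem]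
    simp [hi]

lemma sum_zeros (h : Fin N → ZMod 2) (φ : ℕ → ℝ) :
    ∑ i, φ (zeros (h - Pi.single i 1)) =
      (zeros h : ℝ) * φ (zeros h - 1) + ((N : ℝ) - zeros h) * φ (zeros h + 1) := by
  have h1 : ∀ i, φ (zeros (h - Pi.single i 1)) = if h i = 0 then φ (zeros h - 1) else φ (zeros h + 1) := by
    intro i
    rw [zeros_sub_single]
    split_ifs <;> rfl
  simp only [h1]
  rw [Finset.sum_ite, Finset.sum_const, Finset.sum_const, nsmul_eq_mul, nsmul_eq_mul]
  congr 2
  have h2 := Finset.card_filter_add_card_filter_not (s := (univ : Finset (Fin N))) (p := fun i => h i = 0)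
  rw [Finset.card_univ, Fintype.card_fin] at h2
  have h3 : ((univ.filter fun i => h i = 0).card : ℝ) + ((univ.filter fun i => ¬ h i = 0).card : ℝ) = N := by
    exact_mod_cast h2
  unfold zeros
  linarith

/-- Degree of the graph. -/
def cdeg (N m : ℕ) : ℕ := N * m + 1

variable [Fintype J]

omit [AddCommGroup J] in
lemma card_gen : Fintype.card ((Fin N × J) ⊕ Unit) = cdeg N (Fintype.card J) := by
  unfold cdeg
  simp

variable [DecidableEq J]

lemma pt_cube_succ (t : ℕ) (h : Fin N → ZMod 2) (j : J) :
    pt (cgen N J) (t + 1) (h, j) = (1 / 2) * pt (cgen N J) t (h, j) +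
      (1 / (2 * (cdeg N (Fintype.card J) : ℝ))) *
        (∑ i, ∑ j', pt (cgen N J) t (h - Pi.single i 1, j') + pt (cgen N J) t (h - 1, j)) := by
  rw [pt, card_gen]
  congr 2
  rw [Fintype.sum_sum_type, Fintype.sum_prod_type]
  congr 1
  · refine Finset.sum_congr rfl fun i _ => ?_
    simp only [cgen, Prod.mk_sub_mk]
    exact (Equiv.subLeft j).sum_comp (fun j' => pt (cgen N J) t (h - Pi.single i 1, j'))
  · simp [cgen]

lemma eta_ne (N m : ℕ) : (cdeg N m : ℝ) ≠ 0 := by
  unfold cdeg
  positivity

/-- The rate of the rare event. -/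
noncomputable def eta (N m : ℕ) : ℝ := 1 / (cdeg N m : ℝ)

lemma eta_nonneg (N m : ℕ) : 0 ≤ eta N m := by
  unfold eta
  positivity

lemma eta_le_one (N m : ℕ) : eta N m ≤ 1 := by
  unfold eta
  rw [div_le_one (by unfold cdeg; positivity)]
  unfold cdeg
  push_cast
  have : (0 : ℝ) ≤ (N : ℝ) * m := by positivity
  linarith

lemma eta_coef {N m : ℕ} (hN : 0 < N) : (1 - eta N m) / (2 * N) = m / (2 * (cdeg N m : ℝ)) := by
  have h1 : (N : ℝ) ≠ 0 := by positivity
  have h2 := eta_ne N m
  unfold eta
  field_simp
  unfold cdeg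
  push_cast
  ring

/-- The marginal of the walk on the hypercube part is described by the dual chain. -/
lemma marginal_eq (hN : 2 ≤ N) (t : ℕ) (h : Fin N → ZMod 2) :
    2 ^ N * ∑ j, pt (cgen N J) t (h, j) = Dual.G N (eta N (Fintype.card J)) t (zeros h) := by
  induction t generalizing h with
  | zero =>
    rw [Dual.G_zero _ (zeros_le h)]
    simp only [pt]
    by_cases hh : h = 0
    · rw [if_pos ((zeros_eq_top h).2 hh), hh]
      have : ∑ j : J, (if ((0 : Fin N → ZMod 2), j) = 0 then (1 : ℝ) else 0) = ∑ j : J, if j = 0 then (1 : ℝ) else 0 := by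
        refine Finset.sum_congr rfl fun j _ => ?_
        congr 1
        simp [Prod.ext_iff]
      rw [this, Finset.sum_ite_eq' Finset.univ (0 : J), if_pos (Finset.mem_univ _), mul_one]
    · rw [if_neg (fun h' => hh ((zeros_eq_top h).1 h'))]
      have : ∀ j : J, ((h, j) : (Fin N → ZMod 2) × J) ≠ 0 := by
        intro j h'
        exact hh (congrArg Prod.fst h')
      simp only [this, if_false, Finset.sum_const_zero, mul_zero]
  | succ t ih =>
    have hN0 : 0 < N := by omega
    rw [Dual.G_succ (eta_nonneg _ _) (eta_le_one _ _) hN0 (zeros_le h)]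
    simp only [pt_cube_succ, Finset.sum_add_distrib, ← Finset.mul_sum, Finset.sum_const,
      Finset.card_univ, nsmul_eq_mul]
    rw [← sum_zeros h (Dual.G N (eta N (Fintype.card J)) t), ← zeros_sub_one, ← ih h, ← ih (h - 1),
      eta_coef hN0]
    simp only [← ih]
    rw [← Finset.mul_sum]
    have h2 := eta_ne N (Fintype.card J)
    unfold eta
    field_simp
    ring

/-- Deviation from the marginal. -/
lemma deviation_le (hN : 2 ≤ N) (t : ℕ) (h : Fin N → ZMod 2) (j : J) :
    |2 ^ N * (Fintype.card J : ℝ) * pt (cgen N J) t (h, j) - Dual.G N (eta N (Fintype.card J)) t (zeros h)| ≤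
      (1 / 2 * (1 + eta N (Fintype.card J))) ^ t * (2 ^ N * (Fintype.card J : ℝ)) := by
  have hJ : (1 : ℝ) ≤ Fintype.card J := by
    have : 0 < Fintype.card J := Fintype.card_pos_iff.2 ⟨0⟩
    exact_mod_cast this
  induction t generalizing h j with
  | zero =>
    rw [Dual.G_zero _ (zeros_le h), pow_zero, one_mul]
    simp only [pt]
    have h2 : (0 : ℝ) < 2 ^ N := by positivity
    rw [abs_le]
    split_ifs with h3 h4 h4
    · constructor <;> nlinarith
    · constructor <;> nlinarith
    · constructor <;> nlinarith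
    · constructor <;> nlinarith
  | succ t ih =>
    have hN0 : 0 < N := by omega
    have e1 : 2 ^ N * (Fintype.card J : ℝ) * pt (cgen N J) (t + 1) (h, j) -
        Dual.G N (eta N (Fintype.card J)) (t + 1) (zeros h) =
        (1 / 2) * (2 ^ N * (Fintype.card J : ℝ) * pt (cgen N J) t (h, j) -
          Dual.G N (eta N (Fintype.card J)) t (zeros h)) +
        (eta N (Fintype.card J) / 2) * (2 ^ N * (Fintype.card J : ℝ) * pt (cgen N J) t (h - 1, j) -
          Dual.G N (eta N (Fintype.card J)) t (zeros (h - 1))) := by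
      rw [Dual.G_succ (eta_nonneg _ _) (eta_le_one _ _) hN0 (zeros_le h), pt_cube_succ,
        ← sum_zeros h (Dual.G N (eta N (Fintype.card J)) t), ← zeros_sub_one, eta_coef hN0]
      simp only [← marginal_eq hN t]
      rw [← Finset.mul_sum]
      have h2 := eta_ne N (Fintype.card J)
      unfold eta
      field_simp
      ring
    rw [e1]
    have i1 := ih h j
    have i2 := ih (h - 1) j
    have hη := eta_nonneg N (Fintype.card J)
    refine (abs_add_le _ _).trans ?_
    rw [abs_mul, abs_mul, abs_of_pos (by norm_num : (0 : ℝ) < 1 / 2), abs_of_nonneg (by linarith : 0 ≤ eta N (Fintype.card J) / 2)]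
    rw [pow_succ]
    have j1 := mul_le_mul_of_nonneg_left i1 (by norm_num : (0 : ℝ) ≤ 1 / 2)
    have j2 := mul_le_mul_of_nonneg_left i2 (by linarith : 0 ≤ eta N (Fintype.card J) / 2)
    linarith

end Cube

end Pool.Agent.LazyWalk
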