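import Mathlib

/-!
Definitions for MP_1e9518_pr (lazy simple random walk on a finite graph, mixing times, separation).
-/

namespace Pool.Agent.LazyWalk

open Filter Topology

open scoped Classical in
/-- Transition matrix of the lazy simple random walk on `G`: the walk stays where it is with
probability `1/2` and otherwise moves to a uniformly chosen neighbour. On a `D`-regular graph
this is `(I + A/D)/2`. -/
noncomputable def lazyWalk {V : Type} [Fintype V] (G : SimpleGraph V) : Matrix V V ℝ :=
  Matrix.of fun x y =>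
    (if x = y then (1 / 2 : ℝ) else 0) + (if G.Adj x y then 1 / (2 * (G.degree x : ℝ)) else 0)

open scoped Classical in
/-- `stepProb G t x y` is the probability `P^t(x,y)` that the lazy simple random walk started
from `x` is at `y` after `t` steps. -/
noncomputable def stepProb {V : Type} [Fintype V] (G : SimpleGraph V) (t : ℕ) (x y : V) : ℝ :=
  (lazyWalk G ^ t) x y

/-- Total variation distance `d(t)` to the uniform law (maximum over the starting vertex `x`; for
a vertex-transitive graph it does not depend on `x`). -/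
noncomputable def tvDist {V : Type} [Fintype V] (G : SimpleGraph V) (t : ℕ) : ℝ :=
  ⨆ x : V, (1 / 2) * ∑ y : V, |stepProb G t x y - 1 / (Fintype.card V : ℝ)|

/-- Separation distance `s(t) = max_y (1 - P^t(x,y)/π(y))`, with `π(y) = 1/|V|` (maximum over the
starting vertex `x` as well; for a vertex-transitive graph it does not depend on `x`). -/
noncomputable def sepDist {V : Type} [Fintype V] (G : SimpleGraph V) (t : ℕ) : ℝ :=
  ⨆ x : V, ⨆ y : V, (1 - stepProb G t x y / (1 / (Fintype.card V : ℝ)))

/-- `T_mix(ε) = min {t : d(t) ≤ ε}`. -/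
noncomputable def Tmix {V : Type} [Fintype V] (G : SimpleGraph V) (ε : ℝ) : ℕ :=
  sInf {t : ℕ | tvDist G t ≤ ε}

/-- `T_sep(ε) = min {t : s(t) ≤ ε}`. -/
noncomputable def Tsep {V : Type} [Fintype V] (G : SimpleGraph V) (ε : ℝ) : ℕ :=
  sInf {t : ℕ | sepDist G t ≤ ε}

/-- Second largest eigenvalue (with multiplicity) of the transition matrix of a regular graph:
the largest eigenvalue that has an eigenvector orthogonal to the constants. -/
noncomputable def lambdaTwo {V : Type} [Fintype V] (G : SimpleGraph V) : ℝ :=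
  sSup {μ : ℝ | ∃ f : V → ℝ, f ≠ 0 ∧ ∑ x, f x = 0 ∧ (lazyWalk G).mulVec f = μ • f}

/-- Relaxation time `T_rel = 1 / (1 - λ₂)`. -/
noncomputable def Trel {V : Type} [Fintype V] (G : SimpleGraph V) : ℝ :=
  1 / (1 - lambdaTwo G)

/-- Vertex-transitivity: the automorphism group acts transitively on the vertices. -/
def VertexTransitive {V : Type} (G : SimpleGraph V) : Prop :=
  ∀ x y : V, ∃ φ : G ≃g G, φ x = y

/-- The product condition for a sequence of graphs: `T_mix / T_rel → ∞`, where
`T_mix = T_mix(1/4)`. -/
def ProductCondition {V : ℕ → Type} [∀ n, Fintype (V n)] (G : ∀ n, SimpleGraph (V n)) : Prop :=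
  Tendsto (fun n => (Tmix (G n) (1 / 4) : ℝ) / Trel (G n)) atTop atTop

/-- Separation cutoff: `T_sep(ε) / T_sep(1-ε) → 1` for every fixed `ε` in `(0,1/2)`. -/
def SeparationCutoff {V : ℕ → Type} [∀ n, Fintype (V n)] (G : ∀ n, SimpleGraph (V n)) : Prop :=
  ∀ ε : ℝ, 0 < ε → ε < 1 / 2 →
    Tendsto (fun n => (Tsep (G n) ε : ℝ) / (Tsep (G n) (1 - ε) : ℝ)) atTop (𝓝 1)

end Pool.Agent.LazyWalk
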